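import Pool.Agent.W38.AFe

/-! Negative odd integers: the Syracuse map and affine neighbours.
The lemmas `syr_eq`, `exists_odd_part`, `T_pow_two`, `odd_reach` are copied from helper42's
`Pool/Agent/W42/Syr.lean`. -/

set_option autoImplicit false

namespace Pool.Agent.W38.AN

open Finset Filter Topology Pool.Agent.H499R2.CO Pool.Agent.W38.CR Pool.Agent.W38.AF

/-- The Syracuse map. -/
def Syr (N : ℤ) : ℤ := (3 * N + 1) / 2 ^ padicValInt 2 (3 * N + 1)

/-- The `3x+1` map, one halving per step. -/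
def T (x : ℤ) : ℤ := if x % 2 = 0 then x / 2 else (3 * x + 1) / 2

theorem T_eq : T = Tz 1 := rfl

lemma syr_eq {N M : ℤ} {v : ℕ} (h : 3 * N + 1 = 2 ^ v * M) (hM : M % 2 = 1) : Syr N = M := by
  have hM0 : M ≠ 0 := by rintro rfl; norm_num at hM
  have h1 : padicValInt 2 (3 * N + 1) = v := by
    rw [h, padicValInt.mul (by positivity) hM0]
    have h2 : padicValInt 2 M = 0 := padicValInt.eq_zero_of_not_dvd (by
      intro h3
      have : (2 : ℤ) ∣ M := by exact_mod_cast h3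
      omega)
    have h3 : padicValInt 2 ((2 : ℤ) ^ v) = v := by
      have e : ((2 : ℤ) ^ v) = ((2 ^ v : ℕ) : ℤ) := by push_cast; ring
      rw [e, padicValInt.of_nat, padicValNat.prime_pow]
    rw [h2, h3, add_zero]
  unfold Syr
  rw [h1, h, Int.mul_ediv_cancel_left _ (by positivity)]

lemma exists_odd_part : ∀ (n : ℕ) (a : ℤ), a.natAbs ≤ n → a ≠ 0 → ∃ (v : ℕ) (M : ℤ), a = 2 ^ v * M ∧ M % 2 = 1 := by
  intro n
  induction n with
  | zero => intro a ha h0; omega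
  | succ n ih =>
    intro a ha h0
    rcases Int.emod_two_eq_zero_or_one a with h | h
    · obtain ⟨v, M, h1, h2⟩ := ih (a / 2) (by omega) (by omega)
      refine ⟨v + 1, M, ?_, h2⟩
      rw [pow_succ]
      have : a = 2 * (a / 2) := by omega
      rw [this, h1]; ring
    · exact ⟨0, a, by simp, h⟩

lemma T_pow_two (M : ℤ) : ∀ (i v : ℕ), i ≤ v → T^[i] (2 ^ v * M) = 2 ^ (v - i) * M := by
  intro i
  induction i with
  | zero => intro v _; simp
  | succ i ih =>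
    intro v hv
    obtain ⟨w, rfl⟩ : ∃ w, v = w + 1 := ⟨v - 1, by omega⟩
    rw [Function.iterate_succ_apply]
    have h1 : T (2 ^ (w + 1) * M) = 2 ^ w * M := by
      have h2 : (2 : ℤ) ^ (w + 1) * M = 2 * (2 ^ w * M) := by rw [pow_succ]; ring
      unfold T
      rw [h2]
      rw [if_pos (by omega)]
      omega
    rw [h1, ih w (by omega)]
    congr 2
    omega

/-- one Syracuse step is several steps of `T` -/
theorem syr_step (N : ℤ) (hN : N % 2 = 1) : ∃ w : ℕ, T^[w + 1] N = Syr N ∧ Syr N % 2 = 1 := by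
  obtain ⟨v, M, h1, h2⟩ := exists_odd_part _ (3 * N + 1) le_rfl (by omega)
  have hv : 1 ≤ v := by
    by_contra hv
    have : v = 0 := by omega
    rw [this] at h1
    omega
  obtain ⟨w, rfl⟩ : ∃ w, v = w + 1 := ⟨v - 1, by omega⟩
  have h3 : T N = 2 ^ w * M := by
    have h4 : (2 : ℤ) ^ (w + 1) * M = 2 * (2 ^ w * M) := by rw [pow_succ]; ring
    unfold T
    rw [if_neg (by omega), h1, h4]
    omega
  refine ⟨w, ?_, by rw [syr_eq h1 h2]; exact h2⟩
  rw [Function.iterate_succ_apply, h3, T_pow_two M w w le_rfl, syr_eq h1 h2]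
  simp

/-- the Syracuse orbit of an odd integer lies on its `T`-orbit -/
theorem syr_iter : ∀ (k : ℕ) (N : ℤ), N % 2 = 1 → ∃ j, T^[j] N = Syr^[k] N ∧ Syr^[k] N % 2 = 1 := by
  intro k
  induction k with
  | zero => intro N hN; exact ⟨0, rfl, hN⟩
  | succ k ih =>
    intro N hN
    obtain ⟨w, h1, h2⟩ := syr_step N hN
    obtain ⟨j, h3, h4⟩ := ih (Syr N) h2
    refine ⟨j + (w + 1), ?_, ?_⟩
    · rw [Function.iterate_add_apply, h1, h3, Function.iterate_succ_apply]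
    · rw [Function.iterate_succ_apply]; exact h4

/-- every odd element of the `T`-orbit of an odd integer lies on its Syracuse orbit -/
theorem odd_reach : ∀ (j : ℕ) (N : ℤ), N % 2 = 1 → T^[j] N % 2 = 1 → ∃ k, Syr^[k] N = T^[j] N := by
  intro j
  induction j using Nat.strong_induction_on with
  | _ j ih =>
    intro N hN hj
    rcases Nat.eq_zero_or_pos j with rfl | hj0
    · exact ⟨0, rfl⟩
    obtain ⟨v, M, h1, h2⟩ := exists_odd_part _ (3 * N + 1) le_rfl (by omega)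
    have hv : 1 ≤ v := by
      by_contra hv
      have : v = 0 := by omega
      rw [this] at h1
      omega
    obtain ⟨w, rfl⟩ : ∃ w, v = w + 1 := ⟨v - 1, by omega⟩
    have h3 : T N = 2 ^ w * M := by
      have h4 : (2 : ℤ) ^ (w + 1) * M = 2 * (2 ^ w * M) := by rw [pow_succ]; ring
      unfold T
      rw [if_neg (by omega), h1, h4]
      omega
    obtain ⟨j, rfl⟩ : ∃ i, j = i + 1 := ⟨j - 1, by omega⟩
    have h5 : w ≤ j := by
      by_contra hlt
      rw [Function.iterate_succ_apply, h3, T_pow_two M j w (by omega)] at hj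
      obtain ⟨u, hu⟩ : ∃ u, w - j = u + 1 := ⟨w - j - 1, by omega⟩
      rw [hu, pow_succ] at hj
      have h6 : (2 : ℤ) ^ u * 2 * M = 2 * (2 ^ u * M) := by ring
      rw [h6] at hj
      omega
    have h6 : T^[j + 1] N = T^[j - w] M := by
      rw [Function.iterate_succ_apply, h3]
      have h7 : j = (j - w) + w := by omega
      conv_lhs => rw [h7]
      rw [Function.iterate_add_apply, T_pow_two M w w le_rfl]
      simp
    rw [h6] at hj ⊢
    obtain ⟨k, hk⟩ := ih (j - w) (by omega) M h2 hj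
    refine ⟨k + 1, ?_⟩
    rw [Function.iterate_succ_apply, syr_eq h1 h2, hk]

/-- for odd integers reaching an odd integer means the same for both maps -/
theorem reach_iff {N z : ℤ} (hN : N % 2 = 1) (hz : z % 2 = 1) :
    (∃ k, Syr^[k] N = z) ↔ ∃ j, T^[j] N = z := by
  constructor
  · rintro ⟨k, hk⟩
    obtain ⟨j, hj, _⟩ := syr_iter k N hN
    exact ⟨j, by rw [hj, hk]⟩
  · rintro ⟨j, hj⟩
    obtain ⟨k, hk⟩ := odd_reach j N hN (by rw [hj]; exact hz)
    exact ⟨k, by rw [hk, hj]⟩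

/-- there is an odd element after every time -/
theorem exists_odd_after {x : ℤ} (hx : x ≠ 0) : ∃ i, T^[i] x % 2 = 1 := by
  obtain ⟨v, M, h1, h2⟩ := exists_odd_part _ x le_rfl hx
  refine ⟨v, ?_⟩
  rw [h1, T_pow_two M v v le_rfl]
  simpa using h2

lemma T_ne_zero {x : ℤ} (hx : x ≠ 0) : T x ≠ 0 := by
  unfold T
  split_ifs <;> omega

lemma T_iter_ne_zero {x : ℤ} (hx : x ≠ 0) (k : ℕ) : T^[k] x ≠ 0 := by
  induction k with
  | zero => exact hx
  | succ k ih => rw [Function.iterate_succ_apply']; exact T_ne_zero ih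

/-- merging of `T`-orbits of odd integers is merging of Syracuse orbits -/
theorem merge_syr {m n : ℤ} (hm : m % 2 = 1) (hn : n % 2 = 1) {i j : ℕ} (h : T^[i] m = T^[j] n) :
    ∃ k l, Syr^[k] m = Syr^[l] n := by
  obtain ⟨u, hu⟩ := exists_odd_after (T_iter_ne_zero (x := n) (by omega) j)
  have h1 : T^[u + i] m = T^[u + j] n := by
    rw [Function.iterate_add_apply, Function.iterate_add_apply, h]
  have h2 : T^[u + j] n % 2 = 1 := by rw [Function.iterate_add_apply]; exact hu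
  obtain ⟨k, hk⟩ := odd_reach (u + i) m hm (by rw [h1]; exact h2)
  obtain ⟨l, hl⟩ := odd_reach (u + j) n hn h2
  exact ⟨k, l, by rw [hk, hl, h1]⟩

/-- the integers reaching the periodic integer `z` -/
def Rz (z : ℤ) : Set ℤ := {x | ∃ k, T^[k] x = z}

theorem Rz_T {z : ℤ} (hz : ∃ p, T^[p + 1] z = z) (x : ℤ) : x ∈ Rz z ↔ T x ∈ Rz z := by
  constructor
  · rintro ⟨k, hk⟩
    rcases k with _ | k
    · obtain ⟨p, hp⟩ := hz
      have hxz : x = z := hk
      refine ⟨p, ?_⟩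
      rw [← Function.iterate_succ_apply, hxz]
      exact hp
    · exact ⟨k, by rw [← Function.iterate_succ_apply]; exact hk⟩
  · rintro ⟨k, hk⟩
    exact ⟨k + 1, by rw [Function.iterate_succ_apply]; exact hk⟩

theorem Rz_Ci {z : ℤ} (hz : ∃ p, T^[p + 1] z = z) (x : ℤ) :
    x ∈ Rz z ↔ Pool.Agent.H499R2.ND.Ci x ∈ Rz z := by
  rw [Rz_T hz x]
  show T x ∈ Rz z ↔ (if x % 2 = 0 then x / 2 else 3 * x + 1) ∈ Rz z
  by_cases h : x % 2 = 0
  · rw [if_pos h]
    have : T x = x / 2 := by unfold T; rw [if_pos h]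
    rw [this]
  · rw [if_neg h, Rz_T hz (3 * x + 1)]
    have h1 : T x = (3 * x + 1) / 2 := by unfold T; rw [if_neg h]
    have h2 : T (3 * x + 1) = (3 * x + 1) / 2 := by unfold T; rw [if_pos (by omega)]
    rw [h1, h2]

/-- the closed set of a cycle absorbs -/
theorem Rz_closed {z : ℤ} {A : Set ℤ} (hA : ∀ x ∈ A, T x ∈ A) {x : ℤ} (hx : x ∈ A) (k : ℕ) :
    T^[k] x ∈ A := by
  induction k with
  | zero => exact hx
  | succ k ih => rw [Function.iterate_succ_apply']; exact hA _ ih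

theorem Rz_disj {z z' : ℤ} {A A' : Set ℤ} (hA : ∀ x ∈ A, T x ∈ A) (hA' : ∀ x ∈ A', T x ∈ A')
    (hz : z ∈ A) (hz' : z' ∈ A') (hd : ∀ x ∈ A, x ∉ A') {x : ℤ} (h : x ∈ Rz z) : x ∉ Rz z' := by
  rintro ⟨j, hj⟩
  obtain ⟨i, hi⟩ := h
  rcases le_total i j with hij | hij
  · obtain ⟨u, rfl⟩ := Nat.exists_eq_add_of_le hij
    rw [Nat.add_comm, Function.iterate_add_apply, hi] at hj
    have := Rz_closed (z := z) hA hz u
    rw [hj] at this
    exact hd _ this hz'
  · obtain ⟨u, rfl⟩ := Nat.exists_eq_add_of_le hij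
    rw [Nat.add_comm, Function.iterate_add_apply, hj] at hi
    have := Rz_closed (z := z') hA' hz' u
    rw [hi] at this
    exact hd _ hz this

theorem HD_or {P Q : ℕ → Prop} {p q : ℝ} (hP : HD P p) (hQ : HD Q q) (hd : ∀ n, P n → ¬ Q n) :
    HD (fun n => P n ∨ Q n) (p + q) := by
  unfold HD at *
  refine (hP.add hQ).congr fun N => ?_
  rw [← add_div]
  congr 1
  have hfin : ∀ R : ℕ → Prop, {n : ℕ | 1 ≤ n ∧ n ≤ N ∧ R n}.Finite := fun R =>
    (Set.finite_Icc 1 N).subset (fun n hn => ⟨hn.1, hn.2.1⟩)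
  have h1 : {n : ℕ | 1 ≤ n ∧ n ≤ N ∧ (P n ∨ Q n)} = {n : ℕ | 1 ≤ n ∧ n ≤ N ∧ P n} ∪
      {n : ℕ | 1 ≤ n ∧ n ≤ N ∧ Q n} := by
    ext n
    simp only [Set.mem_ofPred_eq, Set.mem_union]
    tauto
  have h2 : Disjoint {n : ℕ | 1 ≤ n ∧ n ≤ N ∧ P n} {n : ℕ | 1 ≤ n ∧ n ≤ N ∧ Q n} := by
    rw [Set.disjoint_left]
    intro n hn hn'
    exact hd n hn.2.2 hn'.2.2
  rw [h1, Set.ncard_union_eq h2 (hfin _) (hfin _)]
  push_cast
  ring

/-- invariant sets and odd affine neighbours, at odd `n` -/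
theorem inv_odd {s : ℤ} (hs : s = 1 ∨ s = -1) {S : Set ℤ}
    (h : ∀ x : ℤ, x ∈ S ↔ Pool.Agent.H499R2.ND.Ci x ∈ S) :
    ∃ δ : ℝ, (0 < δ ↔ ∃ x ∈ S, 0 < s * x) ∧ (δ = 1 ↔ ∀ x, 0 < s * x → x ∈ S) ∧
      HD (fun n => n % 2 = 1 ∧ s * (n : ℤ) ∈ S) (δ / 2) ∧
      HD (fun n => n % 2 = 1 ∧ ∀ m : ℤ, m % 2 = 1 → NB n (s * n) m → m ∈ S) (δ / 2) ∧
      HD (fun n => n % 2 = 1 ∧ ∀ m : ℤ, m % 2 = 1 → NB n (s * n) m → m ∉ S) ((1 - δ) / 2) := by
  obtain ⟨δ, h1, h2, h3⟩ := inv_nbr hs h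
  have hE := fwdN hs
  have key : ∀ n : ℕ, Nbr s n → ∀ m, NB n (s * n) m → (m ∈ S ↔ s * (n : ℤ) ∈ S) := by
    rintro n ⟨t, _, ht⟩ m ⟨a, a', b', b'', ha, ha', hb, hb', hm⟩
    rw [Pool.Agent.H668.SM.inv_iter h (t + a') m, ht a a' b' b'' ha ha' hb hb' m hm,
      ← Pool.Agent.H668.SM.inv_iter h (t + a)]
  have hodd : ∀ n : ℕ, n % 2 = 1 → (s * (n : ℤ)) % 2 = 1 := by
    intro n hn
    rcases hs with rfl | rfl <;> omega
  refine ⟨δ, h1, h2, ?_, ?_, ?_⟩
  · have := (h3 2 1 (by norm_num)).1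
    push_cast at this
    refine HD_congr hE this fun n _ hn => ⟨?_, ?_⟩
    · rintro ⟨h4, h5⟩
      exact ⟨by omega, h5 _ (NB_self n _)⟩
    · rintro ⟨h4, h5⟩
      exact ⟨by omega, fun m hm => (key n hn m hm).2 h5⟩
  · have := (h3 2 1 (by norm_num)).1
    push_cast at this
    refine HD_congr hE this fun n _ hn => ⟨?_, ?_⟩
    · rintro ⟨h4, h5⟩
      exact ⟨by omega, fun m _ hm => h5 m hm⟩
    · rintro ⟨h4, h5⟩
      exact ⟨by omega, fun m hm => (key n hn m hm).2 (h5 _ (hodd n h4) (NB_self n _))⟩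
  · have := (h3 2 1 (by norm_num)).2
    push_cast at this
    refine HD_congr hE this fun n _ hn => ⟨?_, ?_⟩
    · rintro ⟨h4, h5⟩
      exact ⟨by omega, fun m _ hm => h5 m hm⟩
    · rintro ⟨h4, h5⟩
      exact ⟨by omega, fun m hm hc => h5 _ (hodd n h4) (NB_self n _) ((key n hn m hm).1 hc)⟩

end Pool.Agent.W38.AN
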