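import Pool.Agent.W38.AFe
import Pool.Agent.H499R2.HL.C

/-! Heights and total stopping times of affine neighbours. -/

set_option autoImplicit false

namespace Pool.Agent.W38.AF

open Finset Filter Topology Pool.Agent.H499R2.CO Pool.Agent.W38.CR

open Pool.Agent.H499R2.ND (Tn IsHt)
open Pool.Agent.H499R2.LT (odn)
open Pool.Agent.H499R2.HL (H iter_upper iter_lower odn_add pow_le_of_hit ht_H)

/-- the scale is small -/
theorem kap_small {C : ℝ} (hC : 0 ≤ C) : ∃ n0 : ℕ, ∀ n ≥ n0, C * Real.exp (C * kap n) ≤ n := by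
  obtain ⟨n0, hn0⟩ := exists_nat_ge (Real.exp (max 3 (max (4 * C ^ 2) (2 * C))))
  refine ⟨max n0 1, fun n hn => ?_⟩
  have hn1 : (1 : ℝ) ≤ n := by exact_mod_cast (le_max_right _ _).trans hn
  have hn2 : Real.exp (max 3 (max (4 * C ^ 2) (2 * C))) ≤ n :=
    hn0.trans (by exact_mod_cast (le_max_left _ _).trans hn)
  have hL : max 3 (max (4 * C ^ 2) (2 * C)) ≤ Real.log n := by
    rw [Real.le_log_iff_exp_le (by linarith)]; exact hn2
  set L := Real.log n with hLd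
  have h3 : (3 : ℝ) ≤ L := (le_max_left _ _).trans hL
  have h4 : 4 * C ^ 2 ≤ L := (le_trans (le_max_left _ _) (le_max_right _ _)).trans hL
  have h5 : 2 * C ≤ L := (le_trans (le_max_right _ _) (le_max_right _ _)).trans hL
  have h6 : kap n ≤ √ L := by
    unfold kap
    rw [← hLd]
    apply div_le_self (Real.sqrt_nonneg _)
    apply one_le_pow₀
    rw [Real.le_log_iff_exp_le (by linarith)]
    linarith [Real.exp_one_lt_d9]
  have h7 : C * √ L ≤ L / 2 := by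
    have h8 : 2 * C ≤ √ L := by
      apply Real.le_sqrt_of_sq_le
      nlinarith
    have h9 : √ L * √ L = L := Real.mul_self_sqrt (by linarith)
    nlinarith [Real.sqrt_nonneg L]
  calc C * Real.exp (C * kap n) ≤ Real.exp (L / 2) * Real.exp (L / 2) := by
        apply mul_le_mul _ _ (Real.exp_pos _).le (Real.exp_pos _).le
        · have := Real.add_one_le_exp (L / 2)
          linarith
        · apply Real.exp_le_exp.2
          exact (mul_le_mul_of_nonneg_left h6 hC).trans h7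
    _ = n := by rw [← Real.exp_add, add_halves, hLd, Real.exp_log (by linarith)]

/-- the numbers of odd terms of linked integers -/
theorem odn_link {t a a' b b' n m X E : ℕ} (hm : Tn^[t + a'] m = X) (hn : Tn^[t + a] n = X)
    (h1 : 2 ^ a * 3 ^ b * m ≤ 2 ^ a' * 3 ^ b' * n + E)
    (h2 : 2 ^ a' * 3 ^ b' * n ≤ 2 ^ a * 3 ^ b * m + E)
    (hs1 : 3 ^ b * 2 ^ (t + a + a') + 3 * E ≤ n) (hs2 : 3 ^ b' * 2 ^ (t + a + a') + 3 * E ≤ n) :
    odn (t + a') m + b' = odn (t + a) n + b := by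
  have a1 := iter_upper (t + a) n
  have a2 := iter_lower (t + a) n
  have b1 := iter_upper (t + a') m
  have b2 := iter_lower (t + a') m
  rw [hn] at a1 a2
  rw [hm] at b1 b2
  set o := odn (t + a) n with ho
  set o' := odn (t + a') m with ho'
  set A := 2 ^ a' * 3 ^ b' * n with hA
  set B := 2 ^ a * 3 ^ b * m with hB
  set P := 2 ^ (t + a + a') * 3 ^ (b + b') * X with hP
  have p3 : ∀ j : ℕ, 1 ≤ 3 ^ j := fun j => Nat.one_le_pow _ _ (by norm_num)
  have p2 : ∀ j : ℕ, 1 ≤ 2 ^ j := fun j => Nat.one_le_pow _ _ (by norm_num)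
  have hAn : n ≤ A := by
    rw [hA]
    have : 1 ≤ 2 ^ a' * 3 ^ b' := Nat.one_le_iff_ne_zero.2 (by positivity)
    nlinarith
  have e1 : 3 ^ (o + b) * A ≤ P := by
    calc 3 ^ (o + b) * A = 3 ^ (b + b') * 2 ^ a' * (3 ^ o * n) := by rw [hA]; ring
      _ ≤ 3 ^ (b + b') * 2 ^ a' * (2 ^ (t + a) * X) := Nat.mul_le_mul_left _ a2
      _ = P := by rw [hP]; ring
  have e2 : P < 3 ^ (o + b) * (A + 3 ^ b' * 2 ^ (t + a + a')) := by
    have h3 : 2 ^ (t + a) * X < 3 ^ o * (n + 2 ^ (t + a)) := lt_of_lt_of_le (by have := p3 o; omega) a1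
    calc P = 3 ^ (b + b') * 2 ^ a' * (2 ^ (t + a) * X) := by rw [hP]; ring
      _ < 3 ^ (b + b') * 2 ^ a' * (3 ^ o * (n + 2 ^ (t + a))) :=
          Nat.mul_lt_mul_of_pos_left h3 (by positivity)
      _ = 3 ^ (o + b) * (A + 3 ^ b' * 2 ^ (t + a + a')) := by rw [hA]; ring
  have f1 : 3 ^ (o' + b') * B ≤ P := by
    calc 3 ^ (o' + b') * B = 3 ^ (b + b') * 2 ^ a * (3 ^ o' * m) := by rw [hB]; ring
      _ ≤ 3 ^ (b + b') * 2 ^ a * (2 ^ (t + a') * X) := Nat.mul_le_mul_left _ b2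
      _ = P := by rw [hP]; ring
  have f2 : P < 3 ^ (o' + b') * (B + 3 ^ b * 2 ^ (t + a + a')) := by
    have h3 : 2 ^ (t + a') * X < 3 ^ o' * (m + 2 ^ (t + a')) :=
      lt_of_lt_of_le (by have := p3 o'; omega) b1
    calc P = 3 ^ (b + b') * 2 ^ a * (2 ^ (t + a') * X) := by rw [hP]; ring
      _ < 3 ^ (b + b') * 2 ^ a * (3 ^ o' * (m + 2 ^ (t + a'))) :=
          Nat.mul_lt_mul_of_pos_left h3 (by positivity)
      _ = 3 ^ (o' + b') * (B + 3 ^ b * 2 ^ (t + a + a')) := by rw [hB]; ring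
  have hpos : 0 < 3 ^ b * 2 ^ (t + a + a') := by positivity
  have hpos' : 0 < 3 ^ b' * 2 ^ (t + a + a') := by positivity
  rcases lt_trichotomy (o' + b') (o + b) with h5 | h5 | h5
  · exfalso
    have h6 : 3 * 3 ^ (o' + b') ≤ 3 ^ (o + b) := by
      rw [← pow_succ']; exact Nat.pow_le_pow_right (by norm_num) h5
    have h7 : 3 ^ (o' + b') * (3 * A) < 3 ^ (o' + b') * (B + 3 ^ b * 2 ^ (t + a + a')) := by
      calc 3 ^ (o' + b') * (3 * A) = 3 * 3 ^ (o' + b') * A := by ring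
        _ ≤ 3 ^ (o + b) * A := Nat.mul_le_mul_right _ h6
        _ ≤ P := e1
        _ < _ := f2
    have h8 := lt_of_mul_lt_mul_left h7 (Nat.zero_le _)
    omega
  · exact h5
  · exfalso
    have h6 : 3 * 3 ^ (o + b) ≤ 3 ^ (o' + b') := by
      rw [← pow_succ']; exact Nat.pow_le_pow_right (by norm_num) h5
    have h7 : 3 ^ (o + b) * (3 * B) < 3 ^ (o + b) * (A + 3 ^ b' * 2 ^ (t + a + a')) := by
      calc 3 ^ (o + b) * (3 * B) = 3 * 3 ^ (o + b) * B := by ring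
        _ ≤ 3 ^ (o' + b') * B := Nat.mul_le_mul_right _ h6
        _ ≤ P := f1
        _ < _ := e2
    have h8 := lt_of_mul_lt_mul_left h7 (Nat.zero_le _)
    omega

/-- the first hitting time of `1` after a time before which `1` is not reached -/
theorem H_after {u x X : ℕ} (hx : Tn^[u] x = X) (hu : 2 ^ u ≤ x) (hx1 : 1 < x) (k : ℕ) :
    H k x ↔ ∃ j, k = u + j ∧ H j X := by
  have hlt : ∀ i, i < u → Tn^[i] x ≠ 1 := by
    intro i hi h5
    have h6 := pow_le_of_hit h5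
    have h7 : 2 ^ i < 2 ^ u := Nat.pow_lt_pow_right (by norm_num) hi
    omega
  constructor
  · intro hk
    have htk : u ≤ k := by
      by_contra hc
      exact hlt k (by omega) hk.1
    obtain ⟨j, rfl⟩ := Nat.exists_eq_add_of_le htk
    refine ⟨j, rfl, ?_, ?_⟩
    · have h5 := hk.1
      rw [Nat.add_comm, Function.iterate_add_apply, hx] at h5
      exact h5
    · intro i hi
      have h6 := hk.2 (u + i) (by omega)
      rw [Nat.add_comm, Function.iterate_add_apply, hx] at h6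
      exact h6
  · rintro ⟨j, rfl, hj⟩
    refine ⟨?_, ?_⟩
    · rw [Nat.add_comm, Function.iterate_add_apply, hx]
      exact hj.1
    · intro i hi
      rcases Nat.lt_or_ge i u with h5 | h5
      · exact hlt i h5
      · obtain ⟨l, rfl⟩ := Nat.exists_eq_add_of_le h5
        rw [Nat.add_comm, Function.iterate_add_apply, hx]
        exact hj.2 l (by omega)

/-- heights after a time -/
theorem ht_after {u x X : ℕ} (hx : Tn^[u] x = X) (hu : 2 ^ u ≤ x) (hx1 : 1 < x) (hodd : x % 2 = 1)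
    (h : ℕ) : IsHt x h ↔ ∃ j, H j X ∧ odn u x + odn j X = h := by
  rw [ht_H hodd (by omega)]
  constructor
  · rintro ⟨k, hk, ho⟩
    obtain ⟨j, rfl, hj⟩ := (H_after hx hu hx1 k).1 hk
    refine ⟨j, hj, ?_⟩
    rw [← ho, odn_add, hx]
  · rintro ⟨j, hj, ho⟩
    refine ⟨u + j, (H_after hx hu hx1 _).2 ⟨j, rfl, hj⟩, ?_⟩
    rw [odn_add, hx, ho]

theorem Tz_Tn (t n : ℕ) : (Tz 1)^[t] (n : ℤ) = ((Tn^[t] n : ℕ) : ℤ) := by
  induction t generalizing n with
  | zero => rfl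
  | succ t ih =>
    rw [Function.iterate_succ_apply, Function.iterate_succ_apply, ← ih]
    congr 1
    unfold Tz Tn
    rcases Nat.mod_two_eq_zero_or_one n with h | h
    · rw [if_pos (by omega), if_pos h]; omega
    · rw [if_neg (by omega), if_neg (by omega)]; omega

/-- the data of a link -/
structure Lk (n m a b a' b' : ℕ) : Prop where
  ha : (a : ℝ) ≤ kap n
  hb : (b : ℝ) ≤ kap n
  ha' : (a' : ℝ) ≤ kap n
  hb' : (b' : ℝ) ≤ kap n
  hm : |((2 ^ a * 3 ^ b * (m : ℤ) - 2 ^ a' * 3 ^ b' * (n : ℤ) : ℤ) : ℝ)| ≤ Real.exp (kap n)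

/-- for almost all `n`: all the data at the common iterate -/
theorem link_data : ∃ n0 : ℕ, ∀ n ≥ n0, Nbr 1 n → ∃ t : ℕ, 4 ^ t ≤ n ∧ ∀ m a b a' b' : ℕ,
    Lk n m a b a' b' → Tn^[t + a'] m = Tn^[t + a] n ∧ 2 ^ (t + a') < m ∧ 2 ^ (t + a) ≤ n ∧
      odn (t + a') m + b' = odn (t + a) n + b := by
  obtain ⟨n0, hn0⟩ := kap_small (C := 16) (by norm_num)
  refine ⟨max n0 16, fun n hn hN => ?_⟩
  obtain ⟨t, ht, hN⟩ := hN
  refine ⟨t, ht, fun m a b a' b' hL => ?_⟩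
  have hK0 := kap_nonneg n
  set K := kap n with hK
  have hsm := hn0 n ((le_max_left _ _).trans hn)
  have hn16 : 16 ≤ n := (le_max_right _ _).trans hn
  have heq : Tn^[t + a'] m = Tn^[t + a] n := by
    have h1 := hN a a' b b' hL.ha hL.ha' hL.hb hL.hb' m (by simpa using hL.hm)
    rw [one_mul, Tz_Tn, Tz_Tn] at h1
    exact_mod_cast h1
  set E := ⌊Real.exp K⌋₊ with hE
  have hE1 : (E : ℝ) ≤ Real.exp K := Nat.floor_le (Real.exp_pos _).le
  have hlink : 2 ^ a * 3 ^ b * m ≤ 2 ^ a' * 3 ^ b' * n + E ∧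
      2 ^ a' * 3 ^ b' * n ≤ 2 ^ a * 3 ^ b * m + E := by
    have h1 := hL.hm
    rw [← Int.cast_abs] at h1
    set D := |2 ^ a * 3 ^ b * (m : ℤ) - 2 ^ a' * 3 ^ b' * (n : ℤ)| with hD
    have h2 : D.toNat ≤ E := by
      apply Nat.le_floor
      have h3 : ((D.toNat : ℕ) : ℝ) = ((D.toNat : ℤ) : ℝ) := by push_cast; rfl
      rw [h3, Int.toNat_of_nonneg (abs_nonneg _)]
      exact h1
    have h4 : D ≤ E := by
      rw [← Int.toNat_of_nonneg (a := D) (abs_nonneg _)]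
      exact_mod_cast h2
    rw [hD, abs_le] at h4
    constructor
    · have : (2 ^ a * 3 ^ b * m : ℤ) ≤ 2 ^ a' * 3 ^ b' * n + E := by linarith [h4.2]
      exact_mod_cast this
    · have : (2 ^ a' * 3 ^ b' * n : ℤ) ≤ 2 ^ a * 3 ^ b * m + E := by linarith [h4.1]
      exact_mod_cast this
  -- smallness
  have e2 : ∀ c : ℕ, (c : ℝ) ≤ K → (2 : ℝ) ^ c ≤ Real.exp K := by
    intro c hc
    have h1 : (2 : ℝ) ≤ Real.exp 1 := by linarith [Real.exp_one_gt_d9]
    calc (2 : ℝ) ^ c ≤ (Real.exp 1) ^ c := pow_le_pow_left₀ (by norm_num) h1 c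
      _ = Real.exp c := by rw [← Real.exp_nat_mul, mul_one]
      _ ≤ Real.exp K := Real.exp_le_exp.2 hc
  have e3 : ∀ c : ℕ, (c : ℝ) ≤ K → (3 : ℝ) ^ c ≤ Real.exp K ^ 2 := by
    intro c hc
    calc (3 : ℝ) ^ c ≤ (2 ^ 2) ^ c := pow_le_pow_left₀ (by norm_num) (by norm_num) c
      _ = (2 ^ c) ^ 2 := by rw [← pow_mul, ← pow_mul, Nat.mul_comm]
      _ ≤ Real.exp K ^ 2 := pow_le_pow_left₀ (by positivity) (e2 c hc) 2
  set W := Real.exp K with hW
  have hW1 : 1 ≤ W := Real.one_le_exp hK0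
  have hW16 : 16 * W ^ 16 ≤ n := by
    rw [hW, ← Real.exp_nat_mul]
    exact_mod_cast hsm
  have ht2 : ((2 : ℝ) ^ t) ^ 2 ≤ n := by
    have : ((2 : ℕ) ^ t) ^ 2 ≤ n := by
      rw [← pow_mul, Nat.mul_comm, pow_mul]; exact ht
    exact_mod_cast this
  have key : ∀ c : ℕ, (c : ℝ) ≤ K → (3 : ℝ) ^ c * 2 ^ (t + a + a') + 3 * E ≤ n := by
    intro c hc
    have h1 : (3 : ℝ) ^ c * 2 ^ (t + a + a') ≤ W ^ 4 * 2 ^ t := by
      rw [pow_add, pow_add]
      have g1 := e3 c hc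
      have g2 := e2 a hL.ha
      have g3 := e2 a' hL.ha'
      calc (3 : ℝ) ^ c * (2 ^ t * 2 ^ a * 2 ^ a') = (3 ^ c * 2 ^ a * 2 ^ a') * 2 ^ t := by ring
        _ ≤ (W ^ 2 * W * W) * 2 ^ t := by gcongr
        _ = W ^ 4 * 2 ^ t := by ring
    -- W^4 2^t ≤ n / 2
    have h2 : W ^ 4 * 2 ^ t ≤ n / 4 := by
      have h3 : (W ^ 4 * 2 ^ t) ^ 2 ≤ (n / 4) ^ 2 := by
        calc (W ^ 4 * 2 ^ t) ^ 2 = W ^ 8 * ((2 : ℝ) ^ t) ^ 2 := by ring
          _ ≤ W ^ 16 * n := by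
              apply mul_le_mul (pow_le_pow_right₀ hW1 (by norm_num)) ht2 (by positivity) (by positivity)
          _ ≤ (n / 16) * n := by
              apply mul_le_mul_of_nonneg_right _ (by positivity)
              linarith
          _ = (n / 4) ^ 2 := by ring
      exact (sq_le_sq₀ (by positivity) (by positivity)).1 h3
    have h4 : 3 * (E : ℝ) ≤ n / 4 := by
      have h5 : W ≤ W ^ 16 := by
        calc W = W ^ 1 := (pow_one W).symm
          _ ≤ W ^ 16 := pow_le_pow_right₀ hW1 (by norm_num)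
      linarith
    have : (0 : ℝ) ≤ n := by positivity
    linarith
  have k1 : 3 ^ b * 2 ^ (t + a + a') + 3 * E ≤ n := by exact_mod_cast key b hL.hb
  have k2 : 3 ^ b' * 2 ^ (t + a + a') + 3 * E ≤ n := by exact_mod_cast key b' hL.hb'
  refine ⟨heq, ?_, ?_, odn_link heq rfl hlink.1 hlink.2 k1 k2⟩
  · have h1 : n ≤ 2 ^ a' * 3 ^ b' * n := by
      have : 1 ≤ 2 ^ a' * 3 ^ b' := Nat.one_le_iff_ne_zero.2 (by positivity)
      nlinarith
    have hEpos : 1 ≤ E := Nat.le_floor (by exact_mod_cast Real.one_le_exp hK0)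
    have h2 : 3 ^ b * 2 ^ (t + a + a') < 2 ^ a * 3 ^ b * m := by
      have := hlink.2
      omega
    have h3 : 2 ^ a * 3 ^ b * 2 ^ (t + a') < 2 ^ a * 3 ^ b * m := by
      calc 2 ^ a * 3 ^ b * 2 ^ (t + a') = 3 ^ b * 2 ^ (t + a + a') := by ring
        _ < _ := h2
    exact lt_of_mul_lt_mul_left h3 (Nat.zero_le _)
  · have h1 : 2 ^ (t + a) ≤ 3 ^ b * 2 ^ (t + a + a') := by
      have e0 : 2 ^ (t + a + a') = 2 ^ (t + a) * 2 ^ a' := pow_add 2 (t + a) a'
      rw [e0]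
      have g1 : 1 ≤ 3 ^ b := Nat.one_le_pow _ _ (by norm_num)
      have g2 : 1 ≤ 2 ^ a' := Nat.one_le_pow _ _ (by norm_num)
      calc 2 ^ (t + a) = 1 * (2 ^ (t + a) * 1) := by ring
        _ ≤ 3 ^ b * (2 ^ (t + a) * 2 ^ a') := by gcongr
    omega

end Pool.Agent.W38.AF
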