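import Pool.Agent.W38.CRg

/-! Coalescing runs: the densities. -/

set_option autoImplicit false

namespace Pool.Agent.W38.CR

open Finset Filter Topology Pool.Agent.H499R2.CO

/-- the whole run `n, ..., n + GG n` has merged after `t` steps, `4 ^ t ≤ n` -/
def Merged (n : ℕ) : Prop := ∃ t : ℕ, 4 ^ t ≤ n ∧ ∀ h : ℕ, (h : ℝ) ≤ GG n →
  (Tz 1)^[t] ((n : ℤ) + h) = (Tz 1)^[t] (n : ℤ)

theorem fwd : HD Merged 1 := by
  classical
  rw [HD_iff]
  apply density_one
  intro ε hε
  obtain ⟨m0, hm0⟩ := forward (show 0 < ε / 4 by positivity)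
  have hev : ∀ᶠ N : ℕ in atTop, (∃ m ≥ m0, 2 * (4 ^ m * m ^ 30) ≤ Nat.log 2 N / 4 ∧
    ∀ z w : ℝ, 0 ≤ z → z ≤ Nat.log 2 N → 0.3 * Nat.log 2 N ≤ w →
      √ z / (Real.log w) ^ 16 < 2 ^ m * Real.log 2) ∧ 100 ≤ Nat.log 2 N ∧
      (2 : ℝ) ^ (Nat.log 2 N / 2) ≤ ε / 4 * N := by
    have h1 := tendsto_natlog.eventually (choose_m m0)
    have h2 := tendsto_natlog.eventually (eventually_ge_atTop 100)
    have h3 : ∀ᶠ s : ℕ in atTop, 4 / ε ≤ (2 : ℝ) ^ (s / 2) := by
      have h4 : Tendsto (fun s : ℕ => (2 : ℝ) ^ (s / 2)) atTop atTop := by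
        apply (tendsto_pow_atTop_atTop_of_one_lt (by norm_num : (1 : ℝ) < 2)).comp
        rw [tendsto_atTop]
        intro b
        filter_upwards [eventually_ge_atTop (2 * b)] with s hs
        omega
      exact h4.eventually_ge_atTop _
    have h4 := tendsto_natlog.eventually h3
    filter_upwards [h1, h2, h4, eventually_ge_atTop 1] with N h1 h2 h4 h5
    refine ⟨h1, h2, ?_⟩
    set s := Nat.log 2 N with hs
    have h6 : 2 ^ s ≤ N := Nat.pow_log_le_self 2 (by omega)
    have h7 : 2 ^ (s / 2) * 2 ^ (s / 2) ≤ N := by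
      rw [← pow_add]
      exact (Nat.pow_le_pow_right (by norm_num) (by omega)).trans h6
    have h8 : (2 : ℝ) ^ (s / 2) * 2 ^ (s / 2) ≤ N := by exact_mod_cast h7
    have h9 : (0 : ℝ) < 2 ^ (s / 2) := by positivity
    rw [div_le_iff₀ hε] at h4
    have h10 : 4 * (2 : ℝ) ^ (s / 2) ≤ (2 ^ (s / 2) * ε) * 2 ^ (s / 2) :=
      mul_le_mul_of_nonneg_right h4 h9.le
    nlinarith
  obtain ⟨N0, hN0⟩ := eventually_atTop.1 hev
  refine ⟨N0, fun N => ?_⟩
  have htriv : (#((Icc 1 N).filter (fun n => ¬ Merged n)) : ℝ) ≤ N := by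
    have := card_filter_le (Icc 1 N) (fun n => ¬ Merged n)
    rw [Nat.card_Icc, Nat.add_sub_cancel] at this
    exact_mod_cast this
  rcases Nat.lt_or_ge N N0 with h | h
  · have h2 : (N : ℝ) ≤ N0 := by exact_mod_cast h.le
    have h3 : 0 ≤ ε * N := by positivity
    linarith
  · obtain ⟨⟨m, hm, hmT, hmG⟩, hs100, hsm⟩ := hN0 N h
    obtain ⟨T, hT, hcount⟩ := hm0 m hm
    have hc := hcount N
    set s := Nat.log 2 N with hs
    have hNpos : N ≠ 0 := by
      rintro rfl
      simp at hs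
      omega
    have hTs : T ≤ s / 4 := hT.trans hmT
    have h2s : 2 ^ s ≤ N := Nat.pow_log_le_self 2 hNpos
    have hN2s : N < 2 ^ (s + 1) := Nat.lt_pow_succ_log_self (by norm_num) N
    have h2T : (2 : ℝ) ^ T ≤ N := by
      have : 2 ^ T ≤ N := (Nat.pow_le_pow_right (by norm_num) (by omega)).trans h2s
      exact_mod_cast this
    have hsub : (Icc 1 N).filter (fun n => ¬ Merged n) ⊆ range (2 ^ (s / 2)) ∪
        (Icc 1 N).filter (fun n : ℕ => ¬ ∀ h : ℕ, h < 2 ^ 2 ^ m →
      (Tz 1)^[T] (((n : ℕ) : ℤ) + h) = (Tz 1)^[T] ((n : ℕ) : ℤ)) := by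
      intro n hn
      rw [mem_filter, mem_Icc] at hn
      rw [mem_union, mem_range]
      by_contra hcon
      rw [not_or, not_lt] at hcon
      obtain ⟨hn1, hn2⟩ := hcon
      rw [mem_filter, not_and, not_not, mem_Icc] at hn2
      have hn3 := hn2 hn.1
      apply hn.2
      refine ⟨T, ?_, fun j hj => hn3 j ?_⟩
      · calc 4 ^ T = 2 ^ (2 * T) := by rw [pow_mul]; norm_num
          _ ≤ 2 ^ (s / 2) := Nat.pow_le_pow_right (by norm_num) (by omega)
          _ ≤ n := hn1
      · have hn0 : (0 : ℝ) < n := by exact_mod_cast (by omega : 0 < n)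
        have hsr : (100 : ℝ) ≤ s := by exact_mod_cast hs100
        have l2 := Real.log_two_gt_d9
        have l2' := Real.log_two_lt_d9
        have hlogn : Real.log n ≤ s := by
          have h1 : (n : ℝ) ≤ 2 ^ (s + 1) := by exact_mod_cast (by omega : n ≤ 2 ^ (s + 1))
          have h2 := Real.log_le_log hn0 h1
          rw [Real.log_pow] at h2
          push_cast at h2
          nlinarith
        have hlogn2 : 0.3 * s ≤ Real.log n := by
          have h1 : (2 : ℝ) ^ (s / 2) ≤ n := by exact_mod_cast hn1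
          have h2 := Real.log_le_log (by positivity) h1
          rw [Real.log_pow] at h2
          have h3 : ((s : ℝ) - 1) / 2 ≤ ((s / 2 : ℕ) : ℝ) := by
            have : s ≤ 2 * (s / 2) + 1 := by omega
            have : (s : ℝ) ≤ 2 * ((s / 2 : ℕ) : ℝ) + 1 := by exact_mod_cast this
            linarith
          nlinarith
        have h5 := hmG (Real.log n) (Real.log n) (by linarith) hlogn hlogn2
        have h6 : (j : ℝ) < 2 ^ 2 ^ m := by
          refine lt_of_le_of_lt hj ?_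
          unfold GG
          have h7 := Real.exp_lt_exp.2 h5
          refine lt_of_lt_of_eq h7 ?_
          have h8 : (2 : ℝ) ^ m * Real.log 2 = ((2 ^ m : ℕ) : ℝ) * Real.log 2 := by push_cast; rfl
          rw [h8, Real.exp_nat_mul, Real.exp_log (by norm_num)]
        exact_mod_cast h6
    have h1 : (#((Icc 1 N).filter (fun n => ¬ Merged n)) : ℝ) ≤ 2 ^ (s / 2) +
        (#((Icc 1 N).filter (fun n : ℕ => ¬ ∀ h : ℕ, h < 2 ^ 2 ^ m →
      (Tz 1)^[T] (((n : ℕ) : ℤ) + h) = (Tz 1)^[T] ((n : ℕ) : ℤ))) : ℝ) := by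
      have h2 := (card_le_card hsub).trans (card_union_le _ _)
      rw [card_range] at h2
      exact_mod_cast h2
    have h0 : (0 : ℝ) ≤ N0 := by positivity
    have hNr : (0 : ℝ) ≤ N := by positivity
    nlinarith

/-- the run `n, ..., n + g n` has not merged after `t` steps, for all `2 ^ t ≤ n` -/
def NotMerged (g : ℕ → ℝ) (n : ℕ) : Prop := ∃ h : ℕ, (h : ℝ) ≤ g n ∧ ∀ t : ℕ, 2 ^ t ≤ n →
  (Tz 1)^[t] ((n : ℤ) + h) ≠ (Tz 1)^[t] (n : ℤ)

open Classical in
/-- one dyadic block -/
theorem block_count {u k : ℕ} (hu : 1 ≤ u) :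
    (#((Ico (2 ^ (u + k)) (2 ^ (u + k + 1))).filter (fun n => same u (bits (u + k) n) ≠ 0)) : ℝ) ≤
      2 ^ (u + k) * (4 * (u + k) / (u : ℝ) ^ 2) := by
  have h1 : (#((Ico (2 ^ (u + k)) (2 ^ (u + k + 1))).filter
      (fun n => same u (bits (u + k) n) ≠ 0)) : ℝ) ≤
      ∑ n ∈ Ico (2 ^ (u + k)) (2 ^ (u + k + 1)), same u (bits (u + k) n) := by
    rw [card_filter]
    push_cast
    apply sum_le_sum
    intro n _
    by_cases h : same u (bits (u + k) n) = 0
    · rw [if_neg (not_not.2 h), h]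
    · rw [if_pos h]
      have h2 : same u (bits (u + k) n) = 1 := by
        unfold same at h ⊢
        split_ifs at h ⊢ with h3
        · rfl
        · exact (h rfl).elim
      rw [h2]
  have h2 : ∑ n ∈ Ico (2 ^ (u + k)) (2 ^ (u + k + 1)), same u (bits (u + k) n) =
      2 ^ (u + k) * av (u + k) (same u) := by
    rw [sum_Ico_eq_sum_range]
    have e1 : 2 ^ (u + k + 1) - 2 ^ (u + k) = 2 ^ (u + k) := by
      rw [pow_succ]; omega
    rw [e1, ← sum_bits]
    apply sum_congr rfl
    intro x _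
    have := bits_add (u + k) 1 x
    rw [mul_one] at this
    rw [this]
  rw [h2] at h1
  exact h1.trans (mul_le_mul_of_nonneg_left (av_same hu) (by positivity))

theorem bwd {ω : ℕ → ℝ} (hω : Tendsto ω atTop atTop) :
    HD (NotMerged (fun n => Real.exp (ω n * √ (Real.log n)))) 1 := by
  classical
  rw [HD_iff]
  apply density_one
  intro ε hε
  obtain ⟨A, hA⟩ := exists_nat_gt (32 / ε)
  have hA0 : (0 : ℝ) < A := lt_trans (by positivity) hA
  have hA1 : 1 ≤ A := by exact_mod_cast hA0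
  have hA1r : (1 : ℝ) ≤ A := by exact_mod_cast hA1
  obtain ⟨n1, hn1⟩ := eventually_atTop.1 (hω.eventually_ge_atTop (A : ℝ))
  obtain ⟨s0, hs0⟩ : ∃ s0, s0 = (A + 2) ^ 2 + n1 + 16 := ⟨_, rfl⟩
  have hn1s : n1 ≤ 2 ^ s0 := by
    have := (Nat.lt_two_pow_self (n := s0)).le
    omega
  -- one block
  have hblock : ∀ s : ℕ, s0 ≤ s → (#((Ico (2 ^ s) (2 ^ (s + 1))).filter (fun n => ¬ NotMerged (fun n => Real.exp (ω n * √ (Real.log n))) n)) : ℝ) ≤
      2 ^ s * (ε / 2) := by
    intro s hs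
    set v := Nat.sqrt s with hv
    have hv1 : v * v ≤ s := Nat.sqrt_le s
    have hv2 : s < (v + 1) * (v + 1) := Nat.lt_succ_sqrt s
    have hvA : A + 2 ≤ v := by
      by_contra hcon
      push Not at hcon
      have h3 : (v + 1) * (v + 1) ≤ (A + 2) * (A + 2) := Nat.mul_le_mul (by omega) (by omega)
      have h4 : (A + 2) ^ 2 = (A + 2) * (A + 2) := by ring
      omega
    set u := A * v with hu
    have hus : u ≤ s := le_trans (Nat.mul_le_mul_right v (by omega)) hv1
    have hu1 : 1 ≤ u := Nat.mul_pos (by omega) (by omega)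
    obtain ⟨k, hk⟩ : ∃ k, s = u + k := ⟨s - u, by omega⟩
    have hsub : (Ico (2 ^ s) (2 ^ (s + 1))).filter (fun n => ¬ NotMerged (fun n => Real.exp (ω n * √ (Real.log n))) n) ⊆
        (Ico (2 ^ (u + k)) (2 ^ (u + k + 1))).filter (fun n => same u (bits (u + k) n) ≠ 0) := by
      intro n hn
      rw [← hk]
      rw [mem_filter, mem_Ico] at hn ⊢
      refine ⟨hn.1, fun hsame => hn.2 ?_⟩
      rw [hk] at hsame
      have hnm := not_merged (u := u) (k := k) (n := n) (by rw [← hk]; exact hn.1.1)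
        (by rw [← hk]; exact hn.1.2) hsame
      refine ⟨2 ^ u - n % 2 ^ u, ?_, fun t ht heq => hnm ?_⟩
      · have hnn1 : n1 ≤ n := hn1s.trans ((Nat.pow_le_pow_right (by norm_num) hs).trans hn.1.1)
        have hωn := hn1 n hnn1
        have hnpos : (0 : ℝ) < n := by
          have : 0 < 2 ^ s := by positivity
          exact_mod_cast (by omega : 0 < n)
        have l2 := Real.log_two_gt_d9
        have l2' := Real.log_two_lt_d9
        have hlogn : (s : ℝ) * Real.log 2 ≤ Real.log n := by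
          have h1 : (2 : ℝ) ^ s ≤ n := by exact_mod_cast hn.1.1
          have h2 := Real.log_le_log (by positivity) h1
          rwa [Real.log_pow] at h2
        have hv1r : (v : ℝ) ^ 2 ≤ s := by
          have : v ^ 2 ≤ s := by rw [sq]; exact hv1
          exact_mod_cast this
        have hsq : (v : ℝ) * Real.log 2 ≤ √ (Real.log n) := by
          apply Real.le_sqrt_of_sq_le
          refine le_trans ?_ hlogn
          rw [mul_pow]
          have h3 : (Real.log 2) ^ 2 ≤ Real.log 2 := by nlinarith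
          have h4 : (0 : ℝ) ≤ (v : ℝ) ^ 2 := by positivity
          calc (v : ℝ) ^ 2 * (Real.log 2) ^ 2 ≤ (v : ℝ) ^ 2 * Real.log 2 :=
                mul_le_mul_of_nonneg_left h3 h4
            _ ≤ s * Real.log 2 := mul_le_mul_of_nonneg_right hv1r (by linarith)
        have h5 : (u : ℝ) * Real.log 2 ≤ ω n * √ (Real.log n) := by
          have e : (u : ℝ) * Real.log 2 = A * (v * Real.log 2) := by rw [hu]; push_cast; ring
          rw [e]
          have h6 : 0 ≤ (v : ℝ) * Real.log 2 := by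
            have : 0 < Real.log 2 := by linarith
            positivity
          exact mul_le_mul hωn hsq h6 (by linarith)
        have h7 : ((2 ^ u - n % 2 ^ u : ℕ) : ℝ) ≤ 2 ^ u := by
          have : 2 ^ u - n % 2 ^ u ≤ 2 ^ u := Nat.sub_le _ _
          exact_mod_cast this
        refine h7.trans ?_
        calc (2 : ℝ) ^ u = Real.exp (u * Real.log 2) := by
              rw [Real.exp_nat_mul, Real.exp_log (by norm_num)]
          _ ≤ _ := Real.exp_le_exp.2 h5
      · rw [← hk]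
        have htS : t ≤ s := by
          by_contra hcon
          push Not at hcon
          have h8 : 2 ^ (s + 1) ≤ 2 ^ t := Nat.pow_le_pow_right (by norm_num) hcon
          omega
        exact iter_persist heq htS
    have h1 : (#((Ico (2 ^ s) (2 ^ (s + 1))).filter (fun n => ¬ NotMerged (fun n => Real.exp (ω n * √ (Real.log n))) n)) : ℝ) ≤
        2 ^ (u + k) * (4 * (u + k) / (u : ℝ) ^ 2) := by
      refine le_trans ?_ (block_count hu1)
      exact_mod_cast card_le_card hsub
    refine h1.trans ?_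
    rw [← hk]
    apply mul_le_mul_of_nonneg_left _ (by positivity)
    have hur : (0 : ℝ) < u := by exact_mod_cast hu1
    rw [div_le_iff₀ (by positivity)]
    have hvr : (1 : ℝ) ≤ v := by exact_mod_cast (by omega : 1 ≤ v)
    have hsr : ((u : ℝ) + k) ≤ 4 * (v : ℝ) ^ 2 := by
      have h2 : ((u : ℝ) + k) = s := by exact_mod_cast hk.symm
      rw [h2]
      have h3 : (s : ℝ) ≤ (v + 1) * (v + 1) := by exact_mod_cast hv2.le
      nlinarith
    have hAe : 32 ≤ ε * A := by
      have := (div_lt_iff₀ hε).1 hA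
      linarith
    have e : ε / 2 * (u : ℝ) ^ 2 = (ε * A) * (A * (v : ℝ) ^ 2) / 2 := by rw [hu]; push_cast; ring
    rw [e]
    have h4 : (v : ℝ) ^ 2 ≤ A * (v : ℝ) ^ 2 := by
      have : (0 : ℝ) ≤ (v : ℝ) ^ 2 := by positivity
      nlinarith
    have h5 : 32 * (v : ℝ) ^ 2 ≤ (ε * A) * (A * (v : ℝ) ^ 2) := by
      have : (0 : ℝ) ≤ (v : ℝ) ^ 2 := by positivity
      apply mul_le_mul hAe h4 this (by positivity)
    linarith
  refine ⟨2 ^ s0, fun N => ?_⟩
  rcases Nat.eq_zero_or_pos N with hN0 | hN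
  · rw [hN0]
    have e : Icc 1 0 = (∅ : Finset ℕ) := rfl
    rw [e, filter_empty, card_empty]
    have : (0 : ℝ) ≤ 2 ^ s0 := by positivity
    push_cast
    linarith
  set L := Nat.log 2 N with hL
  have h2L : 2 ^ L ≤ N := Nat.pow_log_le_self 2 (by omega)
  set Bad : ℕ → Prop := fun n => ¬ NotMerged (fun n => Real.exp (ω n * √ (Real.log n))) n with hBad
  have hsub : (Icc 1 N).filter Bad ⊆ range (2 ^ s0) ∪
      (Icc s0 L).biUnion (fun s => (Ico (2 ^ s) (2 ^ (s + 1))).filter Bad) := by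
    intro n hn
    rw [mem_filter, mem_Icc] at hn
    rw [mem_union, mem_range, mem_biUnion]
    by_cases hlt : n < 2 ^ s0
    · left; exact hlt
    · right
      push Not at hlt
      refine ⟨Nat.log 2 n, ?_, ?_⟩
      · rw [mem_Icc]
        exact ⟨(Nat.le_log_iff_pow_le (by norm_num) (by omega)).2 hlt, Nat.log_mono_right hn.1.2⟩
      · rw [mem_filter, mem_Ico]
        exact ⟨⟨Nat.pow_log_le_self 2 (by omega), Nat.lt_pow_succ_log_self (by norm_num) n⟩, hn.2⟩
  have h1 : (#((Icc 1 N).filter Bad) : ℝ) ≤ 2 ^ s0 +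
      ∑ s ∈ Icc s0 L, (#((Ico (2 ^ s) (2 ^ (s + 1))).filter Bad) : ℝ) := by
    have h2 := (card_le_card hsub).trans (card_union_le _ _)
    rw [card_range] at h2
    have h3 := h2.trans (Nat.add_le_add_left card_biUnion_le _)
    exact_mod_cast h3
  have h2 : ∑ s ∈ Icc s0 L, (#((Ico (2 ^ s) (2 ^ (s + 1))).filter Bad) : ℝ) ≤
      ∑ s ∈ range (L + 1), (2 : ℝ) ^ s * (ε / 2) := by
    refine (sum_le_sum (g := fun s => (2 : ℝ) ^ s * (ε / 2)) fun s hs => hblock s (mem_Icc.1 hs).1).trans ?_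
    apply sum_le_sum_of_subset_of_nonneg
    · intro s hs
      rw [mem_Icc] at hs
      rw [mem_range]; omega
    · intro s _ _; positivity
  rw [← sum_mul, geom_sum_eq (by norm_num)] at h2
  have h3 : (2 : ℝ) ^ L ≤ N := by exact_mod_cast h2L
  have h4 : ((2 : ℝ) ^ (L + 1) - 1) / (2 - 1) * (ε / 2) ≤ ε * N := by
    rw [pow_succ]
    nlinarith
  linarith

end Pool.Agent.W38.CR
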