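import Pool.Agent.W979.TE.Defs2

set_option autoImplicit false

open Classical

/-!
Project TE: the block lemma.
-/

namespace Pool.Agent.W38.TE

open Finset Pool.Agent.W715.BC

/-- number of tuples without conflicts -/
lemma greedy {α : Type} [Fintype α] (W : Finset α) (E : α → α → Prop) (Δ : ℕ)
    (hE : ∀ u ∈ W, (W.filter (fun v => E u v)).card ≤ Δ) (s : ℕ) :
    (W.card - s * Δ) ^ s ≤ ((univ : Finset (Fin s → α)).filter (fun P => (∀ i, P i ∈ W) ∧
      ∀ i j, i < j → ¬ E (P i) (P j))).card := by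
  induction s with
  | zero =>
    rw [pow_zero, Nat.one_le_iff_ne_zero, Finset.card_ne_zero]
    refine ⟨Fin.elim0, ?_⟩
    rw [mem_filter]
    exact ⟨mem_univ _, fun i => i.elim0, fun i => i.elim0⟩
  | succ s ih =>
    set T : Finset (Fin s → α) := univ.filter (fun P => (∀ i, P i ∈ W) ∧
      ∀ i j, i < j → ¬ E (P i) (P j)) with hT
    have hU : ∀ P ∈ T, W.card - s * Δ ≤ (W.filter (fun v => ∀ i, ¬ E (P i) v)).card := by
      intro P hP
      rw [hT, mem_filter] at hP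
      have h1 : W ⊆ W.filter (fun v => ∀ i, ¬ E (P i) v) ∪
          (univ : Finset (Fin s)).biUnion (fun i => W.filter (fun v => E (P i) v)) := by
        intro v hv
        rw [mem_union, mem_filter, mem_biUnion]
        by_cases h : ∀ i, ¬ E (P i) v
        · exact Or.inl ⟨hv, h⟩
        · push Not at h
          obtain ⟨i, hi⟩ := h
          exact Or.inr ⟨i, mem_univ _, mem_filter.2 ⟨hv, hi⟩⟩
      have h2 := card_le_card h1
      have h3 := card_union_le (W.filter (fun v => ∀ i, ¬ E (P i) v))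
        ((univ : Finset (Fin s)).biUnion (fun i => W.filter (fun v => E (P i) v)))
      have h4 : ((univ : Finset (Fin s)).biUnion (fun i => W.filter (fun v => E (P i) v))).card ≤
          s * Δ := by
        refine card_biUnion_le.trans ?_
        refine (sum_le_card_nsmul _ _ Δ (fun i _ => hE (P i) (hP.2.1 i))).trans ?_
        simp
      omega
    have h1 : (T.sigma (fun P => W.filter (fun v => ∀ i, ¬ E (P i) v))).card ≤
        ((univ : Finset (Fin (s + 1) → α)).filter (fun P => (∀ i, P i ∈ W) ∧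
          ∀ i j, i < j → ¬ E (P i) (P j))).card := by
      refine card_le_card_of_injOn
        (fun x : (_ : Fin s → α) × α => (Fin.snoc (α := fun _ => α) x.1 x.2 : Fin (s + 1) → α))
        ?_ ?_
      · rintro ⟨P, v⟩ hx
        rw [mem_coe, mem_sigma, hT, mem_filter, mem_filter] at hx
        obtain ⟨⟨_, hP1, hP2⟩, hv, hv2⟩ := hx
        rw [mem_coe, mem_filter]
        refine ⟨mem_univ _, ?_, ?_⟩
        · intro i
          induction i using Fin.lastCases with
          | last => simpa using hv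
          | cast i => simpa using hP1 i
        · intro i j hij
          induction j using Fin.lastCases with
          | last =>
            induction i using Fin.lastCases with
            | last => exact absurd hij (lt_irrefl _)
            | cast i => simpa using hv2 i
          | cast j =>
            induction i using Fin.lastCases with
            | last => exact absurd hij (not_lt.2 (Fin.le_last _))
            | cast i =>
              have : i < j := by simpa using hij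
              simpa using hP2 i j this
      · rintro ⟨P, v⟩ _ ⟨P', v'⟩ _ h
        have h2 := Fin.snoc_injective2 (α := fun _ => α) h
        simp only [Sigma.mk.injEq]
        exact ⟨h2.1, heq_of_eq h2.2⟩
    rw [card_sigma] at h1
    have h2 : T.card * (W.card - s * Δ) ≤
        ∑ P ∈ T, (W.filter (fun v => ∀ i, ¬ E (P i) v)).card := by
      rw [← smul_eq_mul]
      exact card_nsmul_le_sum _ _ _ hU
    calc (W.card - (s + 1) * Δ) ^ (s + 1) ≤ (W.card - s * Δ) ^ (s + 1) :=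
          Nat.pow_le_pow_left (by rw [add_mul, one_mul]; omega) _
      _ = (W.card - s * Δ) ^ s * (W.card - s * Δ) := pow_succ _ _
      _ ≤ T.card * (W.card - s * Δ) := Nat.mul_le_mul_right _ ih
      _ ≤ _ := h2.trans h1

/-- partition into blocks -/
lemma blocks {α : Type} (μ : ℕ) (hμ : 1 ≤ μ) : ∀ (n : ℕ) (N : Finset α), N.card = n → μ ≤ n →
    ∃ f : α → ℕ, ∀ c ∈ N, μ ≤ (N.filter (fun c' => f c' = f c)).card ∧
      (N.filter (fun c' => f c' = f c)).card ≤ 2 * μ := by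
  intro n
  induction n using Nat.strong_induction_on with
  | _ n ih =>
    intro N hn hμn
    by_cases h : n ≤ 2 * μ
    · refine ⟨fun _ => 0, fun c _ => ?_⟩
      have : N.filter (fun c' => (fun _ : α => 0) c' = (fun _ : α => 0) c) = N := by
        rw [filter_true_of_mem]; intro x _; rfl
      rw [this, hn]
      exact ⟨hμn, h⟩
    · obtain ⟨N1, hN1, hc1⟩ := exists_subset_card_eq (s := N) (n := μ) (by omega)
      have hc2 : (N \ N1).card = n - μ := by rw [card_sdiff_of_subset hN1, hn, hc1]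
      obtain ⟨f, hf⟩ := ih (n - μ) (by omega) (N \ N1) hc2 (by omega)
      refine ⟨fun c => if c ∈ N1 then 0 else f c + 1, fun c hc => ?_⟩
      by_cases hcN : c ∈ N1
      · have : N.filter (fun c' => (if c' ∈ N1 then 0 else f c' + 1) =
            (if c ∈ N1 then 0 else f c + 1)) = N1 := by
          ext x
          rw [mem_filter, if_pos hcN]
          constructor
          · rintro ⟨_, h2⟩
            by_contra hx
            rw [if_neg hx] at h2
            omega
          · intro hx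
            exact ⟨hN1 hx, if_pos hx⟩
        rw [this, hc1]
        omega
      · have : N.filter (fun c' => (if c' ∈ N1 then 0 else f c' + 1) =
            (if c ∈ N1 then 0 else f c + 1)) = (N \ N1).filter (fun c' => f c' = f c) := by
          ext x
          rw [mem_filter, mem_filter, mem_sdiff, if_neg hcN]
          constructor
          · rintro ⟨h1, h2⟩
            by_cases hx : x ∈ N1
            · rw [if_pos hx] at h2; omega
            · rw [if_neg hx] at h2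
              exact ⟨⟨h1, hx⟩, by omega⟩
          · rintro ⟨⟨h1, h2⟩, h3⟩
            rw [if_neg h2, h3]
            exact ⟨h1, rfl⟩
        rw [this]
        exact hf c (mem_sdiff.2 ⟨hc, hcN⟩)

/-- most tuples are injective and light -/
lemma light_count {A B : Type} [Fintype A] [Fintype B] (r : A → B → Prop) (q L : ℕ)
    (Z : Finset A) (hZ : 4 * (q + 1) ^ 2 ≤ Z.card)
    (hheavy : (((univ : Finset (Fin (q + 1) → A)).filter (fun Q =>
      (∀ i, Q i ∈ Z) ∧ L ≤ codeg r Q)).card : ℝ) < (1 / 4) * (Z.card : ℝ) ^ (q + 1)) :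
    (1 / 2) * (Z.card : ℝ) ^ (q + 1) ≤ (((univ : Finset (Fin (q + 1) → A)).filter (fun Q =>
      (∀ i, Q i ∈ Z) ∧ Function.Injective Q ∧ codeg r Q < L)).card : ℝ) := by
  have h1 := greedy Z (fun u v => u = v) 1 (by
    intro u _
    refine card_le_one.2 ?_
    intro a ha b hb
    rw [mem_filter] at ha hb
    rw [← ha.2, ← hb.2]) (q + 1)
  rw [mul_one] at h1
  have h2 : ((univ : Finset (Fin (q + 1) → A)).filter (fun P => (∀ i, P i ∈ Z) ∧
      ∀ i j, i < j → ¬ P i = P j)) ⊆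
      ((univ : Finset (Fin (q + 1) → A)).filter (fun Q => (∀ i, Q i ∈ Z) ∧ L ≤ codeg r Q)) ∪
      ((univ : Finset (Fin (q + 1) → A)).filter (fun Q =>
        (∀ i, Q i ∈ Z) ∧ Function.Injective Q ∧ codeg r Q < L)) := by
    intro P hP
    rw [mem_filter] at hP
    rw [mem_union, mem_filter, mem_filter]
    rcases le_or_gt L (codeg r P) with h | h
    · exact Or.inl ⟨mem_univ _, hP.2.1, h⟩
    · refine Or.inr ⟨mem_univ _, hP.2.1, ?_, h⟩
      intro i j hij
      by_contra hne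
      rcases lt_or_gt_of_ne hne with h3 | h3
      · exact hP.2.2 i j h3 hij
      · exact hP.2.2 j i h3 hij.symm
  have h3 := (card_le_card h2).trans (card_union_le _ _)
  have h4 : (((Z.card - (q + 1)) ^ (q + 1) : ℕ) : ℝ) ≤
      (((univ : Finset (Fin (q + 1) → A)).filter (fun Q => (∀ i, Q i ∈ Z) ∧
        L ≤ codeg r Q)).card : ℝ) +
      (((univ : Finset (Fin (q + 1) → A)).filter (fun Q =>
        (∀ i, Q i ∈ Z) ∧ Function.Injective Q ∧ codeg r Q < L)).card : ℝ) := by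
    exact_mod_cast h1.trans h3
  have hle : q + 1 ≤ Z.card := by nlinarith
  have hzpos : (0 : ℝ) < (Z.card : ℝ) := by
    have : 0 < Z.card := by omega
    exact_mod_cast this
  have h5 : (3 / 4) * (Z.card : ℝ) ^ (q + 1) ≤ (((Z.card - (q + 1)) ^ (q + 1) : ℕ) : ℝ) := by
    rw [Nat.cast_pow, Nat.cast_sub hle]
    push_cast
    have hZR : 4 * ((q : ℝ) + 1) ^ 2 ≤ (Z.card : ℝ) := by exact_mod_cast hZ
    have hq1 : ((q : ℝ) + 1) / (Z.card : ℝ) ≤ 1 / 4 := by
      rw [div_le_iff₀ hzpos]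
      have : (0 : ℝ) ≤ q := Nat.cast_nonneg q
      nlinarith
    have h6 := one_add_mul_le_pow (a := -(((q : ℝ) + 1) / (Z.card : ℝ))) (by linarith) (q + 1)
    have h7 : (3 / 4 : ℝ) ≤ 1 + ((q + 1 : ℕ) : ℝ) * -(((q : ℝ) + 1) / (Z.card : ℝ)) := by
      push_cast
      have h8 : ((q : ℝ) + 1) * (((q : ℝ) + 1) / (Z.card : ℝ)) ≤ 1 / 4 := by
        rw [mul_div_assoc', div_le_iff₀ hzpos]
        nlinarith
      linarith
    have h9 : ((Z.card : ℝ) - ((q : ℝ) + 1)) =
        (Z.card : ℝ) * (1 + -(((q : ℝ) + 1) / (Z.card : ℝ))) := by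
      field_simp
      ring
    rw [h9, mul_pow, mul_comm (3 / 4 : ℝ)]
    exact mul_le_mul_of_nonneg_left (h7.trans h6) (by positivity)
  linarith

/-- fibres over the first coordinate -/
lemma first_coord {A : Type} [Fintype A] (q : ℕ) (Z : Finset A) (G : (Fin (q + 1) → A) → Prop) :
    ((univ : Finset (Fin (q + 1) → A)).filter (fun Q => (∀ i, Q i ∈ Z) ∧ G Q)).card ≤
      ∑ c ∈ Z, ((univ : Finset (Fin q → A)).filter (fun P => (∀ a, P a ∈ Z) ∧
        G (Fin.cons c P))).card := by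
  rw [← card_sigma Z (fun c => (univ : Finset (Fin q → A)).filter (fun P => (∀ a, P a ∈ Z) ∧
        G (Fin.cons c P)))]
  refine card_le_card_of_injOn
    (fun Q : Fin (q + 1) → A => (⟨Q 0, Fin.tail Q⟩ : (_ : A) × (Fin q → A))) ?_ ?_
  · intro Q hQ
    rw [mem_coe, mem_filter] at hQ
    rw [mem_coe, mem_sigma, mem_filter]
    refine ⟨hQ.2.1 0, mem_univ _, fun a => hQ.2.1 a.succ, ?_⟩
    rw [Fin.cons_self_tail]
    exact hQ.2.2
  · intro Q _ Q' _ h
    simp only [Sigma.mk.injEq, heq_eq_eq] at h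
    rw [← Fin.cons_self_tail Q, ← Fin.cons_self_tail Q', h.1, h.2]

/-- number of tuples in a set with a prescribed entry -/
lemma card_fixed {A : Type} [Fintype A] (q : ℕ) (Z : Finset A) (b : Fin q) (w : A) :
    ((univ : Finset (Fin q → A)).filter (fun P => (∀ a, P a ∈ Z) ∧ P b = w)).card ≤
      Z.card ^ (q - 1) := by
  have h : ((univ : Finset (Fin q → A)).filter (fun P => (∀ a, P a ∈ Z) ∧ P b = w)) ⊆
      Fintype.piFinset (fun a => if a = b then {w} else Z) := by
    intro P hP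
    rw [mem_filter] at hP
    rw [Fintype.mem_piFinset]
    intro a
    by_cases hab : a = b
    · rw [if_pos hab, hab, mem_singleton]; exact hP.2.2
    · rw [if_neg hab]; exact hP.2.1 a
  refine (card_le_card h).trans ?_
  rw [Fintype.card_piFinset, ← mul_prod_erase univ _ (mem_univ b), if_pos rfl, card_singleton,
    one_mul]
  have : ∀ a ∈ univ.erase b, (if a = b then ({w} : Finset A) else Z).card = Z.card := by
    intro a ha
    rw [if_neg (mem_erase.1 ha).1]
  rw [prod_congr rfl this, prod_const, card_erase_of_mem (mem_univ b), card_univ,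
    Fintype.card_fin]

/-- number of tuples in a set -/
lemma card_tuples {A : Type} [Fintype A] (q : ℕ) (Z : Finset A) :
    ((univ : Finset (Fin q → A)).filter (fun P => ∀ a, P a ∈ Z)).card = Z.card ^ q := by
  have h : ((univ : Finset (Fin q → A)).filter (fun P => ∀ a, P a ∈ Z)) =
      Fintype.piFinset (fun _ => Z) := by
    ext P
    rw [mem_filter, Fintype.mem_piFinset]
    simp
  rw [h, Fintype.card_piFinset_const]

section main

variable {A B : Type} [Fintype A] [Fintype B]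

/-- the block of the centre c at the connector y -/
noncomputable def blk (r : A → B → Prop) (X : Finset A) (bl : B → A → ℕ) (y : B) (c : A) :
    Finset A :=
  (X.filter (fun c' => r c' y)).filter (fun c' => bl y c' = bl y c)

/-- injective and light -/
def Gd (r : A → B → Prop) (L q : ℕ) (c : A) (P : Fin q → A) : Prop :=
  Function.Injective (Fin.cons c P : Fin (q + 1) → A) ∧
    codeg r (Fin.cons c P : Fin (q + 1) → A) < L

/-- the tuples available at the centre c -/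
noncomputable def WW (r : A → B → Prop) (X : Finset A) (Y : Finset B) (bl : B → A → ℕ) (L q : ℕ)
    (c : A) : Finset (Fin q → A) :=
  univ.filter (fun P => Gd r L q c P ∧ ∃ y ∈ Y, r c y ∧ ∀ a, P a ∈ blk r X bl y c)

/-- light tuples inside blocks -/
lemma light_blocks (r : A → B → Prop) (q L N0 μ : ℕ)
    (hN0 : ∀ Z : Finset A, N0 ≤ Z.card → (((univ : Finset (Fin (q + 1) → A)).filter (fun Q =>
      (∀ i, Q i ∈ Z) ∧ L ≤ codeg r Q)).card : ℝ) < (1 / 4) * (Z.card : ℝ) ^ (q + 1))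
    (h1 : N0 ≤ μ) (h2 : 4 * (q + 1) ^ 2 ≤ μ) (N : Finset A) (f : A → ℕ)
    (hf : ∀ c ∈ N, μ ≤ (N.filter (fun c' => f c' = f c)).card) :
    (1 / 2) * (μ : ℝ) ^ q * (N.card : ℝ) ≤
      ∑ c ∈ N, ((((univ : Finset (Fin q → A)).filter (fun P =>
        (∀ a, P a ∈ N.filter (fun c' => f c' = f c)) ∧ Gd r L q c P)).card : ℕ) : ℝ) := by
  have hmaps : ∀ c ∈ N, f c ∈ N.image f := fun c hc => mem_image_of_mem f hc
  rw [← sum_fiberwise_of_maps_to hmaps, card_eq_sum_card_fiberwise hmaps, Nat.cast_sum, mul_sum]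
  refine sum_le_sum (fun l hl => ?_)
  obtain ⟨c0, hc0, hcl⟩ := mem_image.1 hl
  have hμ : μ ≤ (N.filter (fun c' => f c' = l)).card := by
    rw [← hcl]; exact hf c0 hc0
  set Z := N.filter (fun c' => f c' = l) with hZ
  have h3 := light_count r q L Z (h2.trans hμ) (hN0 Z (h1.trans hμ))
  have h4 := first_coord q Z (fun Q => Function.Injective Q ∧ codeg r Q < L)
  have h5 : ∑ c ∈ Z, ((((univ : Finset (Fin q → A)).filter (fun P =>
        (∀ a, P a ∈ N.filter (fun c' => f c' = f c)) ∧ Gd r L q c P)).card : ℕ) : ℝ) =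
      ((∑ c ∈ Z, ((univ : Finset (Fin q → A)).filter (fun P => (∀ a, P a ∈ Z) ∧
        Gd r L q c P)).card : ℕ) : ℝ) := by
    rw [Nat.cast_sum]
    refine sum_congr rfl (fun c hc => ?_)
    have hcl' : f c = l := (mem_filter.1 hc).2
    rw [hcl']
  rw [h5]
  have h6 : ((univ : Finset (Fin (q + 1) → A)).filter (fun Q =>
      (∀ i, Q i ∈ Z) ∧ Function.Injective Q ∧ codeg r Q < L)).card ≤
      ∑ c ∈ Z, ((univ : Finset (Fin q → A)).filter (fun P => (∀ a, P a ∈ Z) ∧
        Gd r L q c P)).card := by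
    refine le_trans (le_of_eq ?_) (h4.trans (le_of_eq ?_))
    · congr
    · refine sum_congr rfl (fun c _ => ?_)
      unfold Gd
      congr
  refine le_trans ?_ (Nat.cast_le.2 h6)
  refine le_trans ?_ h3
  rw [pow_succ, ← mul_assoc]
  refine mul_le_mul_of_nonneg_right ?_ (Nat.cast_nonneg _)
  refine mul_le_mul_of_nonneg_left ?_ (by norm_num)
  exact pow_le_pow_left₀ (Nat.cast_nonneg _) (Nat.cast_le.2 hμ) _

/-- double counting at one centre -/
lemma at_centre (r : A → B → Prop) (X : Finset A) (Y : Finset B) (bl : B → A → ℕ) (L q : ℕ)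
    (c : A) :
    ∑ y ∈ Y.filter (fun y => r c y), ((univ : Finset (Fin q → A)).filter (fun P =>
      (∀ a, P a ∈ blk r X bl y c) ∧ Gd r L q c P)).card ≤ (WW r X Y bl L q c).card * L := by
  have h1 : ∀ y ∈ Y.filter (fun y => r c y), ((univ : Finset (Fin q → A)).filter (fun P =>
      (∀ a, P a ∈ blk r X bl y c) ∧ Gd r L q c P)).card =
      ∑ P ∈ WW r X Y bl L q c, if (∀ a, P a ∈ blk r X bl y c) then 1 else 0 := by
    intro y hy
    rw [← card_filter]
    congr 1
    ext P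
    rw [mem_filter] at hy
    simp only [mem_filter, WW, mem_univ, true_and]
    constructor
    · rintro ⟨h1, h2⟩
      exact ⟨⟨h2, y, hy.1, hy.2, h1⟩, h1⟩
    · rintro ⟨⟨h1, _⟩, h2⟩
      exact ⟨h2, h1⟩
  rw [sum_congr rfl h1, sum_comm]
  rw [← smul_eq_mul]
  refine sum_le_card_nsmul _ _ L (fun P hP => ?_)
  rw [← card_filter]
  simp only [WW, mem_filter, mem_univ, true_and] at hP
  refine le_trans (card_le_card ?_) hP.1.2.le
  intro y hy
  simp only [mem_filter, mem_univ, true_and] at hy ⊢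
  intro i
  induction i using Fin.cases with
  | zero => simpa using hy.1.2
  | succ a =>
    have := hy.2 a
    simp only [blk, mem_filter] at this
    simpa using this.1.2

/-- total number of available tuples -/
lemma total (r : A → B → Prop) (X : Finset A) (Y : Finset B) (bl : B → A → ℕ) (L q D N0 μ : ℕ)
    (κ : ℝ) (hL : 1 ≤ L)
    (hN0 : ∀ Z : Finset A, N0 ≤ Z.card → (((univ : Finset (Fin (q + 1) → A)).filter (fun Q =>
      (∀ i, Q i ∈ Z) ∧ L ≤ codeg r Q)).card : ℝ) < (1 / 4) * (Z.card : ℝ) ^ (q + 1))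
    (h1 : N0 ≤ μ) (h2 : 4 * (q + 1) ^ 2 ≤ μ)
    (hbl : ∀ y ∈ Y, ∀ c ∈ X.filter (fun c => r c y),
      μ ≤ ((X.filter (fun c => r c y)).filter (fun c' => bl y c' = bl y c)).card)
    (hE : κ * (D : ℝ) * (X.card : ℝ) ≤ ((∑ y ∈ Y, (X.filter (fun c => r c y)).card : ℕ) : ℝ)) :
    κ / (2 * (L : ℝ)) * (D : ℝ) * (μ : ℝ) ^ q * (X.card : ℝ) ≤
      ∑ c ∈ X, ((WW r X Y bl L q c).card : ℝ) := by
  have hLR : (0 : ℝ) < (L : ℝ) := by
    have : 0 < L := hL
    exact_mod_cast this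
  have h3 : (1 / 2) * (μ : ℝ) ^ q * ((∑ y ∈ Y, (X.filter (fun c => r c y)).card : ℕ) : ℝ) ≤
      ∑ y ∈ Y, ∑ c ∈ X.filter (fun c => r c y), ((((univ : Finset (Fin q → A)).filter (fun P =>
        (∀ a, P a ∈ blk r X bl y c) ∧ Gd r L q c P)).card : ℕ) : ℝ) := by
    rw [Nat.cast_sum, mul_sum]
    exact sum_le_sum (fun y hy => light_blocks r q L N0 μ hN0 h1 h2 _ (bl y) (hbl y hy))
  have h4 : ∑ y ∈ Y, ∑ c ∈ X.filter (fun c => r c y), ((((univ : Finset (Fin q → A)).filter
        (fun P => (∀ a, P a ∈ blk r X bl y c) ∧ Gd r L q c P)).card : ℕ) : ℝ) =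
      ∑ c ∈ X, ∑ y ∈ Y.filter (fun y => r c y), ((((univ : Finset (Fin q → A)).filter
        (fun P => (∀ a, P a ∈ blk r X bl y c) ∧ Gd r L q c P)).card : ℕ) : ℝ) := by
    refine sum_comm' ?_
    intro y c
    simp only [mem_filter]
    tauto
  have h5 : ∀ c ∈ X, ∑ y ∈ Y.filter (fun y => r c y), ((((univ : Finset (Fin q → A)).filter
        (fun P => (∀ a, P a ∈ blk r X bl y c) ∧ Gd r L q c P)).card : ℕ) : ℝ) ≤
        ((WW r X Y bl L q c).card : ℝ) * (L : ℝ) := by
    intro c _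
    have := at_centre r X Y bl L q c
    exact_mod_cast this
  have h6 := sum_le_sum h5
  rw [← h4, ← sum_mul] at h6
  have h7 : (1 / 2) * (μ : ℝ) ^ q * (κ * (D : ℝ) * (X.card : ℝ)) ≤
      (1 / 2) * (μ : ℝ) ^ q * ((∑ y ∈ Y, (X.filter (fun c => r c y)).card : ℕ) : ℝ) :=
    mul_le_mul_of_nonneg_left hE (by positivity)
  have h8 := h7.trans (h3.trans h6)
  have h9 : κ / (2 * (L : ℝ)) * (D : ℝ) * (μ : ℝ) ^ q * (X.card : ℝ) =
      ((1 / 2) * (μ : ℝ) ^ q * (κ * (D : ℝ) * (X.card : ℝ))) / (L : ℝ) := by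
    field_simp
  rw [h9, div_le_iff₀ hLR]
  exact h8

/-- few tuples of the centre c conflict with a given tuple -/
lemma conflict (r : A → B → Prop) (X : Finset A) (Y : Finset B) (bl : B → A → ℕ)
    (L q K D μ : ℕ) (c : A) (hc : c ∈ X)
    (hK : (Y.filter (fun y => r c y)).card ≤ K * D)
    (hbl : ∀ y ∈ Y, ∀ c ∈ X.filter (fun c => r c y),
      ((X.filter (fun c => r c y)).filter (fun c' => bl y c' = bl y c)).card ≤ 2 * μ)
    (yy : (Fin q → A) → B)
    (hyy : ∀ P ∈ WW r X Y bl L q c, yy P ∈ Y ∧ r c (yy P) ∧ ∀ a, P a ∈ blk r X bl (yy P) c)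
    (u : Fin q → A) (hu : u ∈ WW r X Y bl L q c) :
    ((WW r X Y bl L q c).filter (fun v => yy u = yy v ∨ ∃ a b, u a = v b)).card ≤
      (2 * μ) ^ q + q ^ 2 * (K * D * (2 * μ) ^ (q - 1)) := by
  have hsub : (WW r X Y bl L q c).filter (fun v => yy u = yy v ∨ ∃ a b, u a = v b) ⊆
      ((univ : Finset (Fin q → A)).filter (fun P => ∀ a, P a ∈ blk r X bl (yy u) c)) ∪
      (univ : Finset (Fin q × Fin q)).biUnion (fun ab =>
        (Y.filter (fun y => r c y)).biUnion (fun y =>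
          (univ : Finset (Fin q → A)).filter (fun P => (∀ a, P a ∈ blk r X bl y c) ∧
            P ab.2 = u ab.1))) := by
    intro v hv
    rw [mem_filter] at hv
    obtain ⟨hv, h | ⟨a, b, hab⟩⟩ := hv
    · refine mem_union_left _ ?_
      rw [mem_filter]
      refine ⟨mem_univ _, ?_⟩
      rw [h]
      exact (hyy v hv).2.2
    · refine mem_union_right _ ?_
      rw [mem_biUnion]
      refine ⟨(a, b), mem_univ _, ?_⟩
      rw [mem_biUnion]
      refine ⟨yy v, mem_filter.2 ⟨(hyy v hv).1, (hyy v hv).2.1⟩, ?_⟩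
      rw [mem_filter]
      exact ⟨mem_univ _, (hyy v hv).2.2, hab.symm⟩
  have hblk : ∀ y ∈ Y, r c y → (blk r X bl y c).card ≤ 2 * μ := by
    intro y hy hcy
    exact hbl y hy c (mem_filter.2 ⟨hc, hcy⟩)
  refine (card_le_card hsub).trans ((card_union_le _ _).trans (Nat.add_le_add ?_ ?_))
  · rw [card_tuples]
    exact Nat.pow_le_pow_left (hblk _ (hyy u hu).1 (hyy u hu).2.1) _
  · refine card_biUnion_le.trans ?_
    refine (sum_le_card_nsmul _ _ (K * D * (2 * μ) ^ (q - 1)) (fun ab _ => ?_)).trans ?_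
    · refine card_biUnion_le.trans ?_
      refine (sum_le_card_nsmul _ _ ((2 * μ) ^ (q - 1)) (fun y hy => ?_)).trans ?_
      · rw [mem_filter] at hy
        exact (card_fixed q _ _ _).trans (Nat.pow_le_pow_left (hblk y hy.1 hy.2) _)
      · rw [smul_eq_mul]
        exact Nat.mul_le_mul_right _ hK
    · rw [smul_eq_mul, card_univ, Fintype.card_prod, Fintype.card_fin, sq]

end main

/-- power mean -/
lemma many {A : Type} (X : Finset A) (w g : A → ℕ) (s Δ : ℕ) (hs : 1 ≤ s) (a : ℝ) (ha : 0 ≤ a)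
    (hX : X.Nonempty) (hg : ∀ c ∈ X, (w c - s * Δ) ^ s ≤ g c)
    (hw : 2 * a * (X.card : ℝ) ≤ ∑ c ∈ X, (w c : ℝ)) (hΔ : ((s * Δ : ℕ) : ℝ) ≤ a) :
    (X.card : ℝ) * a ^ s ≤ ∑ c ∈ X, (g c : ℝ) := by
  obtain ⟨n, rfl⟩ : ∃ n, s = n + 1 := ⟨s - 1, by omega⟩
  have hXpos : (0 : ℝ) < (X.card : ℝ) := by
    have := card_pos.2 hX
    exact_mod_cast this
  have h1 := pow_sum_div_card_le_sum_pow (s := X) (f := fun c => ((w c - (n + 1) * Δ : ℕ) : ℝ))
    (fun c _ => Nat.cast_nonneg _) n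
  have h2 : a * (X.card : ℝ) ≤ ∑ c ∈ X, ((w c - (n + 1) * Δ : ℕ) : ℝ) := by
    have h3 : ∀ c ∈ X, (w c : ℝ) - a ≤ ((w c - (n + 1) * Δ : ℕ) : ℝ) := by
      intro c _
      have h4 : (w c : ℝ) ≤ ((w c - (n + 1) * Δ : ℕ) : ℝ) + (((n + 1) * Δ : ℕ) : ℝ) := by
        rw [← Nat.cast_add]
        exact Nat.cast_le.2 (by omega)
      linarith
    have h5 := sum_le_sum h3
    rw [sum_sub_distrib, sum_const, nsmul_eq_mul] at h5
    linarith
  have h6 : (a * (X.card : ℝ)) ^ (n + 1) / (X.card : ℝ) ^ n ≤ ∑ c ∈ X, (g c : ℝ) := by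
    refine le_trans ?_ (h1.trans ?_)
    · refine div_le_div_of_nonneg_right ?_ (by positivity)
      exact pow_le_pow_left₀ (by positivity) h2 _
    · refine sum_le_sum (fun c hc => ?_)
      have := hg c hc
      exact_mod_cast this
  refine le_trans (le_of_eq ?_) h6
  rw [eq_div_iff (by positivity), mul_pow, pow_succ (X.card : ℝ) n]
  ring

section main2

variable {A B : Type} [Fintype A] [Fintype B]

/-- the s-tuples available at the centre c -/
noncomputable def GG (r : A → B → Prop) (X : Finset A) (Y : Finset B) (bl : B → A → ℕ)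
    (L q s : ℕ) (yy : A → (Fin q → A) → B) (c : A) : Finset (Fin s → Fin q → A) :=
  univ.filter (fun P => (∀ i, P i ∈ WW r X Y bl L q c) ∧
    ∀ i j, i < j → ¬ (yy c (P i) = yy c (P j) ∨ ∃ a b, P i a = P j b))

/-- from many centres with the same tuples to a blowup -/
lemma finish (r : A → B → Prop) (X : Finset A) (Y : Finset B) (bl : B → A → ℕ)
    (L q s t μ : ℕ) (hs : 1 ≤ s) (hq : 1 ≤ q)
    (hbl : ∀ y ∈ Y, ∀ c ∈ X.filter (fun c => r c y),
      ((X.filter (fun c => r c y)).filter (fun c' => bl y c' = bl y c)).card ≤ 2 * μ)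
    (yy : A → (Fin q → A) → B)
    (hyy : ∀ c ∈ X, ∀ P ∈ WW r X Y bl L q c, yy c P ∈ Y ∧ r c (yy c P) ∧
      ∀ a, P a ∈ blk r X bl (yy c P) c)
    (P : Fin s → Fin q → A)
    (hcount : t * (s * s * (2 * μ)) <
      (X.filter (fun c => P ∈ GG r X Y bl L q s yy c)).card) : Blow r s q 0 t := by
  set Z := X.filter (fun c => P ∈ GG r X Y bl L q s yy c) with hZ
  have hZm : ∀ c ∈ Z, c ∈ X ∧ (∀ i, P i ∈ WW r X Y bl L q c) ∧
      ∀ i j, i < j → ¬ (yy c (P i) = yy c (P j) ∨ ∃ a b, P i a = P j b) := by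
    intro c hc
    rw [hZ, mem_filter] at hc
    have h2 := hc.2
    rw [GG, mem_filter] at h2
    exact ⟨hc.1, h2.2⟩
  have hconf : ∀ c ∈ Z, (Z.filter (fun c' => ∃ i j, yy c (P i) = yy c' (P j))).card ≤
      s * s * (2 * μ) := by
    intro c hc
    obtain ⟨hcX, hcW, -⟩ := hZm c hc
    have hsub : Z.filter (fun c' => ∃ i j, yy c (P i) = yy c' (P j)) ⊆
        (univ : Finset (Fin s × Fin s)).biUnion (fun ij =>
          Z.filter (fun c' => yy c (P ij.1) = yy c' (P ij.2))) := by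
      intro c' hc'
      rw [mem_filter] at hc'
      obtain ⟨h1, i, j, hij⟩ := hc'
      rw [mem_biUnion]
      exact ⟨(i, j), mem_univ _, mem_filter.2 ⟨h1, hij⟩⟩
    refine (card_le_card hsub).trans (card_biUnion_le.trans ?_)
    refine (sum_le_card_nsmul _ _ (2 * μ) (fun ij _ => ?_)).trans ?_
    · rcases (Z.filter (fun c' => yy c (P ij.1) = yy c' (P ij.2))).eq_empty_or_nonempty with h | h
      · rw [h, card_empty]; exact Nat.zero_le _
      · obtain ⟨c1, hc1⟩ := h
        rw [mem_filter] at hc1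
        have hy : yy c (P ij.1) ∈ Y := (hyy c hcX _ (hcW ij.1)).1
        have hpq : P ij.2 ⟨0, hq⟩ ∈ X.filter (fun c => r c (yy c1 (P ij.2))) := by
          have := (hyy c1 (hZm c1 hc1.1).1 _ ((hZm c1 hc1.1).2.1 ij.2)).2.2 ⟨0, hq⟩
          rw [blk, mem_filter] at this
          exact this.1
        rw [← hc1.2] at hpq
        refine le_trans (card_le_card ?_) (hbl _ hy _ hpq)
        intro c' hc'
        rw [mem_filter] at hc'
        obtain ⟨h1, h2⟩ := hc'
        have h3 := hyy c' (hZm c' h1).1 _ ((hZm c' h1).2.1 ij.2)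
        rw [← h2] at h3
        have h4 := h3.2.2 ⟨0, hq⟩
        rw [blk, mem_filter] at h4
        rw [mem_filter, mem_filter]
        exact ⟨⟨(hZm c' h1).1, h3.2.1⟩, h4.2.symm⟩
    · rw [smul_eq_mul, card_univ, Fintype.card_prod, Fintype.card_fin]
  obtain ⟨E, hE⟩ : ∃ E : A → A → Prop, ∀ c c', E c c' ↔ ∃ i j, yy c (P i) = yy c' (P j) :=
    ⟨fun c c' => ∃ i j, yy c (P i) = yy c' (P j), fun _ _ => Iff.rfl⟩
  have hgr := greedy Z E (s * s * (2 * μ))
    (fun u hu => by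
      refine le_trans (card_le_card ?_) (hconf u hu)
      intro v hv
      rw [mem_filter] at hv ⊢
      exact ⟨hv.1, (hE u v).1 hv.2⟩) t
  have hpos : 0 < (Z.card - t * (s * s * (2 * μ))) ^ t := by
    apply Nat.pow_pos
    omega
  obtain ⟨c, hc⟩ := card_pos.1 (hpos.trans_le hgr)
  obtain ⟨-, hcZ, hcn⟩ := mem_filter.1 hc
  have hZne : Z.Nonempty := card_pos.1 (by omega)
  obtain ⟨c0, hc0⟩ := hZne
  have hne : ∀ j j', j ≠ j' → ∀ i i', yy (c j) (P i) ≠ yy (c j') (P i') := by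
    intro j j' hjj i i' h
    rcases lt_or_gt_of_ne hjj with h1 | h1
    · exact hcn j j' h1 ((hE _ _).2 ⟨i, i', h⟩)
    · exact hcn j' j h1 ((hE _ _).2 ⟨i', i, h.symm⟩)
  have hin : ∀ c ∈ Z, ∀ i i', i ≠ i' → yy c (P i) ≠ yy c (P i') ∧ ∀ a b, P i a ≠ P i' b := by
    intro c hc i i' hii
    rcases lt_or_gt_of_ne hii with h1 | h1
    · have := (hZm c hc).2.2 i i' h1
      push Not at this
      exact this
    · have := (hZm c hc).2.2 i' i h1
      push Not at this
      exact ⟨fun h => this.1 h.symm, fun a b h => this.2 b a h.symm⟩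
  have hGd : ∀ c ∈ Z, ∀ i, Gd r L q c (P i) := by
    intro c hc i
    have := (hZm c hc).2.1 i
    rw [WW, mem_filter] at this
    exact this.2.1
  refine ⟨c, fun i j => yy (c j) (P i), P, Fin.elim0, ?_, ?_, ?_, ?_, ?_, ?_, ?_, ?_, ?_⟩
  · intro j j' h
    by_contra hjj
    exact hne j j' hjj ⟨0, hs⟩ ⟨0, hs⟩ (by rw [h])
  · rintro ⟨i, j⟩ ⟨i', j'⟩ h
    simp only at h
    by_cases hjj : j = j'
    · subst hjj
      by_cases hii : i = i'
      · rw [hii]
      · exact absurd h (hin _ (hcZ j) i i' hii).1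
    · exact absurd h (hne j j' hjj i i')
  · rintro ⟨i, a⟩ ⟨i', a'⟩ h
    simp only at h
    by_cases hii : i = i'
    · subst hii
      have h1 := (hGd c0 hc0 i).1
      have h2 : (Fin.cons c0 (P i) : Fin (q + 1) → A) a.succ =
          (Fin.cons c0 (P i) : Fin (q + 1) → A) a'.succ := by simpa using h
      have h3 := Fin.succ_injective _ (h1 h2)
      rw [h3]
    · exact absurd h ((hin c0 hc0 i i' hii).2 a a')
  · intro l
    exact l.elim0
  · intro j i a h
    have h1 := (hGd (c j) (hcZ j) i).1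
    have h2 : (Fin.cons (c j) (P i) : Fin (q + 1) → A) 0 =
        (Fin.cons (c j) (P i) : Fin (q + 1) → A) a.succ := by simpa using h
    have h3 := h1 h2
    exact absurd h3 (Fin.succ_ne_zero a).symm
  · intro i j l
    exact l.elim0
  · intro i j
    exact (hyy (c j) (hZm _ (hcZ j)).1 _ ((hZm _ (hcZ j)).2.1 i)).2.1
  · intro j l
    exact l.elim0
  · intro i j a
    have := (hyy (c j) (hZm _ (hcZ j)).1 _ ((hZm _ (hcZ j)).2.1 i)).2.2 a
    rw [blk, mem_filter, mem_filter] at this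
    exact this.1.2

/-- pigeonhole -/
lemma pigeon (r : A → B → Prop) (X : Finset A) (Y : Finset B) (bl : B → A → ℕ)
    (L q s M : ℕ) (hq : 1 ≤ q) (yy : A → (Fin q → A) → B)
    (hle : ∀ P : Fin s → Fin q → A,
      (X.filter (fun c => P ∈ GG r X Y bl L q s yy c)).card ≤ M) :
    ∑ c ∈ X, (GG r X Y bl L q s yy c).card ≤ X.card ^ (s * q) * M := by
  set T : Finset (Fin s → Fin q → A) := Fintype.piFinset (fun _ => Fintype.piFinset (fun _ => X))
    with hT
  have hsub : ∀ c ∈ X, GG r X Y bl L q s yy c ⊆ T := by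
    intro c _ P hP
    rw [GG, mem_filter] at hP
    rw [hT, Fintype.mem_piFinset]
    intro i
    rw [Fintype.mem_piFinset]
    intro a
    have := hP.2.1 i
    rw [WW, mem_filter] at this
    obtain ⟨-, -, y, -, -, h⟩ := this
    have h2 := h a
    rw [blk, mem_filter, mem_filter] at h2
    exact h2.1.1
  have h1 : ∀ c ∈ X, (GG r X Y bl L q s yy c).card =
      ∑ P ∈ T, if P ∈ GG r X Y bl L q s yy c then 1 else 0 := by
    intro c hc
    rw [← card_filter]
    congr 1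
    ext P
    rw [mem_filter]
    exact ⟨fun h => ⟨hsub c hc h, h⟩, fun h => h.2⟩
  rw [sum_congr rfl h1, sum_comm]
  refine (sum_le_card_nsmul _ _ M (fun P _ => ?_)).trans ?_
  · rw [← card_filter]
    exact hle P
  · rw [smul_eq_mul, hT, Fintype.card_piFinset_const, Fintype.card_piFinset_const, ← pow_mul,
      mul_comm q s]

end main2

/-- the block lemma -/
theorem blk_lemma : Pool.Agent.W715.BC.S_EMB → Pool.Agent.W979.TE.S_BLK := by
  intro hemb s q t K κ hs hq hκ
  obtain ⟨N0, hN0⟩ := hemb s q 0 t (1 / 4) (by norm_num)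
  obtain ⟨L, hL⟩ : ∃ L : ℕ, L = s * t + 1 := ⟨_, rfl⟩
  have hL1 : 1 ≤ L := by omega
  have hLR : (0 : ℝ) < (L : ℝ) := by
    have : 0 < L := hL1
    exact_mod_cast this
  obtain ⟨η, hη⟩ : ∃ η : ℝ, η = κ / (2 * (L : ℝ)) := ⟨_, rfl⟩
  have hηpos : 0 < η := by rw [hη]; positivity
  have t1 : (0 : ℝ) ≤ (N0 : ℝ) := Nat.cast_nonneg _
  have t2 : (0 : ℝ) ≤ 4 * ((q : ℝ) + 1) ^ 2 := by positivity
  have t3 : (0 : ℝ) ≤ 4 * (s : ℝ) * 2 ^ q / η := by positivity
  have t4 : (0 : ℝ) ≤ 4 * (s : ℝ) * (q : ℝ) ^ 2 * (K : ℝ) * 2 ^ (q - 1) / η := by positivity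
  have t5 : (0 : ℝ) ≤ (2 * (t : ℝ) * (s : ℝ) ^ 2 + 1) / (η / 2) ^ s := by positivity
  refine ⟨(N0 : ℝ) + 4 * ((q : ℝ) + 1) ^ 2 + 1 + 4 * (s : ℝ) * 2 ^ q / η +
    4 * (s : ℝ) * (q : ℝ) ^ 2 * (K : ℝ) * 2 ^ (q - 1) / η +
    (2 * (t : ℝ) * (s : ℝ) ^ 2 + 1) / (η / 2) ^ s, ?_⟩
  intro A B _ _ r X Y D μ hK hμ hE hXne hCμ hCD hC
  by_contra hno
  have hμ1 : (1 : ℝ) ≤ (μ : ℝ) := by linarith
  have hμ1' : 1 ≤ μ := by exact_mod_cast hμ1
  have hμN : N0 ≤ μ := by
    have : (N0 : ℝ) ≤ (μ : ℝ) := by linarith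
    exact_mod_cast this
  have hμq : 4 * (q + 1) ^ 2 ≤ μ := by
    have : 4 * ((q : ℝ) + 1) ^ 2 ≤ (μ : ℝ) := by linarith
    exact_mod_cast this
  have hlight : ∀ Z : Finset A, N0 ≤ Z.card → (((univ : Finset (Fin (q + 1) → A)).filter
      (fun Q => (∀ i, Q i ∈ Z) ∧ L ≤ codeg r Q)).card : ℝ) <
      (1 / 4) * (Z.card : ℝ) ^ (q + 1) := by
    intro Z hZ
    by_contra hcon
    rw [not_lt] at hcon
    refine hno (hN0 A B r Z Fin.elim0 (fun l => l.elim0) (fun y _ l => l.elim0) hZ ?_)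
    refine hcon.trans ?_
    refine Nat.cast_le.2 (card_le_card ?_)
    intro Q hQ
    rw [mem_filter] at hQ ⊢
    exact ⟨hQ.1, hQ.2.1, by omega⟩
  have hblex : ∀ y : B, ∃ f : A → ℕ, y ∈ Y → ∀ c ∈ X.filter (fun c => r c y),
      μ ≤ ((X.filter (fun c => r c y)).filter (fun c' => f c' = f c)).card ∧
      ((X.filter (fun c => r c y)).filter (fun c' => f c' = f c)).card ≤ 2 * μ := by
    intro y
    by_cases hy : y ∈ Y
    · obtain ⟨f, hf⟩ := blocks μ hμ1' _ (X.filter (fun c => r c y)) rfl (hμ y hy)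
      exact ⟨f, fun _ => hf⟩
    · exact ⟨fun _ => 0, fun h => absurd h hy⟩
  choose bl hbl using hblex
  have hbl1 : ∀ y ∈ Y, ∀ c ∈ X.filter (fun c => r c y),
      μ ≤ ((X.filter (fun c => r c y)).filter (fun c' => bl y c' = bl y c)).card :=
    fun y hy c hc => (hbl y hy c hc).1
  have hbl2 : ∀ y ∈ Y, ∀ c ∈ X.filter (fun c => r c y),
      ((X.filter (fun c => r c y)).filter (fun c' => bl y c' = bl y c)).card ≤ 2 * μ :=
    fun y hy c hc => (hbl y hy c hc).2
  have hyyex : ∀ (c : A) (P : Fin q → A), ∃ y : Option B, P ∈ WW r X Y bl L q c →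
      ∃ z, y = some z ∧ z ∈ Y ∧ r c z ∧ ∀ a, P a ∈ blk r X bl z c := by
    intro c P
    by_cases h : P ∈ WW r X Y bl L q c
    · have h2 := h
      rw [WW, mem_filter] at h2
      obtain ⟨-, -, y, hy1, hy2, hy3⟩ := h2
      exact ⟨some y, fun _ => ⟨y, rfl, hy1, hy2, hy3⟩⟩
    · exact ⟨none, fun h' => absurd h' h⟩
  -- Y is nonempty
  have hXpos : (0 : ℝ) < (X.card : ℝ) := by
    have := card_pos.2 hXne
    exact_mod_cast this
  have hDpos : (0 : ℝ) < (D : ℝ) := by linarith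
  have hYne : Y.Nonempty := by
    by_contra hY
    rw [not_nonempty_iff_eq_empty] at hY
    rw [hY, sum_empty, Nat.cast_zero] at hE
    have : 0 < κ * (D : ℝ) * (X.card : ℝ) := by positivity
    linarith
  obtain ⟨y0, _⟩ := hYne
  choose yo hyo using hyyex
  obtain ⟨yy, hyydef⟩ : ∃ yy : A → (Fin q → A) → B, ∀ c P, yy c P = (yo c P).getD y0 :=
    ⟨fun c P => (yo c P).getD y0, fun _ _ => rfl⟩
  have hyy : ∀ c ∈ X, ∀ P ∈ WW r X Y bl L q c, yy c P ∈ Y ∧ r c (yy c P) ∧
      ∀ a, P a ∈ blk r X bl (yy c P) c := by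
    intro c _ P hP
    obtain ⟨z, hz, h1, h2, h3⟩ := hyo c P hP
    have : yy c P = z := by rw [hyydef, hz]; rfl
    rw [this]
    exact ⟨h1, h2, h3⟩
  have htot := total r X Y bl L q D N0 μ κ hL1 hlight hμN hμq hbl1 hE
  rw [← hη] at htot
  -- few conflicts
  have hconf : ∀ c ∈ X, ∀ u ∈ WW r X Y bl L q c,
      ((WW r X Y bl L q c).filter (fun v => yy c u = yy c v ∨ ∃ a b, u a = v b)).card ≤
      (2 * μ) ^ q + q ^ 2 * (K * D * (2 * μ) ^ (q - 1)) :=
    fun c hc u hu => conflict r X Y bl L q K D μ c hc (hK c hc) hbl2 (yy c) (hyy c hc) u hu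
  have hGcard : ∀ c ∈ X, ((WW r X Y bl L q c).card -
      s * ((2 * μ) ^ q + q ^ 2 * (K * D * (2 * μ) ^ (q - 1)))) ^ s ≤
      (GG r X Y bl L q s yy c).card := by
    intro c hc
    have h := greedy (WW r X Y bl L q c) (fun u v => yy c u = yy c v ∨ ∃ a b, u a = v b)
      ((2 * μ) ^ q + q ^ 2 * (K * D * (2 * μ) ^ (q - 1)))
      (fun u hu => by
        refine le_trans (le_of_eq ?_) (hconf c hc u hu)
        congr) s
    refine h.trans (le_of_eq ?_)
    unfold GG
    congr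
  have hΔ : ((s * ((2 * μ) ^ q + q ^ 2 * (K * D * (2 * μ) ^ (q - 1))) : ℕ) : ℝ) ≤
      η / 2 * (D : ℝ) * (μ : ℝ) ^ q := by
    push_cast
    have e1 : (s : ℝ) * (2 * (μ : ℝ)) ^ q ≤ η / 4 * (D : ℝ) * (μ : ℝ) ^ q := by
      have h1 : 4 * (s : ℝ) * 2 ^ q / η ≤ (D : ℝ) := by linarith
      rw [div_le_iff₀ hηpos] at h1
      rw [mul_pow]
      have h2 : (s : ℝ) * 2 ^ q ≤ η / 4 * (D : ℝ) := by linarith
      calc (s : ℝ) * (2 ^ q * (μ : ℝ) ^ q) = ((s : ℝ) * 2 ^ q) * (μ : ℝ) ^ q := by ring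
        _ ≤ (η / 4 * (D : ℝ)) * (μ : ℝ) ^ q := mul_le_mul_of_nonneg_right h2 (by positivity)
        _ = _ := by ring
    have e2 : (s : ℝ) * ((q : ℝ) ^ 2 * ((K : ℝ) * (D : ℝ) * (2 * (μ : ℝ)) ^ (q - 1))) ≤
        η / 4 * (D : ℝ) * (μ : ℝ) ^ q := by
      have h1 : 4 * (s : ℝ) * (q : ℝ) ^ 2 * (K : ℝ) * 2 ^ (q - 1) / η ≤ (μ : ℝ) := by linarith
      rw [div_le_iff₀ hηpos] at h1
      rw [mul_pow]
      have h2 : (s : ℝ) * (q : ℝ) ^ 2 * (K : ℝ) * 2 ^ (q - 1) ≤ η / 4 * (μ : ℝ) := by linarith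
      have h3 : (μ : ℝ) ^ q = (μ : ℝ) * (μ : ℝ) ^ (q - 1) := by
        rw [← pow_succ']
        congr 1
        omega
      rw [h3]
      calc (s : ℝ) * ((q : ℝ) ^ 2 * ((K : ℝ) * (D : ℝ) * (2 ^ (q - 1) * (μ : ℝ) ^ (q - 1)))) =
          ((s : ℝ) * (q : ℝ) ^ 2 * (K : ℝ) * 2 ^ (q - 1)) * ((D : ℝ) * (μ : ℝ) ^ (q - 1)) := by
            ring
        _ ≤ (η / 4 * (μ : ℝ)) * ((D : ℝ) * (μ : ℝ) ^ (q - 1)) :=
            mul_le_mul_of_nonneg_right h2 (by positivity)
        _ = _ := by ring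
    linarith
  have hmany := many X (fun c => (WW r X Y bl L q c).card)
    (fun c => (GG r X Y bl L q s yy c).card) s _ hs (η / 2 * (D : ℝ) * (μ : ℝ) ^ q)
    (by positivity) hXne hGcard (by
      refine le_trans (le_of_eq ?_) htot
      ring) hΔ
  have hle : ∀ P : Fin s → Fin q → A,
      (X.filter (fun c => P ∈ GG r X Y bl L q s yy c)).card ≤ t * (s * s * (2 * μ)) := by
    intro P
    by_contra hcon
    rw [not_le] at hcon
    exact hno (finish r X Y bl L q s t μ hs hq hbl2 yy hyy P hcon)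
  have hpig := pigeon r X Y bl L q s (t * (s * s * (2 * μ))) hq yy hle
  have hpig' : ∑ c ∈ X, ((GG r X Y bl L q s yy c).card : ℝ) ≤
      (X.card : ℝ) ^ (s * q) * ((t : ℝ) * ((s : ℝ) * (s : ℝ) * (2 * (μ : ℝ)))) := by
    exact_mod_cast hpig
  have h1 := hmany.trans hpig'
  have hsq : 1 ≤ s * q := Nat.mul_pos hs hq
  have h2 : (X.card : ℝ) * (η / 2 * (D : ℝ) * (μ : ℝ) ^ q) ^ s =
      (η / 2) ^ s * ((D : ℝ) ^ s * (μ : ℝ) ^ (s * q - 1)) * ((X.card : ℝ) * (μ : ℝ)) := by
    have h3 : ((μ : ℝ) ^ q) ^ s = (μ : ℝ) ^ (s * q - 1) * (μ : ℝ) := by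
      rw [← pow_mul, ← pow_succ, mul_comm q s]
      congr 1
      omega
    rw [mul_pow, mul_pow, h3]
    ring
  have h4 : (X.card : ℝ) ^ (s * q) = (X.card : ℝ) ^ (s * q - 1) * (X.card : ℝ) := by
    rw [← pow_succ]
    congr 1
    omega
  rw [h2, h4] at h1
  have h5 : (2 * (t : ℝ) * (s : ℝ) ^ 2 + 1) / (η / 2) ^ s * (X.card : ℝ) ^ (s * q - 1) ≤
      (D : ℝ) ^ s * (μ : ℝ) ^ (s * q - 1) := by
    refine le_trans (mul_le_mul_of_nonneg_right ?_ (by positivity)) hC
    linarith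
  have h6 : (2 * (t : ℝ) * (s : ℝ) ^ 2 + 1) * (X.card : ℝ) ^ (s * q - 1) ≤
      (η / 2) ^ s * ((D : ℝ) ^ s * (μ : ℝ) ^ (s * q - 1)) := by
    have h7 := mul_le_mul_of_nonneg_left h5 (show (0 : ℝ) ≤ (η / 2) ^ s by positivity)
    refine le_trans (le_of_eq ?_) h7
    field_simp
  have h8 := mul_le_mul_of_nonneg_right h6
    (show (0 : ℝ) ≤ (X.card : ℝ) * (μ : ℝ) by positivity)
  have h9 := h8.trans h1
  have h10 : (0 : ℝ) < (X.card : ℝ) ^ (s * q - 1) * (X.card : ℝ) * (μ : ℝ) := by positivity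
  nlinarith

end Pool.Agent.W38.TE
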