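import Pool.Agent.W38.AFd
import Pool.Agent.H668.SM.C

/-! Affine neighbours: invariant sets. -/

set_option autoImplicit false

namespace Pool.Agent.W38.AF

open Finset Filter Topology Pool.Agent.H499R2.CO Pool.Agent.W38.CR

open Pool.Agent.H499R2.ND (cnt Ci)

/-- `m` is a neighbour of `x` -/
def NB (n : ℕ) (x m : ℤ) : Prop := ∃ a a' b b' : ℕ, (a : ℝ) ≤ kap n ∧ (a' : ℝ) ≤ kap n ∧
  (b : ℝ) ≤ kap n ∧ (b' : ℝ) ≤ kap n ∧
  |((2 ^ a * 3 ^ b * m - 2 ^ a' * 3 ^ b' * x : ℤ) : ℝ)| ≤ Real.exp (kap n)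

theorem kap_nonneg (n : ℕ) : 0 ≤ kap n := by
  unfold kap
  apply div_nonneg (Real.sqrt_nonneg _)
  have : (Real.log (Real.log n)) ^ 16 = ((Real.log (Real.log n)) ^ 8) ^ 2 := by ring
  rw [this]
  exact sq_nonneg _

theorem NB_self (n : ℕ) (x : ℤ) : NB n x x := by
  have h := kap_nonneg n
  refine ⟨0, 0, 0, 0, by simpa using h, by simpa using h, by simpa using h, by simpa using h, ?_⟩
  simp [(Real.exp_pos _).le]

theorem HD_diff {P Q : ℕ → Prop} {p l : ℝ} (hP : HD P p) (hPQ : HD (fun n => P n ∧ Q n) l) :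
    HD (fun n => P n ∧ ¬ Q n) (p - l) := by
  unfold HD at *
  refine (hP.sub hPQ).congr fun N => ?_
  rw [← sub_div]
  congr 1
  have hfin : ∀ R : ℕ → Prop, {n : ℕ | 1 ≤ n ∧ n ≤ N ∧ R n}.Finite := fun R =>
    (Set.finite_Icc 1 N).subset (fun n hn => ⟨hn.1, hn.2.1⟩)
  have h1 : {n : ℕ | 1 ≤ n ∧ n ≤ N ∧ P n} = {n : ℕ | 1 ≤ n ∧ n ≤ N ∧ (P n ∧ Q n)} ∪
      {n : ℕ | 1 ≤ n ∧ n ≤ N ∧ (P n ∧ ¬ Q n)} := by
    ext n
    simp only [Set.mem_ofPred_eq, Set.mem_union]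
    tauto
  have h2 : Disjoint {n : ℕ | 1 ≤ n ∧ n ≤ N ∧ (P n ∧ Q n)}
      {n : ℕ | 1 ≤ n ∧ n ≤ N ∧ (P n ∧ ¬ Q n)} := by
    rw [Set.disjoint_left]
    intro n hn hn'
    exact hn'.2.2.2 hn.2.2.2
  rw [h1, Set.ncard_union_eq h2 (hfin _) (hfin _)]
  push_cast
  ring

theorem HD_congr' {P Q : ℕ → Prop} {l : ℝ} (hP : HD P l) (h : ∀ n, 1 ≤ n → (P n ↔ Q n)) :
    HD Q l := by
  unfold HD at *
  refine hP.congr fun N => ?_
  congr 3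
  ext n
  simp only [Set.mem_ofPred_eq]
  constructor
  · rintro ⟨h1, h2, h3⟩; exact ⟨h1, h2, (h n h1).1 h3⟩
  · rintro ⟨h1, h2, h3⟩; exact ⟨h1, h2, (h n h1).2 h3⟩

/-- invariant sets and affine neighbours -/
theorem inv_nbr {s : ℤ} (hs : s = 1 ∨ s = -1) {S : Set ℤ} (h : ∀ x : ℤ, x ∈ S ↔ Ci x ∈ S) :
    ∃ δ : ℝ, (0 < δ ↔ ∃ x ∈ S, 0 < s * x) ∧ (δ = 1 ↔ ∀ x, 0 < s * x → x ∈ S) ∧
      ∀ q b : ℕ, 0 < q →
        HD (fun n => n % q = b % q ∧ ∀ m, NB n (s * n) m → m ∈ S) (δ / q) ∧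
        HD (fun n => n % q = b % q ∧ ∀ m, NB n (s * n) m → m ∉ S) ((1 - δ) / q) := by
  obtain ⟨δ, h1, h2, h3⟩ := Pool.Agent.H426R3.CLoc.inv_dens hs h
  refine ⟨δ, h1, h2, fun q b hq => ?_⟩
  have h4 : HD (fun n : ℕ => n % q = b % q ∧ s * (n : ℤ) ∈ S) (δ / q) := h3 q b hq
  have h5 : HD (fun n : ℕ => n % q = b % q) (1 / q) := by
    obtain ⟨δ', _, h2', h3'⟩ := Pool.Agent.H426R3.CLoc.inv_dens hs (S := Set.univ) (fun x => by simp)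
    have hδ' : δ' = 1 := h2'.2 (fun x _ => Set.mem_univ x)
    have h6 : HD (fun n : ℕ => n % q = b % q ∧ s * (n : ℤ) ∈ (Set.univ : Set ℤ)) (δ' / q) := h3' q b hq
    rw [hδ'] at h6
    exact HD_congr' h6 (fun n _ => by simp)
  have h6 : HD (fun n : ℕ => n % q = b % q ∧ s * (n : ℤ) ∉ S) ((1 - δ) / q) := by
    have := HD_diff h5 h4
    rwa [← sub_div] at this
  have hE := fwdN hs
  have key : ∀ n : ℕ, Nbr s n → ∀ m, NB n (s * n) m → (m ∈ S ↔ s * (n : ℤ) ∈ S) := by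
    rintro n ⟨t, _, ht⟩ m ⟨a, a', b', b'', ha, ha', hb, hb', hm⟩
    rw [Pool.Agent.H668.SM.inv_iter h (t + a') m, ht a a' b' b'' ha ha' hb hb' m hm,
      ← Pool.Agent.H668.SM.inv_iter h (t + a)]
  constructor
  · refine HD_congr hE h4 (fun n _ hn => ?_)
    constructor
    · rintro ⟨h7, h8⟩
      exact ⟨h7, fun m hm => (key n hn m hm).2 h8⟩
    · rintro ⟨h7, h8⟩
      exact ⟨h7, h8 _ (NB_self n _)⟩
  · refine HD_congr hE h6 (fun n _ hn => ?_)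
    constructor
    · rintro ⟨h7, h8⟩
      exact ⟨h7, fun m hm hc => h8 ((key n hn m hm).1 hc)⟩
    · rintro ⟨h7, h8⟩
      exact ⟨h7, h8 _ (NB_self n _)⟩

end Pool.Agent.W38.AF
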