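import Pool.Agent.W38.AFc

/-! Affine neighbours: farther neighbours have not merged. -/

set_option autoImplicit false

namespace Pool.Agent.W38.AF

open Finset Filter Topology Pool.Agent.H499R2.CO Pool.Agent.W38.CR

theorem Tz_iter_nonpos (k : ℕ) : ∀ x : ℤ, x ≤ 0 → (Tz 1)^[k] x ≤ 0 := by
  induction k with
  | zero => intro x hx; exact hx
  | succ k ih =>
    intro x hx
    rw [Function.iterate_succ_apply]
    apply ih
    unfold Tz
    split_ifs <;> omega

theorem bounds {l : List Bool} {A : ℕ × ℤ} (h0 : 0 ≤ ev A (bv l))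
    (h1 : ev A (-2 ^ l.length + bv l) ≤ 0) :
    0 ≤ (fl l A).2 ∧ (fl l A).2 ≤ 3 ^ (fl l A).1 := by
  constructor
  · have h2 := Tz_ev_iter l A 0
    have h3 : ev (fl l A) 0 = (fl l A).2 := by unfold ev; ring
    rw [h3] at h2
    rw [← h2]
    apply Tz_iter_nonneg
    rw [mul_zero, zero_add]; exact h0
  · have h2 := Tz_ev_iter l A (-1)
    have h3 : ev (fl l A) (-1) = (fl l A).2 - 3 ^ (fl l A).1 := by unfold ev; ring
    rw [h3] at h2
    have h4 : (Tz 1)^[l.length] (ev A (2 ^ l.length * -1 + bv l)) ≤ 0 := by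
      apply Tz_iter_nonpos
      rw [mul_neg_one]; exact h1
    linarith

theorem level_eq1 {j1 j2 : ℕ} {c1 c2 : ℤ} (h1 : 0 ≤ c1) (h1' : c1 ≤ 3 ^ j1) (h2 : 0 ≤ c2)
    (h2' : c2 ≤ 3 ^ j2) (h : (3 : ℤ) ^ j1 * 1 + c1 = 3 ^ j2 * 1 + c2) : j1 = j2 := by
  have p1 : (0 : ℤ) < 3 ^ j1 := by positivity
  have p2 : (0 : ℤ) < 3 ^ j2 := by positivity
  rcases lt_trichotomy j1 j2 with hlt | heq | hgt
  · exfalso
    have h3 : (3 : ℤ) ^ (j1 + 1) ≤ 3 ^ j2 := pow_le_pow_right₀ (by norm_num) hlt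
    rw [pow_succ] at h3
    linarith
  · exact heq
  · exfalso
    have h3 : (3 : ℤ) ^ (j2 + 1) ≤ 3 ^ j1 := pow_le_pow_right₀ (by norm_num) hgt
    rw [pow_succ] at h3
    linarith

theorem level_eq2 {j1 j2 : ℕ} {c1 c2 : ℤ} (h1 : 0 ≤ c1) (h1' : c1 ≤ 3 ^ j1) (h2 : 0 ≤ c2)
    (h2' : c2 ≤ 3 ^ j2) (h : (3 : ℤ) ^ j1 * (-2) + c1 = 3 ^ j2 * (-2) + c2) : j1 = j2 := by
  have p1 : (0 : ℤ) < 3 ^ j1 := by positivity
  have p2 : (0 : ℤ) < 3 ^ j2 := by positivity
  rcases lt_trichotomy j1 j2 with hlt | heq | hgt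
  · exfalso
    have h3 : (3 : ℤ) ^ (j1 + 1) ≤ 3 ^ j2 := pow_le_pow_right₀ (by norm_num) hlt
    rw [pow_succ] at h3
    linarith
  · exact heq
  · exfalso
    have h3 : (3 : ℤ) ^ (j2 + 1) ≤ 3 ^ j1 := pow_le_pow_right₀ (by norm_num) hgt
    rw [pow_succ] at h3
    linarith

/-- the list of `s n` -/
noncomputable def ls (s : ℤ) (k n : ℕ) : List Bool :=
  if s = 1 then bits k n else (bits k (n - 1)).map not

theorem length_ls (s : ℤ) (k n : ℕ) : (ls s k n).length = k := by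
  unfold ls
  split_ifs
  · exact length_bits _ _
  · rw [List.length_map, length_bits]

/-- different levels: not merged -/
theorem nm {s : ℤ} (hs : s = 1 ∨ s = -1) {k n : ℕ} (h1 : 2 ^ k < n) (h2 : n < 2 ^ (k + 1))
    {A : ℕ × ℤ} (hA0 : 0 ≤ ev A (bv (ls s k n))) (hA1 : ev A (-2 ^ k + bv (ls s k n)) ≤ 0)
    (hne : (fl (ls s k n) (0, 0)).1 ≠ (fl (ls s k n) A).1) :
    (Tz 1)^[k] (ev A (s * n)) ≠ (Tz 1)^[k] (s * n) := by
  have hbv0 := bv_nonneg (ls s k n)
  have hbv1 := bv_lt (ls s k n)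
  have hlen := length_ls s k n
  rw [hlen] at hbv1
  have b1 := bounds (l := ls s k n) (A := A) hA0 (by rw [hlen]; exact hA1)
  have b0 := bounds (l := ls s k n) (A := (0, 0)) (by rw [ev_zero]; exact hbv0)
    (by rw [ev_zero, hlen]; linarith)
  intro hcon
  apply hne
  rcases hs with rfl | rfl
  · have e : ls 1 k n = bits k n := by unfold ls; rw [if_pos rfl]
    rw [e] at b1 b0 ⊢
    have hdiv : n / 2 ^ k = 1 := by
      apply Nat.div_eq_of_lt_le
      · omega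
      · rw [pow_succ] at h2; omega
    have e1 := iter_pos k n A
    have e0 := iter_pos k n (0, 0)
    rw [ev_zero] at e0
    rw [one_mul, e1, e0, hdiv] at hcon
    unfold ev at hcon
    exact level_eq1 b0.1 b0.2 b1.1 b1.2 (by push_cast at hcon; exact hcon.symm)
  · have e : ls (-1) k n = (bits k (n - 1)).map not := by unfold ls; rw [if_neg (by norm_num)]
    rw [e] at b1 b0 ⊢
    have hdiv : (n - 1) / 2 ^ k = 1 := by
      apply Nat.div_eq_of_lt_le
      · omega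
      · rw [pow_succ] at h2; omega
    have ex : (-1 : ℤ) * (n : ℤ) = -1 - ((n - 1 : ℕ) : ℤ) := by
      rw [Nat.cast_sub (by omega)]; push_cast; ring
    have e1 := iter_neg k (n - 1) A
    have e0 := iter_neg k (n - 1) (0, 0)
    rw [ev_zero] at e0
    rw [ex, e1, e0, hdiv] at hcon
    unfold ev at hcon
    have e2 : (-1 : ℤ) - ((1 : ℕ) : ℤ) = -2 := by norm_num
    rw [e2] at hcon
    exact level_eq2 b0.1 b0.2 b1.1 b1.2 hcon.symm

open Classical in
/-- one dyadic block -/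
theorem block_countN {s : ℤ} (hs : s = 1 ∨ s = -1) {F : List Bool → ℝ} (hF : ∀ l, 0 ≤ F l)
    (hF1 : ∀ l, F l ≠ 0 → 1 ≤ F l) (k : ℕ) :
    (#((Ioo (2 ^ k) (2 ^ (k + 1))).filter (fun n => F (ls s k n) ≠ 0)) : ℝ) ≤ 2 ^ k * av k F := by
  have h0 : (#((Ioo (2 ^ k) (2 ^ (k + 1))).filter (fun n => F (ls s k n) ≠ 0)) : ℝ) ≤
      ∑ n ∈ Ioo (2 ^ k) (2 ^ (k + 1)), F (ls s k n) := by
    rw [card_filter]
    push_cast
    apply sum_le_sum
    intro n _
    by_cases h : F (ls s k n) = 0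
    · rw [if_neg (not_not.2 h), h]
    · rw [if_pos h]; exact hF1 _ h
  have key : ∀ G : List Bool → ℝ, (∀ l, 0 ≤ G l) →
      ∑ z ∈ Ico (2 ^ k) (2 ^ (k + 1)), G (bits k z) = 2 ^ k * av k G := by
    intro G _
    rw [sum_Ico_eq_sum_range]
    have e1 : 2 ^ (k + 1) - 2 ^ k = 2 ^ k := by
      rw [pow_succ]; omega
    rw [e1, ← sum_bits]
    apply sum_congr rfl
    intro x _
    have := bits_add k 1 x
    rw [mul_one] at this
    rw [this]
  refine h0.trans ?_
  rcases hs with rfl | rfl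
  · have e : ∀ n, ls 1 k n = bits k n := fun n => by unfold ls; rw [if_pos rfl]
    simp only [e]
    rw [← key F hF]
    apply sum_le_sum_of_subset_of_nonneg
    · intro n hn
      rw [mem_Ioo] at hn
      rw [mem_Ico]
      exact ⟨hn.1.le, hn.2⟩
    · intro _ _ _; exact hF _
  · have e : ∀ n, ls (-1) k n = (bits k (n - 1)).map not := fun n => by
      unfold ls; rw [if_neg (by norm_num)]
    simp only [e]
    have h2 := key (fun l => F (l.map not)) (fun l => hF _)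
    rw [av_map_not k F] at h2
    rw [← h2]
    have h3 : ∑ n ∈ Ioo (2 ^ k) (2 ^ (k + 1)), F ((bits k (n - 1)).map not) ≤
        ∑ n ∈ Ico (2 ^ k + 1) (2 ^ (k + 1) + 1), F ((bits k (n - 1)).map not) := by
      apply sum_le_sum_of_subset_of_nonneg
      · intro n hn
        rw [mem_Ioo] at hn
        rw [mem_Ico]
        omega
      · intro _ _ _; exact hF _
    refine h3.trans (le_of_eq ?_)
    have := sum_Ico_add' (fun j => F ((bits k (j - 1)).map not)) (2 ^ k) (2 ^ (k + 1)) 1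
    simp only [Nat.add_sub_cancel] at this
    exact this.symm

/-- density one from the dyadic blocks -/
theorem HD_of_blocks {P : ℕ → Prop} (h : ∀ ε : ℝ, 0 < ε → ∃ s0 : ℕ, ∀ k ≥ s0,
    ({n : ℕ | n ∈ Ioo (2 ^ k) (2 ^ (k + 1)) ∧ ¬ P n}.ncard : ℝ) ≤ 2 ^ k * ε) : HD P 1 := by
  classical
  rw [HD_iff]
  apply density_one
  intro ε hε
  obtain ⟨s1, hs1⟩ := h (ε / 4) (by positivity)
  obtain ⟨s2, hs2⟩ := pow_unbounded_of_one_lt (4 / ε) (show (1 : ℝ) < 2 by norm_num)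
  obtain ⟨s0, hs0⟩ : ∃ s0, s0 = s1 + s2 := ⟨_, rfl⟩
  have hblock : ∀ k : ℕ, s0 ≤ k →
      (#((Ico (2 ^ k) (2 ^ (k + 1))).filter (fun n => ¬ P n)) : ℝ) ≤ 2 ^ k * (ε / 2) := by
    intro k hk
    have h1 := hs1 k (by omega)
    have e : {n : ℕ | n ∈ Ioo (2 ^ k) (2 ^ (k + 1)) ∧ ¬ P n} =
        (((Ioo (2 ^ k) (2 ^ (k + 1))).filter (fun n => ¬ P n) : Finset ℕ) : Set ℕ) := by
      ext n
      simp only [Set.mem_ofPred_eq, coe_filter]
    rw [e, Set.ncard_coe_finset] at h1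
    have h2 : (Ico (2 ^ k) (2 ^ (k + 1))).filter (fun n => ¬ P n) ⊆
        insert (2 ^ k) ((Ioo (2 ^ k) (2 ^ (k + 1))).filter (fun n => ¬ P n)) := by
      intro n hn
      rw [mem_filter, mem_Ico] at hn
      rw [mem_insert, mem_filter, mem_Ioo]
      by_cases h : n = 2 ^ k
      · left; exact h
      · right; exact ⟨⟨by omega, hn.1.2⟩, hn.2⟩
    have h3 := (card_le_card h2).trans (card_insert_le _ _)
    have h4 : (#((Ico (2 ^ k) (2 ^ (k + 1))).filter (fun n => ¬ P n)) : ℝ) ≤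
        #((Ioo (2 ^ k) (2 ^ (k + 1))).filter (fun n => ¬ P n)) + 1 := by exact_mod_cast h3
    have h5 : 4 / ε < 2 ^ k := hs2.trans_le (pow_le_pow_right₀ (by norm_num) (by omega))
    rw [div_lt_iff₀ hε] at h5
    linarith
  refine ⟨2 ^ s0, fun N => ?_⟩
  rcases Nat.eq_zero_or_pos N with hN0 | hN
  · rw [hN0]
    have e : Icc 1 0 = (∅ : Finset ℕ) := rfl
    rw [e, filter_empty, card_empty]
    have : (0 : ℝ) ≤ 2 ^ s0 := by positivity
    push_cast
    linarith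
  set L := Nat.log 2 N with hL
  have h2L : 2 ^ L ≤ N := Nat.pow_log_le_self 2 (by omega)
  set Bad : ℕ → Prop := fun n => ¬ P n with hBad
  have hsub : (Icc 1 N).filter Bad ⊆ range (2 ^ s0) ∪
      (Icc s0 L).biUnion (fun s => (Ico (2 ^ s) (2 ^ (s + 1))).filter Bad) := by
    intro n hn
    rw [mem_filter, mem_Icc] at hn
    rw [mem_union, mem_range, mem_biUnion]
    by_cases hlt : n < 2 ^ s0
    · left; exact hlt
    · right
      push Not at hlt
      refine ⟨Nat.log 2 n, ?_, ?_⟩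
      · rw [mem_Icc]
        exact ⟨(Nat.le_log_iff_pow_le (by norm_num) (by omega)).2 hlt, Nat.log_mono_right hn.1.2⟩
      · rw [mem_filter, mem_Ico]
        exact ⟨⟨Nat.pow_log_le_self 2 (by omega), Nat.lt_pow_succ_log_self (by norm_num) n⟩, hn.2⟩
  have h1 : (#((Icc 1 N).filter Bad) : ℝ) ≤ 2 ^ s0 +
      ∑ s ∈ Icc s0 L, (#((Ico (2 ^ s) (2 ^ (s + 1))).filter Bad) : ℝ) := by
    have h2 := (card_le_card hsub).trans (card_union_le _ _)
    rw [card_range] at h2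
    have h3 := h2.trans (Nat.add_le_add_left card_biUnion_le _)
    exact_mod_cast h3
  have h2 : ∑ s ∈ Icc s0 L, (#((Ico (2 ^ s) (2 ^ (s + 1))).filter Bad) : ℝ) ≤
      ∑ s ∈ range (L + 1), (2 : ℝ) ^ s * (ε / 2) := by
    refine (sum_le_sum (g := fun s => (2 : ℝ) ^ s * (ε / 2)) fun s hs => hblock s (mem_Icc.1 hs).1).trans ?_
    apply sum_le_sum_of_subset_of_nonneg
    · intro s hs
      rw [mem_Icc] at hs
      rw [mem_range]; omega
    · intro s _ _; positivity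
  rw [← sum_mul, geom_sum_eq (by norm_num)] at h2
  have h3 : (2 : ℝ) ^ L ≤ N := by exact_mod_cast h2L
  have h4 : ((2 : ℝ) ^ (L + 1) - 1) / (2 - 1) * (ε / 2) ≤ ε * N := by
    rw [pow_succ]
    nlinarith
  push_cast
  linarith

/-- the same level at the end -/
noncomputable def sm3 (b : ℕ) (l : List Bool) : ℝ := by
  classical
  exact if (fl l (0, 0)).1 = (fl l (b, 0)).1 then 1 else 0

theorem av_sm3 {b k : ℕ} (hb : 1 ≤ b) : av k (sm3 b) ≤ k / (b : ℝ) ^ 2 := by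
  have hbr : (1 : ℝ) ≤ b := by exact_mod_cast hb
  have hb0 : (0 : ℝ) < b := by linarith
  have h2 : ∀ l : List Bool, l.length = k → sm3 b l ≤
      (1 / (b : ℝ) ^ 2) * f0 b (st (fl l (0, 0)) (fl l (b, 0))) := by
    intro l _
    unfold sm3
    split_ifs with h
    · have h3 : (st (fl l (0, 0)) (fl l (b, 0))).1 = 0 := by
        rw [st_fst, h]; omega
      unfold f0
      rw [h3]
      apply le_of_eq
      push_cast
      field_simp
      ring
    · unfold f0; positivity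
  refine (av_mono h2).trans ?_
  rw [av_smul, av_pair (Ev_f0 _)]
  have h3 : f0 (b : ℝ) (st ((0 : ℕ), (0 : ℤ)) (b, 0)) = 0 := by
    unfold f0
    rw [st_fst]
    simp
  have h4 := P_iter_f0 hb0.le k (st ((0 : ℕ), (0 : ℤ)) (b, 0))
  rw [h3, zero_add] at h4
  calc (1 / (b : ℝ) ^ 2) * (P^[k] (f0 b)) (st ((0 : ℕ), (0 : ℤ)) (b, 0)) ≤ (1 / (b : ℝ) ^ 2) * k :=
        mul_le_mul_of_nonneg_left h4 (by positivity)
    _ = _ := by ring

/-- choice of the parameters in a dyadic block -/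
theorem params {ω : ℕ → ℝ} (hω : Tendsto ω atTop atTop) {ε : ℝ} (hε : 0 < ε) : ∃ s0 : ℕ, ∀ k ≥ s0,
    ∃ u : ℕ, 1 ≤ u ∧ u ≤ k ∧ 4 * (k : ℝ) / (u : ℝ) ^ 2 ≤ ε ∧ ∀ n : ℕ, 2 ^ k ≤ n →
      (u : ℝ) ≤ ω n * √ (Real.log n) := by
  obtain ⟨A, hA⟩ := exists_nat_gt (16 / ε)
  have hA0 : (0 : ℝ) < A := lt_trans (by positivity) hA
  have hA1 : 1 ≤ A := by exact_mod_cast hA0
  have hA1r : (1 : ℝ) ≤ A := by exact_mod_cast hA1
  obtain ⟨n1, hn1⟩ := eventually_atTop.1 (hω.eventually_ge_atTop (2 * A : ℝ))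
  refine ⟨(A + 2) ^ 2 + n1 + 16, fun k hk => ?_⟩
  set v := Nat.sqrt k with hv
  have hv1 : v * v ≤ k := Nat.sqrt_le k
  have hv2 : k < (v + 1) * (v + 1) := Nat.lt_succ_sqrt k
  have hvA : A + 2 ≤ v := by
    by_contra hcon
    push Not at hcon
    have h3 : (v + 1) * (v + 1) ≤ (A + 2) * (A + 2) := Nat.mul_le_mul (by omega) (by omega)
    have h4 : (A + 2) ^ 2 = (A + 2) * (A + 2) := by ring
    omega
  refine ⟨A * v, Nat.mul_pos (by omega) (by omega), le_trans (Nat.mul_le_mul_right v (by omega)) hv1,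
    ?_, fun n hn => ?_⟩
  · have hvr : (1 : ℝ) ≤ v := by exact_mod_cast (by omega : 1 ≤ v)
    have hkr : (k : ℝ) ≤ 4 * (v : ℝ) ^ 2 := by
      have h3 : (k : ℝ) ≤ (v + 1) * (v + 1) := by exact_mod_cast hv2.le
      nlinarith
    have hu0 : (0 : ℝ) < ((A * v : ℕ) : ℝ) := by push_cast; positivity
    rw [div_le_iff₀ (by positivity)]
    have hAe : 16 ≤ ε * A := by
      have := (div_lt_iff₀ hε).1 hA
      linarith
    have h4 : (v : ℝ) ^ 2 ≤ A * (v : ℝ) ^ 2 := by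
      have : (0 : ℝ) ≤ (v : ℝ) ^ 2 := by positivity
      nlinarith
    have h5 : 16 * (v : ℝ) ^ 2 ≤ (ε * A) * (A * (v : ℝ) ^ 2) := by
      have : (0 : ℝ) ≤ (v : ℝ) ^ 2 := by positivity
      apply mul_le_mul hAe h4 this (by positivity)
    push_cast
    nlinarith
  · have hnn1 : n1 ≤ n := by
      have h1 : n1 ≤ 2 ^ k := by
        have := (Nat.lt_two_pow_self (n := k)).le
        omega
      exact h1.trans hn
    have hωn := hn1 n hnn1
    have l2 := Real.log_two_gt_d9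
    have l2' := Real.log_two_lt_d9
    have hlogn : (k : ℝ) * Real.log 2 ≤ Real.log n := by
      have h1 : (2 : ℝ) ^ k ≤ n := by exact_mod_cast hn
      have h2 := Real.log_le_log (by positivity) h1
      rwa [Real.log_pow] at h2
    have hv1r : (v : ℝ) ^ 2 ≤ k := by
      have : v ^ 2 ≤ k := by rw [sq]; exact hv1
      exact_mod_cast this
    have hsq : (v : ℝ) * Real.log 2 ≤ √ (Real.log n) := by
      apply Real.le_sqrt_of_sq_le
      refine le_trans ?_ hlogn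
      rw [mul_pow]
      have h3 : (Real.log 2) ^ 2 ≤ Real.log 2 := by nlinarith
      have h4 : (0 : ℝ) ≤ (v : ℝ) ^ 2 := by positivity
      calc (v : ℝ) ^ 2 * (Real.log 2) ^ 2 ≤ (v : ℝ) ^ 2 * Real.log 2 :=
            mul_le_mul_of_nonneg_left h3 h4
        _ ≤ k * Real.log 2 := mul_le_mul_of_nonneg_right hv1r (by linarith)
    have h6 : 0 ≤ (v : ℝ) * Real.log 2 := by
      have : 0 < Real.log 2 := by linarith
      positivity
    have h7 : (2 * A : ℝ) * (v * Real.log 2) ≤ ω n * √ (Real.log n) :=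
      mul_le_mul hωn hsq h6 (by linarith)
    refine le_trans ?_ h7
    push_cast
    have h8 : (0 : ℝ) ≤ A * v := by positivity
    nlinarith

/-- the powers of `3` -/
theorem bwd3 {s : ℤ} (hs : s = 1 ∨ s = -1) {ω : ℕ → ℝ} (hω : Tendsto ω atTop atTop) :
    HD (fun n => ∃ b : ℕ, (b : ℝ) ≤ ω n * √ (Real.log n) ∧ ∀ t : ℕ, 2 ^ t ≤ n →
      (Tz 1)^[t] (3 ^ b * (s * n)) ≠ (Tz 1)^[t] (s * n)) 1 := by
  classical
  apply HD_of_blocks
  intro ε hε
  obtain ⟨s0, hs0⟩ := params hω hε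
  refine ⟨s0, fun k hk => ?_⟩
  obtain ⟨u, hu1, hu2, hu3, hu4⟩ := hs0 k hk
  have hF : ∀ l, 0 ≤ sm3 u l := fun l => by unfold sm3; split_ifs <;> norm_num
  have hF1 : ∀ l, sm3 u l ≠ 0 → 1 ≤ sm3 u l := fun l h => by
    unfold sm3 at h ⊢
    split_ifs at h ⊢ with h1
    · exact le_rfl
    · exact (h rfl).elim
  have hc := block_countN hs hF hF1 k
  have hav := av_sm3 (k := k) hu1
  have hfin : {n : ℕ | n ∈ Ioo (2 ^ k) (2 ^ (k + 1)) ∧ ¬ ∃ b : ℕ, (b : ℝ) ≤ ω n * √ (Real.log n) ∧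
      ∀ t : ℕ, 2 ^ t ≤ n → (Tz 1)^[t] (3 ^ b * (s * n)) ≠ (Tz 1)^[t] (s * n)} ⊆
      (((Ioo (2 ^ k) (2 ^ (k + 1))).filter (fun n => sm3 u (ls s k n) ≠ 0) : Finset ℕ) : Set ℕ) := by
    rintro n ⟨hn1, hn2⟩
    rw [coe_filter]
    refine ⟨hn1, fun h0 => hn2 ?_⟩
    rw [mem_Ioo] at hn1
    refine ⟨u, hu4 n hn1.1.le, fun t ht heq => ?_⟩
    have hne : (fl (ls s k n) (0, 0)).1 ≠ (fl (ls s k n) (u, 0)).1 := by
      intro h
      unfold sm3 at h0
      rw [if_pos h] at h0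
      norm_num at h0
    have hb0 := bv_nonneg (ls s k n)
    have hb1 := bv_lt (ls s k n)
    rw [length_ls] at hb1
    have h3u : (0 : ℤ) < 3 ^ u := by positivity
    have e1 : ∀ y : ℤ, ev ((u, 0) : ℕ × ℤ) y = 3 ^ u * y := fun y => by unfold ev; simp
    refine nm hs hn1.1 hn1.2 (A := (u, 0)) (by rw [e1]; positivity) ?_ hne ?_
    · rw [e1]
      apply mul_nonpos_of_nonneg_of_nonpos h3u.le
      linarith
    · rw [e1]
      have htk : t ≤ k := by
        by_contra hcon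
        push Not at hcon
        have h8 : 2 ^ (k + 1) ≤ 2 ^ t := Nat.pow_le_pow_right (by norm_num) hcon
        omega
      exact iter_persist heq htk
  have h1 := Set.ncard_le_ncard hfin (Finset.finite_toSet _)
  rw [Set.ncard_coe_finset] at h1
  have h2 : (({n : ℕ | n ∈ Ioo (2 ^ k) (2 ^ (k + 1)) ∧ ¬ ∃ b : ℕ, (b : ℝ) ≤ ω n * √ (Real.log n) ∧
      ∀ t : ℕ, 2 ^ t ≤ n → (Tz 1)^[t] (3 ^ b * (s * n)) ≠ (Tz 1)^[t] (s * n)}.ncard : ℕ) : ℝ) ≤
      #((Ioo (2 ^ k) (2 ^ (k + 1))).filter (fun n => sm3 u (ls s k n) ≠ 0)) := by exact_mod_cast h1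
  refine h2.trans (hc.trans ?_)
  apply mul_le_mul_of_nonneg_left _ (by positivity)
  refine hav.trans (le_trans ?_ hu3)
  apply div_le_div_of_nonneg_right _ (by positivity)
  have : (0 : ℝ) ≤ k := by positivity
  linarith

/-- the shifts -/
theorem bwdr {s : ℤ} (hs : s = 1 ∨ s = -1) {ω : ℕ → ℝ} (hω : Tendsto ω atTop atTop) :
    HD (fun n => ∃ h : ℕ, (h : ℝ) ≤ Real.exp (ω n * √ (Real.log n)) ∧ ∀ t : ℕ, 2 ^ t ≤ n →
      (Tz 1)^[t] (s * n + h) ≠ (Tz 1)^[t] (s * n)) 1 := by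
  classical
  apply HD_of_blocks
  intro ε hε
  obtain ⟨s0, hs0⟩ := params hω hε
  refine ⟨s0, fun k hk => ?_⟩
  obtain ⟨u, hu1, hu2, hu3, hu4⟩ := hs0 k hk
  obtain ⟨k', rfl⟩ : ∃ k', k = u + k' := ⟨k - u, by omega⟩
  have hF : ∀ l, 0 ≤ same u l := fun l => same_nonneg u l
  have hF1 : ∀ l, same u l ≠ 0 → 1 ≤ same u l := fun l h => by
    unfold same at h ⊢
    split_ifs at h ⊢ with h1
    · exact le_rfl
    · exact (h rfl).elim
  have hc := block_countN hs hF hF1 (u + k')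
  have hav := av_same (u := u) (k := k') hu1
  have hfin : {n : ℕ | n ∈ Ioo (2 ^ (u + k')) (2 ^ (u + k' + 1)) ∧ ¬ ∃ h : ℕ,
      (h : ℝ) ≤ Real.exp (ω n * √ (Real.log n)) ∧
      ∀ t : ℕ, 2 ^ t ≤ n → (Tz 1)^[t] (s * n + h) ≠ (Tz 1)^[t] (s * n)} ⊆
      (((Ioo (2 ^ (u + k')) (2 ^ (u + k' + 1))).filter (fun n => same u (ls s (u + k') n) ≠ 0) :
        Finset ℕ) : Set ℕ) := by
    rintro n ⟨hn1, hn2⟩
    rw [coe_filter]
    refine ⟨hn1, fun h0 => hn2 ?_⟩
    rw [mem_Ioo] at hn1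
    set l := ls s (u + k') n with hl
    have hlen : l.length = u + k' := length_ls _ _ _
    have hb0 := bv_nonneg (l.take u)
    have hb1 := bv_lt (l.take u)
    have hlt : (l.take u).length = u := by rw [List.length_take, hlen]; omega
    rw [hlt] at hb1
    -- the shift as a natural number
    obtain ⟨h, hh⟩ : ∃ h : ℕ, (h : ℤ) = 2 ^ u - bv (l.take u) :=
      ⟨(2 ^ u - bv (l.take u)).toNat, Int.toNat_of_nonneg (by linarith)⟩
    refine ⟨h, ?_, fun t ht heq => ?_⟩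
    · have h1 : (h : ℝ) ≤ 2 ^ u := by
        have : (h : ℤ) ≤ 2 ^ u := by linarith
        exact_mod_cast this
      refine h1.trans ?_
      have h2 := hu4 n hn1.1.le
      calc (2 : ℝ) ^ u ≤ Real.exp 1 ^ u := by
            apply pow_le_pow_left₀ (by norm_num)
            have := Real.exp_one_gt_d9
            linarith
        _ = Real.exp u := by rw [← Real.exp_nat_mul, mul_one]
        _ ≤ _ := Real.exp_le_exp.2 h2
    · have hne : (fl l (0, 0)).1 ≠ (fl l (0, (h : ℤ))).1 := by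
        intro h9
        unfold same at h0
        rw [hh] at h9
        rw [if_pos h9] at h0
        norm_num at h0
      have e1 : ∀ y : ℤ, ev ((0, (h : ℤ)) : ℕ × ℤ) y = y + h := fun y => by unfold ev; simp
      have hbl0 := bv_nonneg l
      -- the value of the list
      have happ : ∀ l1 l2 : List Bool, bv (l1 ++ l2) = bv l1 + 2 ^ l1.length * bv l2 := by
        intro l1 l2
        induction l1 with
        | nil => simp [bv]
        | cons b l1 ih =>
          simp only [List.cons_append, bv, List.length_cons, ih, pow_succ]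
          ring
      have h4 : bv l = bv (l.take u) + 2 ^ u * bv (l.drop u) := by
        have h5 := happ (l.take u) (l.drop u)
        rw [List.take_append_drop, hlt] at h5
        exact h5
      have h6 := bv_lt (l.drop u)
      have h7 : (l.drop u).length = k' := by rw [List.length_drop, hlen]; omega
      rw [h7] at h6
      have h8 : bv l + h ≤ 2 ^ (u + k') := by
        rw [h4, hh, pow_add]
        have h2u : (0 : ℤ) < 2 ^ u := by positivity
        nlinarith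
      refine nm hs hn1.1 hn1.2 (A := (0, (h : ℤ))) (by rw [e1]; positivity) ?_ hne ?_
      · rw [e1, ← hl]
        linarith
      · rw [e1]
        have htk : t ≤ u + k' := by
          by_contra hcon
          push Not at hcon
          have h8 : 2 ^ (u + k' + 1) ≤ 2 ^ t := Nat.pow_le_pow_right (by norm_num) hcon
          omega
        exact iter_persist heq htk
  have h1 := Set.ncard_le_ncard hfin (Finset.finite_toSet _)
  rw [Set.ncard_coe_finset] at h1
  have h2 : (({n : ℕ | n ∈ Ioo (2 ^ (u + k')) (2 ^ (u + k' + 1)) ∧ ¬ ∃ h : ℕ,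
      (h : ℝ) ≤ Real.exp (ω n * √ (Real.log n)) ∧
      ∀ t : ℕ, 2 ^ t ≤ n → (Tz 1)^[t] (s * n + h) ≠ (Tz 1)^[t] (s * n)}.ncard : ℕ) : ℝ) ≤
      #((Ioo (2 ^ (u + k')) (2 ^ (u + k' + 1))).filter (fun n => same u (ls s (u + k') n) ≠ 0)) := by
    exact_mod_cast h1
  refine h2.trans (hc.trans ?_)
  apply mul_le_mul_of_nonneg_left _ (by positivity)
  push_cast at hu3
  exact hav.trans hu3

end Pool.Agent.W38.AF
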