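import Pool.Agent.W38.CRc

/-! Coalescing runs: choice of the parameters. -/

set_option autoImplicit false

namespace Pool.Agent.W38.CR

open Finset Filter Pool.Agent.H499R2.CO

/-- the initial forms -/
def Q0 (u : ℕ) : Finset (ℕ × ℤ) := (range (2 ^ u)).image (fun h : ℕ => ((0 : ℕ), (h : ℤ)))

theorem card_Q0 (u : ℕ) : #(Q0 u) = 2 ^ u := by
  unfold Q0
  rw [card_image_of_injective, card_range]
  intro a b h
  simpa using h

theorem zero_mem_Q0 (u : ℕ) : ((0 : ℕ), (0 : ℤ)) ∈ Q0 u := by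
  unfold Q0
  rw [mem_image]
  exact ⟨0, by simp, by simp⟩

theorem Q0_level {u : ℕ} : ∀ A ∈ Q0 u, A.1 = 0 := by
  intro A hA
  unfold Q0 at hA
  rw [mem_image] at hA
  obtain ⟨h, _, rfl⟩ := hA
  rfl

theorem Lam_Q0 (u : ℕ) : Lam (Q0 u) ≤ 2 * 8 ^ u := by
  have h1 : ∀ A ∈ Q0 u, ∀ B ∈ Q0 u, pw (st A B) ≤ 2 ^ u := by
    intro A hA B hB
    unfold Q0 at hA hB
    rw [mem_image] at hA hB
    obtain ⟨x, hx, rfl⟩ := hA
    obtain ⟨y, hy, rfl⟩ := hB
    rw [mem_range] at hx hy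
    unfold st pw w
    simp only [le_refl, if_true, Nat.sub_self, pow_zero, one_mul]
    rw [Real.sqrt_le_left (by positivity)]
    have hx' : (x : ℝ) < 2 ^ u := by exact_mod_cast hx
    have hy' : (y : ℝ) < 2 ^ u := by exact_mod_cast hy
    have h2 : (1 : ℝ) ≤ 2 ^ u := one_le_pow₀ (by norm_num)
    have h3 : |(((y : ℤ) - (x : ℤ) : ℤ) : ℝ)| ≤ 2 ^ u := by
      rw [abs_le]
      push_cast
      have : (0 : ℝ) ≤ x := by positivity
      have : (0 : ℝ) ≤ y := by positivity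
      constructor <;> linarith
    nlinarith
  have h2 : Phi (Q0 u) ≤ 8 ^ u := by
    unfold Phi
    calc ∑ A ∈ Q0 u, ∑ B ∈ Q0 u, pw (st A B) ≤ ∑ A ∈ Q0 u, ∑ B ∈ Q0 u, (2 : ℝ) ^ u :=
          sum_le_sum fun A hA => sum_le_sum fun B hB => h1 A hA B hB
      _ = 8 ^ u := by
          rw [sum_const, sum_const, card_Q0, nsmul_eq_mul, nsmul_eq_mul]
          push_cast
          rw [← mul_pow, ← mul_pow]
          norm_num
  have h3 : ((#(Q0 u) : ℕ) : ℝ) ^ 2 = 4 ^ u := by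
    rw [card_Q0]
    push_cast
    rw [← pow_mul, mul_comm, pow_mul]
    norm_num
  have h4 : (4 : ℝ) ^ u ≤ 8 ^ u := pow_le_pow_left₀ (by norm_num) (by norm_num) u
  have h5 : (0 : ℝ) ≤ 8 ^ u := by positivity
  unfold Lam
  rw [h3]
  linarith

theorem pow_084 (u : ℕ) : (0.84 : ℝ) ^ (12 * u) * (2 * 8 ^ u) ≤ 2 := by
  have h1 : (0.84 : ℝ) ^ (12 * u) ≤ (1 / 8) ^ u := by
    rw [pow_mul]
    exact pow_le_pow_left₀ (by norm_num) (by norm_num) u
  have h2 : ((1 / 8 : ℝ)) ^ u * 8 ^ u = 1 := by rw [← mul_pow]; norm_num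
  have h3 : (0 : ℝ) < 8 ^ u := by positivity
  nlinarith

theorem pw_bound {i M : ℕ} {r : ℤ} (h : pw (i, r) ≤ 2 ^ M) : |(r : ℝ)| ≤ 4 ^ (M + i) := by
  unfold pw w at h
  simp only at h
  have h1 : √ |(r : ℝ)| ≤ 2 ^ (M + i) := by
    have h2 : (1 / 2 : ℝ) ^ i * √ |(r : ℝ)| ≤ 2 ^ M := by
      refine le_trans (mul_le_mul_of_nonneg_right ?_ (Real.sqrt_nonneg _)) h
      exact pow_le_pow_left₀ (by norm_num) (by norm_num) i
    have h3 : (1 / 2 : ℝ) ^ i * 2 ^ i = 1 := by rw [← mul_pow]; norm_num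
    have h4 : (0 : ℝ) < 2 ^ i := by positivity
    rw [pow_add]
    calc √ |(r : ℝ)| = ((1 / 2 : ℝ) ^ i * √ |(r : ℝ)|) * 2 ^ i := by
          rw [mul_right_comm, h3, one_mul]
      _ ≤ _ := mul_le_mul_of_nonneg_right h2 h4.le
  rw [Real.sqrt_le_left (by positivity)] at h1
  refine h1.trans (le_of_eq ?_)
  rw [← pow_mul, mul_comm, pow_mul]
  norm_num

/-- the rate, for forms with close levels -/
theorem q_close {C : ℝ} (hC : 0 < C) (hrate : ∀ (k : ℕ), 1 ≤ k → ∀ (i u : ℕ) (r : ℤ), |(r : ℝ)| ≤ 4 ^ u →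
    q step (0, 0) k (i, r) ≤ C * √ (1 + (i : ℝ) ^ 2 + u) * rho k) {a M k : ℕ} (ha : 1 ≤ a)
    (hM : M ≤ a) (hk : 1 ≤ k) (s : ℕ × ℤ) (hs : s.1 ≤ a) (hpw : pw s ≤ 2 ^ M) :
    q step (0, 0) k s ≤ 2 * C * a * rho k := by
  obtain ⟨i, r⟩ := s
  refine (hrate k hk i (M + i) r (pw_bound hpw)).trans ?_
  have hrho : 0 ≤ rho k := Real.sqrt_nonneg _
  apply mul_le_mul_of_nonneg_right _ hrho
  have h1 : √ (1 + (i : ℝ) ^ 2 + ((M + i : ℕ) : ℝ)) ≤ 2 * a := by
    rw [Real.sqrt_le_left (by positivity)]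
    have hi : (i : ℝ) ≤ a := by exact_mod_cast hs
    have hMr : (M : ℝ) ≤ a := by exact_mod_cast hM
    have har : (1 : ℝ) ≤ a := by exact_mod_cast ha
    have hi0 : (0 : ℝ) ≤ i := by positivity
    push_cast
    nlinarith
  nlinarith

theorem rho_pow {C : ℝ} (hC : 0 < C) {M b t k : ℕ} (hM : 1 ≤ M) (hb : 1 ≤ b)
    (hk : k = b ^ 2 * M ^ (2 * t + 1)) (hlog : 4 * C ^ 2 * Real.log ((k : ℝ) + 1) ≤ M) :
    2 * C * (b : ℝ) * rho k ≤ 1 / (M : ℝ) ^ t := by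
  have hMr : (1 : ℝ) ≤ M := by exact_mod_cast hM
  have hM0 : (0 : ℝ) < M := by linarith
  have hbr : (1 : ℝ) ≤ b := by exact_mod_cast hb
  have hb0 : (0 : ℝ) < b := by linarith
  have hkr : (k : ℝ) = (b : ℝ) ^ 2 * (M : ℝ) ^ (2 * t + 1) := by rw [hk]; push_cast; rfl
  have hk0 : (0 : ℝ) < k := by rw [hkr]; positivity
  have h2 : (2 * C * (b : ℝ) * rho k) ^ 2 ≤ (1 / (M : ℝ) ^ t) ^ 2 := by
    have e1 : (rho k) ^ 2 = Real.log ((k : ℝ) + 1) / k := by
      unfold rho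
      rw [Real.sq_sqrt]
      apply div_nonneg _ hk0.le
      apply Real.log_nonneg
      linarith
    rw [mul_pow, e1]
    calc (2 * C * (b : ℝ)) ^ 2 * (Real.log ((k : ℝ) + 1) / k)
        = (4 * C ^ 2 * Real.log ((k : ℝ) + 1)) * ((b : ℝ) ^ 2 / k) := by ring
      _ ≤ M * ((b : ℝ) ^ 2 / k) := mul_le_mul_of_nonneg_right hlog (by positivity)
      _ = (1 / (M : ℝ) ^ t) ^ 2 := by
          rw [hkr]
          field_simp
          ring
  exact le_of_sq_le_sq h2 (by positivity)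

/-- the rate in the first phase -/
theorem q_first {C : ℝ} (hC : 0 < C) (hrate : ∀ (k : ℕ), 1 ≤ k → ∀ (i u : ℕ) (r : ℤ), |(r : ℝ)| ≤ 4 ^ u →
    q step (0, 0) k (i, r) ≤ C * √ (1 + (i : ℝ) ^ 2 + u) * rho k) {m L : ℕ} (hm : 2 ≤ m)
    (hL : (L : ℝ) ≤ 13 * 2 ^ m * (m : ℝ) ^ 2) (hlog : 1488 * C ^ 2 * Real.log m ≤ m)
    (r : ℤ) (hr : w r ≤ 64000 * (L : ℝ) ^ 2) : q step (0, 0) (m ^ 2) (0, r) ≤ 1 / 4 := by
  have hmr : (2 : ℝ) ≤ m := by exact_mod_cast hm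
  have hm0 : (0 : ℝ) < m := by linarith
  have hlm : 0 < Real.log m := Real.log_pos (by linarith)
  -- the exponent
  have hrb : |(r : ℝ)| ≤ 4 ^ (24 + 6 * m) := by
    have h1 : w r ≤ 2 ^ (24 + 6 * m) := by
      refine hr.trans ?_
      have hL0 : (0 : ℝ) ≤ L := by positivity
      have h2 : (L : ℝ) ^ 2 ≤ (13 * 2 ^ m * (m : ℝ) ^ 2) ^ 2 := pow_le_pow_left₀ hL0 hL 2
      have hm2 : (m : ℝ) ≤ 2 ^ m := by exact_mod_cast (Nat.lt_two_pow_self (n := m)).le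
      have h3 : (m : ℝ) ^ 4 ≤ (2 ^ m) ^ 4 := pow_le_pow_left₀ hm0.le hm2 _
      have h4 : (0 : ℝ) ≤ (2 ^ m) ^ 2 := by positivity
      calc 64000 * (L : ℝ) ^ 2 ≤ 64000 * (13 * 2 ^ m * (m : ℝ) ^ 2) ^ 2 := by linarith
        _ = 10816000 * ((2 ^ m) ^ 2 * (m : ℝ) ^ 4) := by ring
        _ ≤ 2 ^ 24 * ((2 ^ m) ^ 2 * (2 ^ m) ^ 4) := by
            apply mul_le_mul (by norm_num) _ (by positivity) (by positivity)
            exact mul_le_mul_of_nonneg_left h3 h4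
        _ = _ := by ring
    unfold w at h1
    rw [Real.sqrt_le_left (by positivity)] at h1
    refine h1.trans (le_of_eq ?_)
    rw [← pow_mul, mul_comm, pow_mul]
    norm_num
  refine (hrate (m ^ 2) (Nat.one_le_pow _ _ (by omega)) 0 _ r hrb).trans ?_
  have h1 : 1 + ((0 : ℕ) : ℝ) ^ 2 + ((24 + 6 * m : ℕ) : ℝ) ≤ 31 * m := by
    push_cast
    nlinarith
  have h2 : (rho (m ^ 2)) ^ 2 ≤ 3 * Real.log m / (m : ℝ) ^ 2 := by
    unfold rho
    rw [Real.sq_sqrt]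
    · push_cast
      apply div_le_div_of_nonneg_right _ (by positivity)
      have h3 : (m : ℝ) ^ 2 + 1 ≤ m ^ 3 := by nlinarith [sq_nonneg ((m : ℝ) - 2)]
      have h4 := Real.log_le_log (by positivity) h3
      rw [Real.log_pow] at h4
      push_cast at h4
      exact h4
    · apply div_nonneg _ (by positivity)
      apply Real.log_nonneg
      have : (0 : ℝ) ≤ ((m ^ 2 : ℕ) : ℝ) := by positivity
      linarith
  have h3 : (C * √ (1 + ((0 : ℕ) : ℝ) ^ 2 + ((24 + 6 * m : ℕ) : ℝ)) * rho (m ^ 2)) ^ 2 ≤ (1 / 4) ^ 2 := by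
    rw [mul_pow, mul_pow, Real.sq_sqrt (by positivity)]
    calc C ^ 2 * (1 + ((0 : ℕ) : ℝ) ^ 2 + ((24 + 6 * m : ℕ) : ℝ)) * rho (m ^ 2) ^ 2
        ≤ C ^ 2 * (31 * m) * (3 * Real.log m / (m : ℝ) ^ 2) := by
          apply mul_le_mul _ h2 (by positivity) (by positivity)
          exact mul_le_mul_of_nonneg_left h1 (by positivity)
      _ = (1488 * C ^ 2 * Real.log m) / (16 * m) := by
          field_simp
          ring
      _ ≤ m / (16 * m) := div_le_div_of_nonneg_right hlog (by positivity)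
      _ = (1 / 4) ^ 2 := by
          field_simp
          norm_num
  exact le_of_sq_le_sq h3 (by norm_num)

/-- bound of the hyperbolic terms -/
theorem cosh_bound {u M S k L a : ℕ} (hu : 1 ≤ u) (hM : 13 ≤ M) (hS : S ≤ M) (hk : k = u ^ 2 * M ^ 3)
    (hL : (L : ℝ) ≤ 13 * u * M) (ha : a = u * M ^ 3) :
    Real.cosh (1 / (u * M ^ 2)) ^ (S * k) * Real.cosh (1 / (u * M ^ 2) * L) /
      Real.cosh (1 / (u * M ^ 2) * a) ≤ 16 * Real.exp (-M) := by
  have hur : (1 : ℝ) ≤ u := by exact_mod_cast hu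
  have hMr : (13 : ℝ) ≤ M := by exact_mod_cast hM
  have hSr : (S : ℝ) ≤ M := by exact_mod_cast hS
  have hu0 : (0 : ℝ) < u := by linarith
  have hM0 : (0 : ℝ) < M := by linarith
  set lam : ℝ := 1 / (u * M ^ 2) with hlam
  have hlam0 : 0 < lam := by positivity
  have h1 : Real.cosh lam ^ (S * k) ≤ Real.exp 1 := by
    have h2 := Real.cosh_le_exp_half_sq lam
    calc Real.cosh lam ^ (S * k) ≤ Real.exp (lam ^ 2 / 2) ^ (S * k) :=
          pow_le_pow_left₀ (Real.cosh_pos _).le h2 _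
      _ = Real.exp ((S * k : ℕ) * (lam ^ 2 / 2)) := by rw [← Real.exp_nat_mul]
      _ ≤ Real.exp 1 := by
          apply Real.exp_le_exp.2
          rw [hk, hlam]
          push_cast
          have : (S : ℝ) * ((u : ℝ) ^ 2 * (M : ℝ) ^ 3) * ((1 / (u * (M : ℝ) ^ 2)) ^ 2 / 2) = S / (2 * M) := by
            field_simp
          rw [this, div_le_one (by positivity)]
          linarith
  have h2 : Real.cosh (lam * L) ≤ Real.exp 1 := by
    have h3 : lam * L ≤ 1 := by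
      have : lam * L ≤ lam * (13 * u * M) := mul_le_mul_of_nonneg_left hL hlam0.le
      refine this.trans ?_
      rw [hlam]
      have : (1 : ℝ) / (u * (M : ℝ) ^ 2) * (13 * u * M) = 13 / M := by field_simp
      rw [this, div_le_one hM0]
      exact hMr
    have h4 : 0 ≤ lam * L := by positivity
    rw [Real.cosh_eq]
    have h5 : Real.exp (lam * L) ≤ Real.exp 1 := Real.exp_le_exp.2 h3
    have h6 : Real.exp (-(lam * L)) ≤ Real.exp 1 := Real.exp_le_exp.2 (by linarith)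
    linarith
  have h3 : Real.exp M / 2 ≤ Real.cosh (lam * a) := by
    have : lam * (a : ℝ) = M := by
      rw [hlam, ha]
      push_cast
      field_simp
    rw [this, Real.cosh_eq]
    have := Real.exp_pos (-(M : ℝ))
    linarith
  have h4 : Real.cosh lam ^ (S * k) * Real.cosh (lam * L) ≤ 8 := by
    have h5 := Real.exp_one_lt_d9
    have h6 : Real.cosh lam ^ (S * k) * Real.cosh (lam * L) ≤ Real.exp 1 * Real.exp 1 :=
      mul_le_mul h1 h2 (Real.cosh_pos _).le (Real.exp_pos 1).le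
    have h7 := Real.exp_pos 1
    nlinarith
  have h5 := Real.exp_pos (M : ℝ)
  rw [div_le_iff₀ (Real.cosh_pos _), Real.exp_neg]
  calc Real.cosh lam ^ (S * k) * Real.cosh (lam * L) ≤ 8 := h4
    _ = 16 * (Real.exp M)⁻¹ * (Real.exp M / 2) := by field_simp; norm_num
    _ ≤ _ := mul_le_mul_of_nonneg_left h3 (by positivity)

end Pool.Agent.W38.CR
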