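import Pool.Agent.W38.CRd

/-! Coalescing runs: all the forms `(0, h)`, `h < 2 ^ (2 ^ m)`, merge within `2 * 4 ^ m * m ^ 30` steps. -/

set_option autoImplicit false

namespace Pool.Agent.W38.CR

open Finset Filter Pool.Agent.H499R2.CO

theorem tendsto_log_lin (c : ℝ) : ∀ᶠ M : ℕ in atTop, c * Real.log M ≤ M := by
  have h1 : Tendsto (fun x : ℝ => Real.log x ^ 1 / x) atTop (nhds 0) := by
    have := Real.tendsto_pow_log_div_mul_add_atTop 1 0 1 one_ne_zero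
    simpa using this
  have h2 := (h1.comp tendsto_natCast_atTop_atTop).eventually
    (gt_mem_nhds (show (0 : ℝ) < 1 / (|c| + 1) by positivity))
  filter_upwards [h2, eventually_ge_atTop 1] with M hM hM1
  have hMr : (1 : ℝ) ≤ M := by exact_mod_cast hM1
  have hM0 : (0 : ℝ) < M := by linarith
  simp only [Function.comp, pow_one] at hM
  rw [div_lt_div_iff₀ hM0 (by positivity)] at hM
  have h3 : 0 ≤ Real.log M := Real.log_nonneg hMr
  have h4 : c * Real.log M ≤ |c| * Real.log M := mul_le_mul_of_nonneg_right (le_abs_self c) h3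
  nlinarith

theorem err_tendsto : Tendsto (fun m : ℕ => 6000 * (4 ^ m * (m : ℝ) ^ 4) *
    (1 / ((m : ℝ) ^ 2) ^ 4 * (1 / ((m : ℝ) ^ 2)) ^ m + 3 * (16 * Real.exp (-((m ^ 2 : ℕ) : ℝ))) +
      3113 / 2 ^ (m ^ 2)) + 2 * (1 / ((m : ℝ) ^ 2) ^ 4) * (2 * ((m : ℝ) ^ 2) ^ 3 + 2)) atTop (nhds 0) := by
  have h2 : Tendsto (fun m : ℕ => (m : ℝ) ^ 4 / 4 ^ m) atTop (nhds 0) :=
    tendsto_pow_const_div_const_pow_of_one_lt 4 (by norm_num)
  have h3 : Tendsto (fun m : ℕ => 6008 / (m : ℝ)) atTop (nhds 0) :=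
    tendsto_const_div_atTop_nhds_zero_nat 6008
  have h4 : Tendsto (fun m : ℕ => 6008 / (m : ℝ) + 18966000 * ((m : ℝ) ^ 4 / 4 ^ m)) atTop (nhds 0) := by
    have := h3.add (h2.const_mul 18966000)
    simpa using this
  refine tendsto_of_tendsto_of_tendsto_of_le_of_le' tendsto_const_nhds h4 ?_ ?_
  · filter_upwards with M
    positivity
  · filter_upwards [eventually_ge_atTop 4] with m hm
    have hmr : (4 : ℝ) ≤ m := by exact_mod_cast hm
    have hm0 : (0 : ℝ) < m := by linarith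
    have e1 : 6000 * (4 ^ m * (m : ℝ) ^ 4) * (1 / ((m : ℝ) ^ 2) ^ 4 * (1 / ((m : ℝ) ^ 2)) ^ m) ≤
        6000 / m := by
      have h5 : (4 : ℝ) ^ m * (1 / ((m : ℝ) ^ 2)) ^ m ≤ 1 := by
        rw [← mul_pow]
        apply pow_le_one₀ (by positivity)
        rw [mul_one_div, div_le_one (by positivity)]
        nlinarith
      have h6 : (m : ℝ) ^ 4 * (1 / ((m : ℝ) ^ 2) ^ 4) ≤ 1 / m := by
        have : (m : ℝ) ^ 4 * (1 / ((m : ℝ) ^ 2) ^ 4) = 1 / (m : ℝ) ^ 4 := by field_simp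
        rw [this]
        apply one_div_le_one_div_of_le hm0
        exact le_self_pow₀ (by linarith) (by norm_num)
      calc 6000 * (4 ^ m * (m : ℝ) ^ 4) * (1 / ((m : ℝ) ^ 2) ^ 4 * (1 / ((m : ℝ) ^ 2)) ^ m)
          = 6000 * ((4 ^ m * (1 / ((m : ℝ) ^ 2)) ^ m) * ((m : ℝ) ^ 4 * (1 / ((m : ℝ) ^ 2) ^ 4))) := by ring
        _ ≤ 6000 * (1 * (1 / (m : ℝ))) := by
            apply mul_le_mul_of_nonneg_left _ (by norm_num)
            exact mul_le_mul h5 h6 (by positivity) (by norm_num)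
        _ = 6000 / (m : ℝ) := by ring
    have e2 : 2 * (1 / ((m : ℝ) ^ 2) ^ 4) * (2 * ((m : ℝ) ^ 2) ^ 3 + 2) ≤ 8 / m := by
      have h5 : (1 : ℝ) ≤ ((m : ℝ) ^ 2) ^ 3 := one_le_pow₀ (by nlinarith)
      calc 2 * (1 / ((m : ℝ) ^ 2) ^ 4) * (2 * ((m : ℝ) ^ 2) ^ 3 + 2) ≤
          2 * (1 / ((m : ℝ) ^ 2) ^ 4) * (4 * ((m : ℝ) ^ 2) ^ 3) := by
            apply mul_le_mul_of_nonneg_left _ (by positivity)
            linarith
        _ = 8 / (m : ℝ) ^ 2 := by field_simp; norm_num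
        _ ≤ 8 / (m : ℝ) := by
            apply div_le_div_of_nonneg_left (by norm_num) hm0
            exact le_self_pow₀ (by linarith) (by norm_num)
    have e3 : 6000 / (m : ℝ) + 8 / m = 6008 / m := by ring
    have h7 : (16 : ℝ) ^ m ≤ 2 ^ (m ^ 2) := by
      rw [show (16 : ℝ) = 2 ^ 4 by norm_num, ← pow_mul]
      apply pow_le_pow_right₀ (by norm_num)
      nlinarith
    have h8 : Real.exp (-((m ^ 2 : ℕ) : ℝ)) ≤ 1 / 16 ^ m := by
      rw [Real.exp_neg, ← one_div]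
      apply one_div_le_one_div_of_le (by positivity)
      refine h7.trans ?_
      have h9 : (2 : ℝ) ≤ Real.exp 1 := by have := Real.exp_one_gt_d9; linarith
      calc (2 : ℝ) ^ (m ^ 2) ≤ Real.exp 1 ^ (m ^ 2) := pow_le_pow_left₀ (by norm_num) h9 _
        _ = Real.exp ((m ^ 2 : ℕ) : ℝ) := by rw [← Real.exp_nat_mul, mul_one]
    have h9 : 3113 / (2 : ℝ) ^ (m ^ 2) ≤ 3113 * (1 / 16 ^ m) := by
      rw [mul_one_div]
      exact div_le_div_of_nonneg_left (by norm_num) (by positivity) h7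
    have e4 : 6000 * (4 ^ m * (m : ℝ) ^ 4) * (3161 * (1 / 16 ^ m)) =
        18966000 * ((m : ℝ) ^ 4 / 4 ^ m) := by
      have : (16 : ℝ) ^ m = 4 ^ m * 4 ^ m := by rw [← mul_pow]; norm_num
      rw [this]
      field_simp
      norm_num
    have h10 : 0 ≤ 6000 * (4 ^ m * (m : ℝ) ^ 4) := by positivity
    have h11 : 3 * (16 * Real.exp (-((m ^ 2 : ℕ) : ℝ))) + 3113 / 2 ^ (m ^ 2) ≤ 3161 * (1 / 16 ^ m) := by
      linarith
    have h12 := mul_le_mul_of_nonneg_left h11 h10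
    have e5 : 6000 * (4 ^ m * (m : ℝ) ^ 4) *
      (1 / ((m : ℝ) ^ 2) ^ 4 * (1 / ((m : ℝ) ^ 2)) ^ m + 3 * (16 * Real.exp (-((m ^ 2 : ℕ) : ℝ))) +
      3113 / 2 ^ (m ^ 2)) = 6000 * (4 ^ m * (m : ℝ) ^ 4) * (1 / ((m : ℝ) ^ 2) ^ 4 * (1 / ((m : ℝ) ^ 2)) ^ m) +
      6000 * (4 ^ m * (m : ℝ) ^ 4) * (3 * (16 * Real.exp (-((m ^ 2 : ℕ) : ℝ))) + 3113 / 2 ^ (m ^ 2)) := by
      ring
    rw [e5]
    linarith

theorem log_k {m k : ℕ} (hm : 1 ≤ m) (hk : k ≤ 4 ^ m * m ^ 30) : Real.log ((k : ℝ) + 1) ≤ 33 * m := by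
  have hmr : (1 : ℝ) ≤ m := by exact_mod_cast hm
  have h0 : 1 ≤ 4 ^ m * m ^ 30 := Nat.mul_pos (by positivity) (Nat.pos_of_ne_zero (by positivity))
  have h1 : (k : ℝ) + 1 ≤ 2 * (4 ^ m * (m : ℝ) ^ 30) := by
    have : k + 1 ≤ 2 * (4 ^ m * m ^ 30) := by omega
    exact_mod_cast this
  have h2 := Real.log_le_log (by positivity) h1
  rw [Real.log_mul (by norm_num) (by positivity), Real.log_mul (by positivity) (by positivity),
    Real.log_pow, Real.log_pow, show (4 : ℝ) = 2 ^ 2 by norm_num, Real.log_pow] at h2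
  have h3 := Real.log_two_lt_d9
  have h4 : Real.log m ≤ m - 1 := Real.log_le_sub_one_of_pos (by linarith)
  push_cast at h2
  nlinarith

/-- All the forms `(0, h)`, `h < 2 ^ (2 ^ m)`, merge within `2 * 4 ^ m * m ^ 30` steps, for most bits. -/
theorem phase {ε : ℝ} (hε : 0 < ε) : ∃ m0 : ℕ, ∀ m ≥ m0, ∃ T : ℕ,
    T ≤ 2 * (4 ^ m * m ^ 30) ∧ av T (fun l => bad (fl l (0, 0)) (im l (Q0 (2 ^ m)))) ≤ ε := by
  obtain ⟨C, hC, hrate⟩ := q_rate
  have hev : ∀ᶠ m : ℕ in atTop, 20 ≤ m ∧ 132 * C ^ 2 ≤ m ∧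
      1488 * C ^ 2 * Real.log m ≤ m ∧ (0.98 : ℝ) ^ (m ^ 2) ≤ 0.01 ∧
      6000 * (4 ^ m * (m : ℝ) ^ 4) *
    (1 / ((m : ℝ) ^ 2) ^ 4 * (1 / ((m : ℝ) ^ 2)) ^ m + 3 * (16 * Real.exp (-((m ^ 2 : ℕ) : ℝ))) +
      3113 / 2 ^ (m ^ 2)) + 2 * (1 / ((m : ℝ) ^ 2) ^ 4) * (2 * ((m : ℝ) ^ 2) ^ 3 + 2) ≤ ε := by
    have h98 : Tendsto (fun M : ℕ => (0.98 : ℝ) ^ M) atTop (nhds 0) :=
      tendsto_pow_atTop_nhds_zero_of_lt_one (by norm_num) (by norm_num)
    have h98' := h98.comp (tendsto_pow_atTop (α := ℕ) (n := 2) (by norm_num))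
    filter_upwards [eventually_ge_atTop 20, tendsto_natCast_atTop_atTop.eventually_ge_atTop (132 * C ^ 2),
      tendsto_log_lin (1488 * C ^ 2),
      h98'.eventually (gt_mem_nhds (show (0 : ℝ) < 0.01 by norm_num)),
      err_tendsto.eventually (gt_mem_nhds hε)] with M h1 h2 h3 h4 h5
    exact ⟨h1, h2, h3, h4.le, h5.le⟩
  obtain ⟨m0, hm0⟩ := eventually_atTop.1 hev
  refine ⟨m0, fun m hm => ?_⟩
  obtain ⟨hm20, hmC, hlog, h98, herr⟩ := hm0 m hm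
  clear hev hm0
  have hmr : (20 : ℝ) ≤ m := by exact_mod_cast hm20
  have hmp : (0 : ℝ) < m := by linarith
  set u := 2 ^ m with hu
  set M := m ^ 2 with hMdef
  have hM400 : 400 ≤ M := by rw [hMdef]; nlinarith
  have hupos : 1 ≤ u := Nat.one_le_two_pow
  have hu2 : u ^ 2 = 4 ^ m := by rw [hu, ← pow_mul, mul_comm, pow_mul]; norm_num
  have hmu : m ≤ u := (Nat.lt_two_pow_self (n := m)).le
  have hMu : M ≤ u := by
    rw [hMdef, hu]
    have : ∀ k : ℕ, 4 ≤ k → k ^ 2 ≤ 2 ^ k := by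
      intro k hk
      induction k, hk using Nat.le_induction with
      | base => norm_num
      | succ k hk ih =>
        rw [pow_succ 2 k]
        nlinarith
    exact this m (by omega)
  set L := 12 * u * M + 1 with hLdef
  have hL13 : (L : ℝ) ≤ 13 * (u : ℝ) * M := by
    have : L ≤ 13 * u * M := by
      have : 1 ≤ u * M := Nat.mul_pos (by omega) (by omega)
      rw [hLdef]
      nlinarith
    exact_mod_cast this
  have hlogk : ∀ k : ℕ, k ≤ 4 ^ m * m ^ 30 → 4 * C ^ 2 * Real.log ((k : ℝ) + 1) ≤ (M : ℝ) := by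
    intro k hk
    have h1 := log_k (m := m) (by omega) hk
    have h2 : 4 * C ^ 2 * Real.log ((k : ℝ) + 1) ≤ 4 * C ^ 2 * (33 * m) :=
      mul_le_mul_of_nonneg_left h1 (by positivity)
    rw [hMdef]
    push_cast
    nlinarith
  have hq1 : ∀ r : ℤ, w r ≤ 64000 * (L : ℝ) ^ 2 → q step (0, 0) M (0, r) ≤ 1 / 4 := by
    intro r hr
    apply q_first hC hrate (by omega) _ hlog r hr
    refine hL13.trans (le_of_eq ?_)
    rw [hu, hMdef]
    push_cast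
    ring
  have hk1 : u ^ 2 * M ^ 3 ≤ 4 ^ m * m ^ 30 := by
    rw [hu2, hMdef, ← pow_mul]
    exact Nat.mul_le_mul_left _ (Nat.pow_le_pow_right (by omega) (by norm_num))
  have hk2 : (u * M ^ 3) ^ 2 * M ^ 9 = 4 ^ m * m ^ 30 := by
    rw [← hu2, hMdef]; ring
  have hq : ∀ s : ℕ × ℤ, s.1 ≤ u → pw s ≤ 2 ^ M → q step (0, 0) (u ^ 2 * M ^ 3) s ≤ 1 / (M : ℝ) := by
    intro s hs hpw
    refine (q_close hC hrate hupos hMu (Nat.mul_pos (by positivity) (by positivity)) s hs hpw).trans ?_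
    have := rho_pow hC (M := M) (b := u) (t := 1) (k := u ^ 2 * M ^ 3) (by omega) hupos (by norm_num)
      (hlogk _ hk1)
    rwa [pow_one] at this
  have hqf : ∀ s : ℕ × ℤ, s.1 ≤ u * M ^ 3 → pw s ≤ 2 ^ M →
      q step (0, 0) ((u * M ^ 3) ^ 2 * M ^ 9) s ≤ 1 / (M : ℝ) ^ 4 := by
    intro s hs hpw
    have ha1 : 1 ≤ u * M ^ 3 := Nat.mul_pos (by omega) (by positivity)
    have ha2 : M ≤ u * M ^ 3 := by
      have : M ≤ M ^ 3 := Nat.le_self_pow (by norm_num) M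
      nlinarith
    refine (q_close hC hrate (a := u * M ^ 3) ha1 ha2 (Nat.mul_pos (by positivity) (by positivity))
      s hs hpw).trans ?_
    exact rho_pow hC (M := M) (b := u * M ^ 3) (t := 4) (by omega) ha1 (by norm_num)
      (hlogk _ hk2.le)
  have hMr : (400 : ℝ) ≤ M := by exact_mod_cast hM400
  have hMp : (0 : ℝ) < M := by linarith
  have hp2 : 1 / (M : ℝ) ≤ 1 / 2 := by
    apply div_le_div_of_nonneg_left (by norm_num) (by norm_num) (by linarith)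
  have hpf1 : 1 / (M : ℝ) ^ 4 ≤ 1 := by
    rw [div_le_one (by positivity)]
    exact one_le_pow₀ (by linarith)
  have hlam0 : (0 : ℝ) ≤ 1 / ((u : ℝ) * (M : ℝ) ^ 2) := by positivity
  have htot := total (L := L) (k1 := M) (s1 := 12 * u) (a := u * M ^ 3) (g := u)
    (k := u ^ 2 * M ^ 3) (kf := (u * M ^ 3) ^ 2 * M ^ 9) (S := m) (p := 1 / (M : ℝ))
    (pf := 1 / (M : ℝ) ^ 4) (lam := 1 / ((u : ℝ) * (M : ℝ) ^ 2)) (Pm := 2 ^ M)
    (by omega) h98 hq1 hupos (by positivity) hp2 (by positivity) hpf1 (by positivity) hlam0 hq hqf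
    (zero_mem_Q0 u) (fun A hA => by rw [Q0_level A hA]; omega)
  refine ⟨12 * u * M + (m * (u ^ 2 * M ^ 3) + (u * M ^ 3) ^ 2 * M ^ 9), ?_, htot.trans ?_⟩
  · rw [hk2]
    have h1 : u * M ≤ u ^ 2 * M ^ 3 := by
      have h2 : u ≤ u ^ 2 := Nat.le_self_pow (by norm_num) u
      have h3 : M ≤ M ^ 3 := Nat.le_self_pow (by norm_num) M
      exact Nat.mul_le_mul h2 h3
    have h2 : (12 + m) * (u ^ 2 * M ^ 3) ≤ 4 ^ m * m ^ 30 := by
      rw [hu2, hMdef, ← pow_mul]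
      calc (12 + m) * (4 ^ m * m ^ (2 * 3)) ≤ m ^ 2 * (4 ^ m * m ^ (2 * 3)) :=
            Nat.mul_le_mul_right _ (by nlinarith)
        _ = 4 ^ m * m ^ 8 := by ring
        _ ≤ _ := Nat.mul_le_mul_left _ (Nat.pow_le_pow_right (by omega) (by norm_num))
    have h3 : 12 * u * M = 12 * (u * M) := by ring
    have h4 : (12 + m) * (u ^ 2 * M ^ 3) = m * (u ^ 2 * M ^ 3) + 12 * (u ^ 2 * M ^ 3) := by
      ring
    omega
  · have hMm : (M : ℝ) = (m : ℝ) ^ 2 := by rw [hMdef]; push_cast; rfl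
    rw [← hMm] at herr
    refine le_trans ?_ herr
    have hcosh := cosh_bound (u := u) (M := M) (S := m) (k := u ^ 2 * M ^ 3) (L := L)
      (a := u * M ^ 3) hupos (by omega) (by rw [hMdef]; nlinarith) rfl hL13 rfl
    have hdiv : 2 * (u * M ^ 3) / u = 2 * M ^ 3 := by
      have : 2 * (u * M ^ 3) = u * (2 * M ^ 3) := by ring
      rw [this, Nat.mul_div_cancel_left _ (by omega)]
    have hum : (u : ℝ) ^ 2 = 4 ^ m := by exact_mod_cast hu2
    have hA : (0.84 : ℝ) ^ (12 * u) * Lam (Q0 u) + 31.25 * (L : ℝ) ^ 2 ≤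
        6000 * (4 ^ m * (m : ℝ) ^ 4) := by
      have h1 : (0.84 : ℝ) ^ (12 * u) * Lam (Q0 u) ≤ 2 :=
        (mul_le_mul_of_nonneg_left (Lam_Q0 _) (by positivity)).trans (pow_084 _)
      have h2 : (L : ℝ) ^ 2 ≤ (13 * (u : ℝ) * M) ^ 2 :=
        pow_le_pow_left₀ (by positivity) hL13 2
      have h3 : (13 * (u : ℝ) * M) ^ 2 = 169 * (4 ^ m * (m : ℝ) ^ 4) := by
        rw [mul_pow, mul_pow, hum, hMm]; ring
      have h4 : (1 : ℝ) ≤ 4 ^ m * (m : ℝ) ^ 4 :=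
        one_le_mul_of_one_le_of_one_le (one_le_pow₀ (by norm_num)) (one_le_pow₀ (by linarith))
      rw [h3] at h2
      linarith
    have hZ : 1 / (M : ℝ) ^ 4 * (1 / (M : ℝ)) ^ m +
        3 * (Real.cosh (1 / ((u : ℝ) * (M : ℝ) ^ 2)) ^ (m * (u ^ 2 * M ^ 3)) *
          Real.cosh (1 / ((u : ℝ) * (M : ℝ) ^ 2) * L) /
          Real.cosh (1 / ((u : ℝ) * (M : ℝ) ^ 2) * ((u * M ^ 3 : ℕ) : ℝ))) + 3113 / 2 ^ M ≤
        1 / (M : ℝ) ^ 4 * (1 / (M : ℝ)) ^ m + 3 * (16 * Real.exp (-(M : ℝ))) +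
          3113 / 2 ^ M := by
      linarith
    have hZ0 : 0 ≤ 1 / (M : ℝ) ^ 4 * (1 / (M : ℝ)) ^ m +
        3 * (Real.cosh (1 / ((u : ℝ) * (M : ℝ) ^ 2)) ^ (m * (u ^ 2 * M ^ 3)) *
          Real.cosh (1 / ((u : ℝ) * (M : ℝ) ^ 2) * L) /
          Real.cosh (1 / ((u : ℝ) * (M : ℝ) ^ 2) * ((u * M ^ 3 : ℕ) : ℝ))) + 3113 / 2 ^ M := by
      have := Real.cosh_pos (1 / ((u : ℝ) * (M : ℝ) ^ 2))
      have := Real.cosh_pos (1 / ((u : ℝ) * (M : ℝ) ^ 2) * L)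
      have := Real.cosh_pos (1 / ((u : ℝ) * (M : ℝ) ^ 2) * ((u * M ^ 3 : ℕ) : ℝ))
      positivity
    have hprod := mul_le_mul hA hZ hZ0 (by positivity)
    have hlast : 2 * (1 / (M : ℝ) ^ 4) * ((2 * (u * M ^ 3) / u + 2 : ℕ) : ℝ) =
        2 * (1 / (M : ℝ) ^ 4) * (2 * (M : ℝ) ^ 3 + 2) := by
      rw [hdiv]
      push_cast
      ring
    rw [hlast]
    linarith

end Pool.Agent.W38.CR
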