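import Pool.Agent.W38.CRe
import Pool.Agent.H499R2.CO.R5

/-! Coalescing runs: from the forms to the integers. -/

set_option autoImplicit false

namespace Pool.Agent.W38.CR

open Finset Filter Topology Pool.Agent.H499R2.CO

/-- value of a form -/
def ev (A : ℕ × ℤ) (m : ℤ) : ℤ := 3 ^ A.1 * m + A.2

theorem Tz_ev (b : Bool) (A : ℕ × ℤ) (m : ℤ) : Tz 1 (ev A (2 * m + bz b)) = ev (fs b A) m := by
  have e : ev A (2 * m + bz b) = 2 * (3 ^ A.1 * m) + vl b A := by
    unfold ev vl; ring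
  rw [e]
  unfold Tz fs
  rcases Int.emod_two_eq_zero_or_one (vl b A) with h | h
  · rw [if_pos (by omega), if_pos h]
    unfold ev
    simp only
    omega
  · rw [if_neg (by omega), if_neg (by omega)]
    unfold ev
    simp only
    have e2 : (3 : ℤ) ^ (A.1 + 1) * m = 3 * (3 ^ A.1 * m) := by ring
    rw [e2]
    generalize (3 : ℤ) ^ A.1 * m = z
    omega

/-- the integer with given bits -/
def bv : List Bool → ℤ
  | [] => 0
  | b :: l => bz b + 2 * bv l

theorem Tz_ev_iter (l : List Bool) : ∀ (A : ℕ × ℤ) (m : ℤ),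
    (Tz 1)^[l.length] (ev A (2 ^ l.length * m + bv l)) = ev (fl l A) m := by
  induction l with
  | nil => intro A m; simp [bv, fl]
  | cons b l ih =>
    intro A m
    have e : (2 : ℤ) ^ (b :: l).length * m + bv (b :: l) = 2 * (2 ^ l.length * m + bv l) + bz b := by
      simp only [List.length_cons, bv, pow_succ]; ring
    rw [e, List.length_cons, Function.iterate_succ_apply, Tz_ev, ih]
    rfl

/-- the bits of an integer -/
def bits : ℕ → ℕ → List Bool
  | 0, _ => []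
  | k + 1, x => decide (x % 2 = 1) :: bits k (x / 2)

theorem length_bits (k : ℕ) : ∀ x, (bits k x).length = k := by
  induction k with
  | zero => intro x; rfl
  | succ k ih => intro x; simp only [bits, List.length_cons, ih]

theorem bz_bit (x : ℕ) : bz (decide (x % 2 = 1)) = (x : ℤ) % 2 := by
  unfold bz
  by_cases h : x % 2 = 1
  · rw [decide_eq_true h, if_pos rfl]; omega
  · rw [decide_eq_false h, if_neg (by simp)]; omega

theorem bv_bits (k : ℕ) : ∀ x : ℕ, (2 : ℤ) ^ k * ((x / 2 ^ k : ℕ) : ℤ) + bv (bits k x) = x := by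
  induction k with
  | zero => intro x; simp [bits, bv]
  | succ k ih =>
    intro x
    have h := ih (x / 2)
    have e : x / 2 / 2 ^ k = x / 2 ^ (k + 1) := by
      rw [Nat.div_div_eq_div_mul, pow_succ, mul_comm]
    rw [e] at h
    simp only [bits, bv]
    rw [bz_bit, pow_succ]
    have h2 : 2 * (((x / 2 : ℕ)) : ℤ) + (x : ℤ) % 2 = x := by omega
    linear_combination 2 * h + h2

theorem bits_add (k : ℕ) : ∀ q x : ℕ, bits k (2 ^ k * q + x) = bits k x := by
  induction k with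
  | zero => intro q x; rfl
  | succ k ih =>
    intro q x
    have e1 : 2 ^ (k + 1) * q + x = 2 * (2 ^ k * q) + x := by ring
    have e2 : (2 ^ (k + 1) * q + x) / 2 = 2 ^ k * q + x / 2 := by rw [e1]; omega
    have e3 : (2 ^ (k + 1) * q + x) % 2 = x % 2 := by rw [e1]; omega
    simp only [bits]
    rw [e2, e3, ih]

/-- the iterates through the forms -/
theorem iter_form (k n h : ℕ) : (Tz 1)^[k] (((n : ℕ) : ℤ) + h) =
    ev (fl (bits k n) (0, (h : ℤ))) ((n / 2 ^ k : ℕ) : ℤ) := by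
  have h1 := Tz_ev_iter (bits k n) (0, (h : ℤ)) ((n / 2 ^ k : ℕ) : ℤ)
  rw [length_bits, bv_bits] at h1
  rw [← h1]
  congr 1
  unfold ev
  simp

theorem sum_range_double (n : ℕ) (f : ℕ → ℝ) :
    ∑ x ∈ range (2 * n), f x = ∑ y ∈ range n, (f (2 * y) + f (2 * y + 1)) := by
  induction n with
  | zero => simp
  | succ n ih =>
    rw [show 2 * (n + 1) = 2 * n + 1 + 1 by ring, sum_range_succ, sum_range_succ, ih, sum_range_succ]
    ring

theorem sum_bits (k : ℕ) : ∀ F : List Bool → ℝ,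
    ∑ x ∈ range (2 ^ k), F (bits k x) = 2 ^ k * av k F := by
  induction k with
  | zero => intro F; simp [bits, av]
  | succ k ih =>
    intro F
    rw [pow_succ, mul_comm (2 ^ k) 2, sum_range_double]
    have e : ∀ y : ℕ, F (bits (k + 1) (2 * y)) + F (bits (k + 1) (2 * y + 1)) =
        F (false :: bits k y) + F (true :: bits k y) := by
      intro y
      simp only [bits]
      have e1 : 2 * y % 2 = 0 := by omega
      have e2 : (2 * y + 1) % 2 = 1 := by omega
      have e3 : 2 * y / 2 = y := by omega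
      have e4 : (2 * y + 1) / 2 = y := by omega
      rw [e1, e2, e3, e4]
      simp
    simp only [e]
    rw [sum_add_distrib, ih (fun l => F (false :: l)), ih (fun l => F (true :: l))]
    simp only [av]
    ring

theorem sum_bits_mul (k q : ℕ) (F : List Bool → ℝ) :
    ∑ x ∈ range (2 ^ k * q), F (bits k x) = q * (2 ^ k * av k F) := by
  induction q with
  | zero => simp
  | succ q ih =>
    rw [show 2 ^ k * (q + 1) = 2 ^ k * q + 2 ^ k by ring, sum_range_add, ih]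
    have e : ∀ x : ℕ, F (bits k (2 ^ k * q + x)) = F (bits k x) := fun x => by rw [bits_add]
    simp only [e]
    rw [sum_bits]
    push_cast
    ring

theorem sum_Icc_bits {F : List Bool → ℝ} (hF : ∀ l, 0 ≤ F l) (k N : ℕ) :
    ∑ n ∈ Icc 1 N, F (bits k n) ≤ (N + 2 ^ k) * av k F := by
  have hav : 0 ≤ av k F := av_nonneg fun l _ => hF l
  have h1 : Icc 1 N ⊆ range (2 ^ k * (N / 2 ^ k + 1)) := by
    intro n hn
    rw [mem_Icc] at hn
    rw [mem_range]
    have h := Nat.lt_mul_div_succ N (show 0 < 2 ^ k by positivity)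
    omega
  have h2 := sum_le_sum_of_subset_of_nonneg h1 (f := fun n => F (bits k n)) (fun _ _ _ => hF _)
  refine h2.trans ?_
  rw [sum_bits_mul]
  have h3 : ((N / 2 ^ k + 1 : ℕ) : ℝ) * 2 ^ k ≤ N + 2 ^ k := by
    have h4 : (N / 2 ^ k + 1) * 2 ^ k ≤ N + 2 ^ k := by
      have := Nat.div_mul_le_self N (2 ^ k)
      rw [add_mul, one_mul]
      omega
    exact_mod_cast h4
  calc ((N / 2 ^ k + 1 : ℕ) : ℝ) * (2 ^ k * av k F) = (((N / 2 ^ k + 1 : ℕ) : ℝ) * 2 ^ k) * av k F := by ring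
    _ ≤ _ := mul_le_mul_of_nonneg_right h3 hav

theorem av_congr_len {k : ℕ} {F G : List Bool → ℝ} (h : ∀ l, l.length = k → F l = G l) :
    av k F = av k G := av_congr h

/-- The first phase for the integers. -/
theorem forward {ε : ℝ} (hε : 0 < ε) : ∃ m0 : ℕ, ∀ m ≥ m0, ∃ T : ℕ, T ≤ 2 * (4 ^ m * m ^ 30) ∧
    ∀ N : ℕ, (#((Icc 1 N).filter (fun n : ℕ => ¬ ∀ h : ℕ, h < 2 ^ 2 ^ m →
      (Tz 1)^[T] (((n : ℕ) : ℤ) + h) = (Tz 1)^[T] ((n : ℕ) : ℤ))) : ℝ) ≤ ε * (N + 2 ^ T) := by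
  classical
  obtain ⟨m0, hm0⟩ := phase hε
  refine ⟨m0, fun m hm => ?_⟩
  obtain ⟨T, hT, hav⟩ := hm0 m hm
  refine ⟨T, hT, fun N => ?_⟩
  set F : List Bool → ℝ := fun l => bad (fl l (0, 0)) (im l (Q0 (2 ^ m))) with hF
  have hF0 : ∀ l, 0 ≤ F l := fun l => bad_nonneg _ _
  have h1 := sum_Icc_bits hF0 T N
  have h2 : (#((Icc 1 N).filter (fun n : ℕ => ¬ ∀ h : ℕ, h < 2 ^ 2 ^ m →
      (Tz 1)^[T] (((n : ℕ) : ℤ) + h) = (Tz 1)^[T] ((n : ℕ) : ℤ))) : ℝ) ≤
      ∑ n ∈ Icc 1 N, F (bits T n) := by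
    rw [card_filter]
    push_cast
    apply sum_le_sum
    intro n _
    by_cases hn : ∀ h : ℕ, h < 2 ^ 2 ^ m → (Tz 1)^[T] (((n : ℕ) : ℤ) + h) = (Tz 1)^[T] ((n : ℕ) : ℤ)
    · rw [if_neg (not_not.2 hn)]; exact hF0 _
    · rw [if_pos hn]
      refine le_of_eq (bad_one (fun hall => hn ?_)).symm
      intro h hh
      have e1 : ((Tz 1)^[T] ((n : ℕ) : ℤ)) = (Tz 1)^[T] (((n : ℕ) : ℤ) + ((0 : ℕ) : ℤ)) := by simp
      rw [e1, iter_form, iter_form]
      have e2 := hall (fl (bits T n) (0, (h : ℤ))) (by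
        unfold im Q0
        apply mem_image_of_mem
        rw [mem_image]
        exact ⟨h, mem_range.2 hh, rfl⟩)
      rw [e2]
      simp
  have h3 : (0 : ℝ) ≤ (N : ℝ) + 2 ^ T := by positivity
  calc _ ≤ _ := h2
    _ ≤ _ := h1
    _ ≤ (N + 2 ^ T) * ε := mul_le_mul_of_nonneg_left hav h3
    _ = _ := by ring

/-- length of the runs -/
noncomputable def GG (n : ℕ) : ℝ := Real.exp (√ (Real.log n) / (Real.log (Real.log n)) ^ 16)

theorem tendsto_natlog : Tendsto (fun N : ℕ => Nat.log 2 N) atTop atTop := by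
  rw [tendsto_atTop]
  intro b
  filter_upwards [eventually_ge_atTop (2 ^ b)] with N hN
  exact (Nat.le_log_iff_pow_le (by norm_num) (by
    have : 0 < 2 ^ b := by positivity
    omega)).2 hN

/-- the choice of the parameter `m` in terms of `s` -/
theorem choose_m (m0 : ℕ) : ∀ᶠ s : ℕ in atTop, ∃ m ≥ m0, 2 * (4 ^ m * m ^ 30) ≤ s / 4 ∧
    ∀ z w : ℝ, 0 ≤ z → z ≤ s → 0.3 * s ≤ w → √ z / (Real.log w) ^ 16 < 2 ^ m * Real.log 2 := by
  have hy : ∀ᶠ y : ℕ in atTop, 8 * y ^ 30 * 4 ^ m0 ≤ 2 ^ y := by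
    have h1 : Tendsto (fun n : ℕ => (n : ℝ) ^ 30 / 2 ^ n) atTop (nhds 0) :=
      tendsto_pow_const_div_const_pow_of_one_lt 30 (by norm_num)
    filter_upwards [h1.eventually (gt_mem_nhds (show (0 : ℝ) < 1 / (8 * 4 ^ m0) by positivity))] with y hy
    rw [div_lt_div_iff₀ (by positivity) (by positivity)] at hy
    have : ((8 * y ^ 30 * 4 ^ m0 : ℕ) : ℝ) ≤ ((2 ^ y : ℕ) : ℝ) := by
      push_cast
      linarith
    exact_mod_cast this
  have hlog : Tendsto (fun s : ℕ => Real.log s) atTop atTop :=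
    Real.tendsto_log_atTop.comp tendsto_natCast_atTop_atTop
  filter_upwards [tendsto_natlog.eventually hy, hlog.eventually_ge_atTop (3 * 10 ^ 8),
    eventually_ge_atTop 100, tendsto_natlog.eventually (eventually_ge_atTop 4)] with s h1 h2 h3 h4
  set y := Nat.log 2 s with hydef
  have hs2 : 2 ^ y ≤ s := Nat.pow_log_le_self 2 (by omega)
  have hypos : 0 < 8 * y ^ 30 := by positivity
  set d := s / (8 * y ^ 30) with hd
  have hd0 : 4 ^ m0 ≤ d := by
    rw [hd, Nat.le_div_iff_mul_le hypos]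
    calc 4 ^ m0 * (8 * y ^ 30) = 8 * y ^ 30 * 4 ^ m0 := by ring
      _ ≤ 2 ^ y := h1
      _ ≤ s := hs2
  have hdpos : d ≠ 0 := by
    have : 0 < 4 ^ m0 := by positivity
    omega
  set m := Nat.log 4 d with hm
  have hm1 : 4 ^ m ≤ d := Nat.pow_log_le_self 4 hdpos
  have hm2 : d < 4 ^ (m + 1) := Nat.lt_pow_succ_log_self (by norm_num) d
  have hds : d * (8 * y ^ 30) ≤ s := Nat.div_mul_le_self s _
  have hmy : m ≤ y := by
    rw [hydef]
    apply (Nat.le_log_iff_pow_le (by norm_num) (by omega)).2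
    calc 2 ^ m ≤ 4 ^ m := Nat.pow_le_pow_left (by norm_num) m
      _ ≤ d := hm1
      _ ≤ d * (8 * y ^ 30) := Nat.le_mul_of_pos_right d hypos
      _ ≤ s := hds
  refine ⟨m, (Nat.le_log_iff_pow_le (by norm_num) hdpos).2 hd0, ?_, ?_⟩
  · rw [Nat.le_div_iff_mul_le (by norm_num)]
    calc 2 * (4 ^ m * m ^ 30) * 4 = 4 ^ m * (8 * m ^ 30) := by ring
      _ ≤ d * (8 * y ^ 30) := Nat.mul_le_mul hm1 (Nat.mul_le_mul_left 8 (Nat.pow_le_pow_left hmy 30))
      _ ≤ s := hds
  · intro z w hz0 hz hw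
    have hsr : (100 : ℝ) ≤ s := by exact_mod_cast h3
    have hs0 : (0 : ℝ) < s := by linarith
    set ℓ := Real.log s with hℓ
    have hℓ0 : 0 < ℓ := by linarith
    -- `y ≤ 1.5 ℓ`
    have hyl : (y : ℝ) ≤ 1.5 * ℓ := by
      have h5 : (2 : ℝ) ^ y ≤ s := by exact_mod_cast hs2
      have h6 := Real.log_le_log (by positivity) h5
      rw [Real.log_pow] at h6
      have h7 := Real.log_two_gt_d9
      have h8 : (y : ℝ) * 0.6931471803 ≤ ℓ :=
        (mul_le_mul_of_nonneg_left h7.le (by positivity)).trans h6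
      linarith
    -- `s ≤ 32 y ^ 30 4 ^ m`
    have hs3 : (s : ℝ) ≤ 32 * (y : ℝ) ^ 30 * 4 ^ m := by
      have h5 : s < 4 ^ (m + 1) * (8 * y ^ 30) := by
        rw [hd] at hm2
        exact (Nat.div_lt_iff_lt_mul hypos).1 hm2
      have h6 : s ≤ 32 * y ^ 30 * 4 ^ m := by
        calc s ≤ 4 ^ (m + 1) * (8 * y ^ 30) := h5.le
          _ = 32 * y ^ 30 * 4 ^ m := by ring
      exact_mod_cast h6
    have hsq : √ z ≤ 6 * (y : ℝ) ^ 15 * 2 ^ m := by
      rw [Real.sqrt_le_left (by positivity)]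
      refine (hz.trans hs3).trans ?_
      have e : (6 * (y : ℝ) ^ 15 * 2 ^ m) ^ 2 = 36 * (y : ℝ) ^ 30 * 4 ^ m := by
        rw [mul_pow, mul_pow, ← pow_mul, ← pow_mul, mul_comm m 2, pow_mul (2 : ℝ) 2 m]
        norm_num
      rw [e]
      have : (0 : ℝ) ≤ (y : ℝ) ^ 30 * 4 ^ m := by positivity
      nlinarith
    have hlw : ℓ / 2 ≤ Real.log w := by
      have h5 : √ (s : ℝ) ≤ w := by
        refine le_trans ?_ hw
        rw [Real.sqrt_le_left (by positivity)]
        nlinarith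
      have h6 := Real.log_le_log (Real.sqrt_pos.2 hs0) h5
      rw [Real.log_sqrt hs0.le] at h6
      exact h6
    have hlw0 : 0 < Real.log w := by linarith
    rw [div_lt_iff₀ (by positivity)]
    have h5 : (y : ℝ) ^ 15 ≤ (1.5 * ℓ) ^ 15 := pow_le_pow_left₀ (by positivity) hyl 15
    have h6 : (ℓ / 2) ^ 16 ≤ (Real.log w) ^ 16 := pow_le_pow_left₀ (by positivity) hlw 16
    have h7 := Real.log_two_gt_d9
    have h2m : (0 : ℝ) < 2 ^ m := by positivity
    calc √ z ≤ 6 * (y : ℝ) ^ 15 * 2 ^ m := hsq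
      _ ≤ 6 * (1.5 * ℓ) ^ 15 * 2 ^ m := by
          apply mul_le_mul_of_nonneg_right _ h2m.le
          linarith
      _ < 2 ^ m * 0.69 * (ℓ / 2) ^ 16 := by
          have e1 : 6 * (1.5 * ℓ) ^ 15 * 2 ^ m = (6 * 1.5 ^ 15) * (ℓ ^ 15 * 2 ^ m) := by ring
          have e2 : 2 ^ m * 0.69 * (ℓ / 2) ^ 16 = (0.69 / 2 ^ 16 * ℓ) * (ℓ ^ 15 * 2 ^ m) := by ring
          rw [e1, e2]
          apply mul_lt_mul_of_pos_right _ (by positivity)
          have : (0.69 / 2 ^ 16 : ℝ) * (3 * 10 ^ 8) ≤ 0.69 / 2 ^ 16 * ℓ :=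
            mul_le_mul_of_nonneg_left h2 (by norm_num)
          refine lt_of_lt_of_le ?_ this
          norm_num
      _ ≤ 2 ^ m * Real.log 2 * (ℓ / 2) ^ 16 := by
          apply mul_le_mul_of_nonneg_right _ (by positivity)
          apply mul_le_mul_of_nonneg_left _ h2m.le
          linarith
      _ ≤ 2 ^ m * Real.log 2 * (Real.log w) ^ 16 := by
          apply mul_le_mul_of_nonneg_left h6
          have : 0 < Real.log 2 := by linarith
          positivity

end Pool.Agent.W38.CR
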