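import Pool.Agent.W38.CRf

/-! Coalescing runs: longer runs do not coalesce. -/

set_option autoImplicit false

namespace Pool.Agent.W38.CR

open Finset Filter Topology Pool.Agent.H499R2.CO

/-- squared distance of the level difference to `i0` -/
noncomputable def f0 (i0 : ℝ) (s : ℕ × ℤ) : ℝ := (i0 - s.1) ^ 2

theorem Ev_f0 (i0 : ℝ) : Ev (f0 i0) := fun _ => rfl

theorem P_f0 {i0 : ℝ} (hi : 0 ≤ i0) (s : ℕ × ℤ) : P (f0 i0) s ≤ f0 i0 s + 1 := by
  obtain ⟨i, r⟩ := s
  rcases Int.emod_two_eq_zero_or_one r with h | h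
  · unfold P
    rw [step_ef h, step_et h]
    unfold f0
    simp only
    linarith
  · rcases i with _ | i
    · unfold P
      rw [step_0f h, step_0t h]
      unfold f0
      push_cast
      nlinarith
    · unfold P
      rw [step_sf h, step_st h]
      unfold f0
      push_cast
      apply le_of_eq
      ring

theorem P_iter_f0 {i0 : ℝ} (hi : 0 ≤ i0) (k : ℕ) (s : ℕ × ℤ) : (P^[k] (f0 i0)) s ≤ f0 i0 s + k := by
  induction k generalizing s with
  | zero => simp
  | succ k ih =>
    rw [Function.iterate_succ_apply']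
    refine (P_mono (G := fun s => f0 i0 s + k) ih s).trans ?_
    have h := P_f0 hi s
    have e : P (fun s => f0 i0 s + k) s = P (f0 i0) s + k := by
      unfold P; ring
    rw [e]
    push_cast
    linarith

/-- variance of the level -/
theorem av_level (u : ℕ) : ∀ (A : ℕ × ℤ) (y : ℝ),
    av u (fun l => (y + u / 2 - ((fl l A).1 - A.1 : ℝ)) ^ 2) = y ^ 2 + u / 4 := by
  induction u with
  | zero => intro A y; simp [av, fl]
  | succ u ih =>
    intro A y
    simp only [av, fl]
    -- the level increases for exactly one value of the bit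
    have key : ∀ b : Bool, av u (fun l => (y + ((u + 1 : ℕ) : ℝ) / 2 - ((fl l (fs b A)).1 - A.1 : ℝ)) ^ 2) =
        (y + 1 / 2 - (((fs b A).1 : ℝ) - A.1)) ^ 2 + u / 4 := by
      intro b
      rw [← ih (fs b A) (y + 1 / 2 - (((fs b A).1 : ℝ) - A.1))]
      congr 1
      funext l
      push_cast
      ring
    rw [key, key]
    obtain ⟨m, hm⟩ := odd3z A.1
    have e0 : vl false A = A.2 := by simp [vl, bz]
    have e1 : vl true A = A.2 + (2 * m + 1) := by simp [vl, bz, hm]
    rcases Int.emod_two_eq_zero_or_one A.2 with h | h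
    · have h1 : (fs false A).1 = A.1 := by unfold fs; rw [e0, if_pos h]
      have h2 : (fs true A).1 = A.1 + 1 := by unfold fs; rw [e1, if_neg (by omega)]
      rw [h1, h2]
      push_cast
      ring
    · have h1 : (fs false A).1 = A.1 + 1 := by unfold fs; rw [e0, if_neg (by omega)]
      have h2 : (fs true A).1 = A.1 := by unfold fs; rw [e1, if_pos (by omega)]
      rw [h1, h2]
      push_cast
      ring

/-- the run up to the next multiple of `2 ^ u` -/
theorem fl_compl (l : List Bool) : fl l (0, 2 ^ l.length - bv l) = (0, 1) := by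
  induction l with
  | nil => simp [fl, bv]
  | cons b l ih =>
    simp only [fl, bv, List.length_cons]
    have e : vl b ((0 : ℕ), (2 : ℤ) ^ (l.length + 1) - (bz b + 2 * bv l)) = 2 * (2 ^ l.length - bv l) := by
      unfold vl
      simp only [pow_zero, one_mul, pow_succ]
      ring
    have e2 : fs b ((0 : ℕ), (2 : ℤ) ^ (l.length + 1) - (bz b + 2 * bv l)) = (0, 2 ^ l.length - bv l) := by
      unfold fs
      rw [e, if_pos (by omega)]
      congr 1
      omega
    rw [e2, ih]

/-- the two forms have the same level at the end -/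
noncomputable def same (u : ℕ) (l : List Bool) : ℝ :=
  if (fl l (0, 0)).1 = (fl l (0, 2 ^ u - bv (l.take u))).1 then 1 else 0

theorem same_nonneg (u : ℕ) (l : List Bool) : 0 ≤ same u l := by
  unfold same; split_ifs <;> norm_num

theorem av_same {u k : ℕ} (hu : 1 ≤ u) : av (u + k) (same u) ≤ 4 * (u + k) / (u : ℝ) ^ 2 := by
  have hur : (1 : ℝ) ≤ u := by exact_mod_cast hu
  have hu0 : (0 : ℝ) < u := by linarith
  set i0 : ℝ := (u : ℝ) / 2 with hi0
  have hi0p : 0 < i0 := by rw [hi0]; positivity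
  rw [av_append]
  have h1 : ∀ l : List Bool, l.length = u → av k (fun l' => same u (l ++ l')) ≤
      (1 / i0 ^ 2) * ((0 + (u : ℝ) / 2 - ((fl l (0, 0)).1 - ((0 : ℕ) : ℝ) : ℝ)) ^ 2 + k) := by
    intro l hl
    have h2 : ∀ l' : List Bool, l'.length = k → same u (l ++ l') ≤
        (1 / i0 ^ 2) * f0 i0 (st (fl l' (fl l (0, 0))) (fl l' (0, 1))) := by
      intro l' _
      unfold same
      have e1 : (l ++ l').take u = l := List.take_left' hl
      rw [e1, fl_append, fl_append]
      have e2 : fl l (0, 2 ^ u - bv l) = (0, 1) := by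
        rw [← hl]; exact fl_compl l
      rw [e2]
      split_ifs with h
      · have h3 : (st (fl l' (fl l (0, 0))) (fl l' (0, 1))).1 = 0 := by
          rw [st_fst, h]; omega
        unfold f0
        rw [h3]
        apply le_of_eq
        push_cast
        field_simp
        ring
      · unfold f0; positivity
    refine (av_mono h2).trans ?_
    rw [av_smul, av_pair (Ev_f0 i0)]
    apply mul_le_mul_of_nonneg_left _ (by positivity)
    refine (P_iter_f0 hi0p.le k _).trans (le_of_eq ?_)
    have h3 : (st (fl l (0, 0)) (0, 1)).1 = (fl l (0, 0)).1 := by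
      rw [st_fst]; omega
    unfold f0
    rw [h3, hi0]
    push_cast
    ring
  refine (av_mono h1).trans ?_
  rw [av_smul, av_add, av_const]
  have h2 := av_level u (0, 0) 0
  simp only at h2
  rw [h2]
  have e : (1 / i0 ^ 2) * ((0 : ℝ) ^ 2 + (u : ℝ) / 4 + k) = 4 * ((u : ℝ) / 4 + k) / (u : ℝ) ^ 2 := by
    rw [hi0]
    field_simp
    ring
  rw [e]
  apply div_le_div_of_nonneg_right _ (by positivity)
  linarith

theorem bv_nonneg (l : List Bool) : 0 ≤ bv l := by
  induction l with
  | nil => simp [bv]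
  | cons b l ih =>
    have : 0 ≤ bz b := by unfold bz; split_ifs <;> norm_num
    simp only [bv]; omega

theorem bv_lt (l : List Bool) : bv l < 2 ^ l.length := by
  induction l with
  | nil => simp [bv]
  | cons b l ih =>
    have : bz b ≤ 1 := by unfold bz; split_ifs <;> norm_num
    simp only [bv, List.length_cons, pow_succ]; omega

theorem Tz_iter_neg (k : ℕ) : ∀ x : ℤ, x < 0 → (Tz 1)^[k] x < 0 := by
  induction k with
  | zero => intro x hx; exact hx
  | succ k ih =>
    intro x hx
    rw [Function.iterate_succ_apply]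
    apply ih
    unfold Tz
    split_ifs <;> omega

theorem Tz_iter_nonneg (k : ℕ) : ∀ x : ℤ, 0 ≤ x → 0 ≤ (Tz 1)^[k] x := by
  induction k with
  | zero => intro x hx; exact hx
  | succ k ih =>
    intro x hx
    rw [Function.iterate_succ_apply]
    apply ih
    unfold Tz
    split_ifs <;> omega

/-- size of the constant term -/
theorem fl_const {l : List Bool} {h : ℤ} (h0 : 0 ≤ h) {q : ℤ} (hq : bv l + h < q * 2 ^ l.length) :
    0 ≤ (fl l (0, h)).2 ∧ (fl l (0, h)).2 < q * 3 ^ (fl l (0, h)).1 := by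
  constructor
  · have h1 := Tz_ev_iter l (0, h) 0
    have h2 : ev (fl l (0, h)) 0 = (fl l (0, h)).2 := by unfold ev; ring
    rw [h2] at h1
    rw [← h1]
    apply Tz_iter_nonneg
    unfold ev
    have := bv_nonneg l
    simp only [pow_zero, one_mul]
    omega
  · have h1 := Tz_ev_iter l (0, h) (-q)
    have h2 : ev (fl l (0, h)) (-q) = (fl l (0, h)).2 - q * 3 ^ (fl l (0, h)).1 := by unfold ev; ring
    rw [h2] at h1
    have h3 : (Tz 1)^[l.length] (ev (0, h) (2 ^ l.length * -q + bv l)) < 0 := by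
      apply Tz_iter_neg
      unfold ev
      simp only [pow_zero, one_mul]
      linarith
    linarith

theorem level_eq {j1 j2 : ℕ} {c1 c2 : ℤ} (h1 : 0 ≤ c1) (h1' : c1 < 1 * 3 ^ j1) (h2 : 0 ≤ c2)
    (h2' : c2 < 2 * 3 ^ j2) (h : (3 : ℤ) ^ j1 * 1 + c1 = 3 ^ j2 * 1 + c2) : j1 = j2 := by
  rcases lt_trichotomy j1 j2 with hlt | heq | hgt
  · exfalso
    have h3 : (3 : ℤ) ^ (j1 + 1) ≤ 3 ^ j2 := pow_le_pow_right₀ (by norm_num) hlt
    rw [pow_succ] at h3
    have : (0 : ℤ) < 3 ^ j1 := by positivity
    linarith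
  · exact heq
  · exfalso
    have h3 : (3 : ℤ) ^ (j2 + 1) ≤ 3 ^ j1 := pow_le_pow_right₀ (by norm_num) hgt
    rw [pow_succ] at h3
    linarith

theorem take_bits (u k : ℕ) : ∀ n : ℕ, (bits (u + k) n).take u = bits u n := by
  induction u with
  | zero => intro n; simp [bits]
  | succ u ih =>
    intro n
    rw [show u + 1 + k = (u + k) + 1 by ring]
    simp only [bits, List.take_succ_cons, ih]

theorem bv_bits_mod (u n : ℕ) : bv (bits u n) = ((n % 2 ^ u : ℕ) : ℤ) := by
  have h1 := bv_bits u n
  have h2 := Nat.div_add_mod n (2 ^ u)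
  have h3 : ((2 ^ u * (n / 2 ^ u) + n % 2 ^ u : ℕ) : ℤ) = n := by rw [h2]
  push_cast at h1 h3 ⊢
  linarith

/-- for `n` in the dyadic block of `s`, the run up to the next multiple of `2 ^ u` has not merged -/
theorem not_merged {u k n : ℕ} (h1 : 2 ^ (u + k) ≤ n) (h2 : n < 2 ^ (u + k + 1))
    (hs : same u (bits (u + k) n) = 0) :
    (Tz 1)^[u + k] ((n : ℤ) + ((2 ^ u - n % 2 ^ u : ℕ) : ℤ)) ≠ (Tz 1)^[u + k] (n : ℤ) := by
  intro hcon
  have hmod : n % 2 ^ u < 2 ^ u := Nat.mod_lt _ (by positivity)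
  have hdiv : n / 2 ^ (u + k) = 1 := by
    apply Nat.div_eq_of_lt_le
    · omega
    · rw [pow_succ] at h2; omega
  set l := bits (u + k) n with hl
  have hlen : l.length = u + k := length_bits _ _
  have e1 := iter_form (u + k) n (2 ^ u - n % 2 ^ u)
  have e2 := iter_form (u + k) n 0
  rw [hdiv, ← hl] at e1 e2
  have ecast : ((2 ^ u - n % 2 ^ u : ℕ) : ℤ) = 2 ^ u - bv (l.take u) := by
    rw [hl, take_bits, bv_bits_mod]
    rw [Nat.cast_sub hmod.le]
    push_cast
    rfl
  rw [e1] at hcon
  simp only [Nat.cast_zero, add_zero] at e2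
  rw [e2, ecast] at hcon
  have hbv := bv_lt l
  rw [hlen] at hbv
  have hpow : (2 : ℤ) ^ u ≤ 2 ^ (u + k) := pow_le_pow_right₀ (by norm_num) (by omega)
  have hb1 := bv_nonneg (l.take u)
  have hb2 := bv_lt (l.take u)
  have hlt : (l.take u).length = u := by rw [List.length_take, hlen]; omega
  rw [hlt] at hb2
  have c1 := fl_const (l := l) (h := 0) le_rfl (q := 1) (by rw [hlen]; linarith)
  have c2 := fl_const (l := l) (h := 2 ^ u - bv (l.take u)) (by linarith) (q := 2)
    (by rw [hlen]; linarith)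
  unfold ev at hcon
  have hlev := level_eq c1.1 c1.2 c2.1 c2.2 (by push_cast at hcon; exact hcon.symm)
  unfold same at hs
  rw [if_pos hlev] at hs
  norm_num at hs

end Pool.Agent.W38.CR
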