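import Mathlib
import Pool.Agent.W785.DF.Stubs2

/-!
Smoothness and derivatives in time of trigonometric vector fields with smooth coefficients, and
the gluing of a smooth cut-off.
-/

open MeasureTheory Set
open scoped ContDiff InnerProductSpace

namespace Pool.Agent.W38.DFTime

open H459R3.NS (V K3 Per pd fr ee cube)
open Pool.Agent.W785.DF

/-- the glued function -/
theorem glue (T0 : ℝ) (hT : 0 ≤ T0) (χ : ℝ → ℝ) (hχ : ContDiff ℝ ∞ χ)
    (h0 : ∀ t, T0 + 1 ≤ t → χ t = 0) (a : ℝ → E3) (ha : ContDiffOn ℝ ∞ a (Icc 0 (T0 + 2))) :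
    ContDiffOn ℝ ∞ (fun t => χ t • a t) (Ici 0) ∧
    (∀ (a' : E3) (t : ℝ), 0 ≤ t → t ≤ T0 + 1 → HasDerivWithinAt a a' (Icc 0 (T0 + 2)) t →
      HasDerivWithinAt (fun t => χ t • a t) (deriv χ t • a t + χ t • a') (Ici 0) t) ∧
    ∀ t, T0 + 1 ≤ t → HasDerivWithinAt (fun t => χ t • a t) 0 (Ici 0) t := by
  have hχd : Differentiable ℝ χ := hχ.differentiable (by simp)
  -- the derivative of χ vanishes at and after T0 + 1
  have hd0 : ∀ t, T0 + 1 ≤ t → deriv χ t = 0 := by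
    intro t ht
    have h1 : HasDerivWithinAt χ (deriv χ t) (Ici t) t := (hχd t).hasDerivAt.hasDerivWithinAt
    have h2 : HasDerivWithinAt χ 0 (Ici t) t := by
      refine (hasDerivWithinAt_const t (Ici t) (0 : ℝ)).congr ?_ ?_
      · intro s hs; exact h0 s (ht.trans hs)
      · exact h0 t ht
    exact (uniqueDiffWithinAt_Ici t).eq_deriv _ h1 h2
  have key : ∀ (a' : E3) (t : ℝ), 0 ≤ t → t ≤ T0 + 1 → HasDerivWithinAt a a' (Icc 0 (T0 + 2)) t →
      HasDerivWithinAt (fun t => χ t • a t) (deriv χ t • a t + χ t • a') (Ici 0) t := by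
    intro a' t ht ht1 h
    have h1 : HasDerivWithinAt (fun t => χ t • a t) (χ t • a' + deriv χ t • a t)
        (Icc 0 (T0 + 2)) t := (hχd t).hasDerivAt.hasDerivWithinAt.smul h
    rw [add_comm] at h1
    refine h1.mono_of_mem_nhdsWithin ?_
    rw [mem_nhdsWithin]
    refine ⟨Iio (T0 + 2), isOpen_Iio, by simp only [mem_Iio]; linarith, ?_⟩
    rintro s ⟨hs1, hs2⟩
    exact ⟨hs2, le_of_lt hs1⟩
  refine ⟨?_, key, ?_⟩
  · intro t ht
    by_cases htt : t < T0 + 2
    · have h1 : ContDiffWithinAt ℝ ∞ (fun t => χ t • a t) (Icc 0 (T0 + 2)) t :=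
        hχ.contDiffAt.contDiffWithinAt.smul (ha t ⟨ht, htt.le⟩)
      refine h1.mono_of_mem_nhdsWithin ?_
      rw [mem_nhdsWithin]
      refine ⟨Iio (T0 + 2), isOpen_Iio, htt, ?_⟩
      rintro s ⟨hs1, hs2⟩
      exact ⟨hs2, le_of_lt hs1⟩
    · have h1 : (fun t => χ t • a t) =ᶠ[nhds t] fun _ => (0 : E3) := by
        filter_upwards [lt_mem_nhds (show T0 + 1 < t by linarith [not_lt.mp htt])] with s hs
        rw [h0 s (le_of_lt hs), zero_smul]
      exact (contDiffAt_const.congr_of_eventuallyEq h1).contDiffWithinAt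
  · intro t ht
    rcases eq_or_lt_of_le ht with he | hl
    · -- t = T0 + 1
      subst he
      have hmem : T0 + 1 ∈ Icc (0 : ℝ) (T0 + 2) := ⟨by linarith, by linarith⟩
      have h1 : HasDerivWithinAt a (derivWithin a (Icc 0 (T0 + 2)) (T0 + 1)) (Icc 0 (T0 + 2))
          (T0 + 1) :=
        ((ha.differentiableOn (by simp)) _ hmem).hasDerivWithinAt
      have h2 := key _ (T0 + 1) (by linarith) le_rfl h1
      rw [hd0 _ le_rfl, h0 _ le_rfl, zero_smul, zero_smul, add_zero] at h2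
      exact h2
    · have h1 : (fun t => χ t • a t) =ᶠ[nhds t] fun _ => (0 : E3) := by
        filter_upwards [lt_mem_nhds hl] with s hs
        rw [h0 s (le_of_lt hs), zero_smul]
      exact ((hasDerivAt_const t (0 : E3)).congr_of_eventuallyEq h1).hasDerivWithinAt

/-- smoothness of sums -/
theorem tp_smooth (S : Finset K3) (π : ℝ → K3 → ℂ)
    (h : ∀ k, ContDiffOn ℝ ∞ (fun t => π t k) (Ici 0)) :
    ContDiffOn ℝ ∞ (fun z : ℝ × V => tp S (π z.1) z.2) (Ici 0 ×ˢ univ) := by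
  have h1 : ContDiffOn ℝ ∞ (fun z : ℝ × V => ∑ k ∈ S, π z.1 k * ee k z.2) (Ici 0 ×ˢ univ) := by
    refine ContDiffOn.sum fun k _ => ?_
    refine ContDiffOn.mul ?_ ?_
    · exact (h k).comp contDiff_fst.contDiffOn fun z hz => hz.1
    · exact ((H459R3.NS.ee_contDiff k).comp contDiff_snd).contDiffOn
  exact (Complex.reCLM.contDiff (n := ∞)).comp_contDiffOn h1

/-- coordinates -/
theorem coord_smooth (b : ℝ → E3) (i : Fin 3) (h : ContDiffOn ℝ ∞ b (Ici 0)) :
    ContDiffOn ℝ ∞ (fun t => b t i) (Ici 0) := by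
  have h2 : ContDiff ℂ ∞ (fun v : E3 => v i) := (EuclideanSpace.proj i : E3 →L[ℂ] ℂ).contDiff
  exact (h2.restrict_scalars ℝ).comp_contDiffOn h

theorem coord_deriv (b : ℝ → E3) (b' : E3) (t : ℝ) (i : Fin 3)
    (h : HasDerivWithinAt b b' (Ici 0) t) :
    HasDerivWithinAt (fun s => b s i) (b' i) (Ici 0) t := by
  have h2 := ((EuclideanSpace.proj i : E3 →L[ℂ] ℂ).restrictScalars ℝ).hasFDerivAt
    (x := b t)
  exact h2.comp_hasDerivWithinAt t h

theorem main : S_time := by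
  refine ⟨fun T0 hT χ hχ h0 a ha => glue T0 hT χ hχ h0 a ha, ?_, tp_smooth⟩
  intro S b hb
  refine ⟨?_, ?_⟩
  · rw [contDiffOn_pi]
    intro i
    exact tp_smooth S (fun t k => b t k i) fun k => coord_smooth _ i (hb k)
  · intro t _ b' hb' x i
    have h1 : HasDerivWithinAt (fun s => ∑ k ∈ S, b s k i * ee k x)
        (∑ k ∈ S, b' k i * ee k x) (Ici 0) t := by
      refine HasDerivWithinAt.fun_sum fun k hk => ?_
      exact (coord_deriv _ _ t i (hb' k hk)).mul_const _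
    exact (Complex.reCLM.hasFDerivAt).comp_hasDerivWithinAt t h1

end Pool.Agent.W38.DFTime
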