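import Pool.Agent.H366R2.DensFinal

/-! Uniform positive density of predecessor sets: the counting lemma with a two sided window, and
the hitting lemma with a bound for the sizes. -/

set_option autoImplicit false

namespace Pool.Agent.W38.UPD

open Finset Pool.Agent.H320R2.PD Pool.Agent.H320R2.PD.Cnt Pool.Agent.H366R2.PDK
  Pool.Agent.H366R2.KGen

/-- the number of nice valid words in the window -/
theorem count_window2 (quenched : QStmt) {N0 N : ℕ} (hN : N0 ≤ N) :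
    ∃ K : ℝ, 1 ≤ K ∧ ∀ Y : ℝ, K ≤ Y → ∀ x : ℤ,
      (∀ A n : ℕ, N ≤ n → 3 * n ≤ A → (1 / 4 : ℝ) ≤ U N0 A n x (fun _ => 1)) →
      ∃ A : ℕ, ∃ S : Finset (List ℕ),
      (∀ w ∈ S, w ∈ VW N0 A w.length x ∧ Y / 2 ≤ (2 : ℝ) ^ w.sum / 3 ^ w.length ∧
        (2 : ℝ) ^ w.sum / 3 ^ w.length ≤ Y ∧ N0 ≤ w.length ∧ (w.length : ℝ) ≤ 17 * Real.log Y) ∧
        Y / 64 ≤ S.card := by
  classical
  obtain ⟨N1, C, hC, hq⟩ := quenched N0
  -- how large `n0` must be
  set K0 : ℕ := max (max N N1) (max 11200 (⌈8704 * C⌉₊)) with hK0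
  refine ⟨2 * 4 ^ K0, ?_, fun Y hY x h => ?_⟩
  · have : (1 : ℝ) ≤ 4 ^ K0 := one_le_pow₀ (by norm_num)
    linarith
  have hY2 : (4 : ℝ) ^ K0 ≤ Y / 2 := by linarith
  have hYpos : 0 < Y := by
    have : (0 : ℝ) < 4 ^ K0 := by positivity
    linarith
  set n0 : ℕ := Nat.log 4 ⌊Y / 2⌋₊ with hn0
  have hfl : 4 ^ K0 ≤ ⌊Y / 2⌋₊ := Nat.le_floor (by exact_mod_cast hY2)
  have hfl0 : ⌊Y / 2⌋₊ ≠ 0 := by
    have : 0 < 4 ^ K0 := by positivity
    omega
  have hK0n : K0 ≤ n0 := Nat.le_log_of_pow_le (by norm_num) hfl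
  have hlow : (4 : ℝ) ^ n0 ≤ Y / 2 := by
    have h1 : 4 ^ n0 ≤ ⌊Y / 2⌋₊ := Nat.pow_log_le_self 4 hfl0
    have h2 : ((4 ^ n0 : ℕ) : ℝ) ≤ (⌊Y / 2⌋₊ : ℝ) := by exact_mod_cast h1
    have h3 : ((⌊Y / 2⌋₊ : ℕ) : ℝ) ≤ Y / 2 := Nat.floor_le (by linarith)
    push_cast at h2
    linarith
  have hup : Y / 2 < (4 : ℝ) ^ (n0 + 1) := by
    have h1 : ⌊Y / 2⌋₊ < 4 ^ (n0 + 1) := Nat.lt_pow_succ_log_self (by norm_num) _
    have h2 : ((⌊Y / 2⌋₊ : ℕ) : ℝ) + 1 ≤ (4 : ℝ) ^ (n0 + 1) := by exact_mod_cast h1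
    have h3 := Nat.lt_floor_add_one (Y / 2)
    linarith
  have k1 : N ≤ n0 := ((le_max_left _ _).trans (le_max_left _ _)).trans hK0n
  have k2 : N1 ≤ n0 := ((le_max_right _ _).trans (le_max_left _ _)).trans hK0n
  have k3 : 11200 ≤ n0 := ((le_max_left _ _).trans (le_max_right _ _)).trans hK0n
  have k4 : 8704 * C ≤ n0 := by
    have h1 : ⌈8704 * C⌉₊ ≤ n0 := ((le_max_right _ _).trans (le_max_right _ _)).trans hK0n
    exact (Nat.le_ceil _).trans (by exact_mod_cast h1)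
  set m : ℕ := 8 * (n0 + 1) with hm
  set A : ℕ := 3 * (n0 + m) with hA
  have hpot := pot (N0 := N0) (A := A) (N1 := N1) (x := x) (Y := Y) (C := C) hC.le
    (fun n hn hA B hB f hf => hq n hn A hA x B hB f hf) (n0 := n0) (by omega) (M := m) m n0 le_rfl
    k2 le_rfl le_rfl
  -- the potential at the start
  have hstart : (1 : ℝ) / 16 ≤ U N0 A n0 x (Gf A Y m n0) := by
    have h1 : U N0 A n0 x (fun _ => (1 / 4 : ℝ)) ≤ U N0 A n0 x (Gf A Y m n0) := by
      apply U_mono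
      intro w hw
      obtain ⟨hwF, hwn, _⟩ := mem_VW.1 hw
      obtain ⟨hwl, hwe⟩ := mem_FW.1 hwF
      have h2 := hwn n0 (hN.trans k1) hwl.ge
      rw [← hwl, List.take_length, hwl] at h2
      have h3 := GH A (Y := Y) m n0 w.sum (below hlow h2.2)
      have h4 := Hf_ge A Y m n0 w.sum (by omega) (by omega)
        (fun t ht => above hup (sum_le_of_mem hwF).1 ht)
      linarith
    rw [Pool.Agent.H320R2.PD.Cnt.U_const] at h1
    have h2 := h A n0 k1 (by omega)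
    linarith
  have herr : (m : ℝ) * (m * C / (n0 : ℝ) ^ 3) ≤ 1 / 32 := by
    have hn0' : (1 : ℝ) ≤ n0 := by
      have : 1 ≤ n0 := by omega
      exact_mod_cast this
    have hm' : (m : ℝ) ≤ 16 * n0 := by
      rw [hm]; push_cast; linarith
    have h1 : (m : ℝ) * m ≤ 256 * n0 ^ 2 := by nlinarith [show (0 : ℝ) ≤ m by positivity]
    calc (m : ℝ) * (m * C / (n0 : ℝ) ^ 3) = (m * m) * C / n0 ^ 3 := by ring
      _ ≤ (256 * n0 ^ 2) * C / n0 ^ 3 := by
          apply div_le_div_of_nonneg_right _ (by positivity)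
          exact mul_le_mul_of_nonneg_right h1 hC.le
      _ = 256 * C / n0 := by field_simp
      _ ≤ 1 / 32 := by
          rw [div_le_iff₀ (by positivity)]
          linarith
  have hsum : (1 : ℝ) / 32 ≤ ∑ i ∈ range (m + 1), U N0 A (n0 + i) x (win Y (n0 + i)) := by
    linarith
  -- the words in the window
  set Sn : ℕ → Finset (List ℕ) := fun i => (VW N0 A (n0 + i) x).filter
    (fun w => win Y (n0 + i) w.sum = 1) with hSn
  have hlenS : ∀ i, ∀ w ∈ Sn i, w.length = n0 + i := by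
    intro i w hw
    have h1 := (Finset.mem_filter.1 hw).1
    exact (mem_FW.1 (mem_VW.1 h1).1).1
  have hSi : ∀ i, U N0 A (n0 + i) x (win Y (n0 + i)) ≤ (2 / Y) * (Sn i).card := by
    intro i
    rw [U_eq]
    calc ∑ w ∈ VW N0 A (n0 + i) x, (3 : ℝ) ^ (n0 + i) / 2 ^ w.sum * win Y (n0 + i) w.sum
        ≤ ∑ w ∈ VW N0 A (n0 + i) x, if win Y (n0 + i) w.sum = 1 then 2 / Y else 0 := by
          refine Finset.sum_le_sum fun w _ => ?_
          by_cases hw : win Y (n0 + i) w.sum = 1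
          · rw [if_pos hw, hw, mul_one]
            unfold win at hw
            split_ifs at hw with h1
            · rw [div_le_div_iff₀ (by positivity) hYpos]
              have h2 := h1.1
              rw [lt_div_iff₀ (by positivity)] at h2
              linarith
            · norm_num at hw
          · rw [if_neg hw]
            unfold win at hw ⊢
            split_ifs at hw ⊢ with h1
            · exact absurd rfl hw
            · simp
      _ = (2 / Y) * (Sn i).card := by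
          rw [← Finset.sum_filter, Finset.sum_const, nsmul_eq_mul, mul_comm]
  refine ⟨A, (range (m + 1)).biUnion Sn, ?_, ?_⟩
  · intro w hw
    obtain ⟨i, hir, hi⟩ := Finset.mem_biUnion.1 hw
    have h1 := Finset.mem_filter.1 hi
    rw [hlenS i w hi]
    have hi' : i ≤ m := by
      have := Finset.mem_range.1 hir
      omega
    have h21 := h1.2
    unfold win at h21
    split_ifs at h21 with h3
    swap
    · norm_num at h21
    refine ⟨h1.1, h3.1.le, h3.2, by omega, ?_⟩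
    · have h5 : (n0 : ℝ) ≤ Real.log Y := by
        have h6 : (4 : ℝ) ^ n0 ≤ Y := by linarith
        have h7 := Real.log_le_log (by positivity) h6
        rw [Real.log_pow] at h7
        have h8 : (1 : ℝ) ≤ Real.log 4 := by
          rw [Real.le_log_iff_exp_le (by norm_num)]
          have := Real.exp_one_lt_d9
          linarith
        have h9 : (0 : ℝ) ≤ n0 := by positivity
        nlinarith
      have h6 : (((n0 + i : ℕ)) : ℝ) ≤ 17 * n0 := by
        have : n0 + i ≤ 17 * n0 := by omega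
        exact_mod_cast this
      linarith
  · rw [Finset.card_biUnion]
    · push_cast
      have h1 : (1 : ℝ) / 32 ≤ (2 / Y) * ∑ i ∈ range (m + 1), ((Sn i).card : ℝ) := by
        rw [Finset.mul_sum]
        exact hsum.trans (Finset.sum_le_sum fun i _ => hSi i)
      have h2 : Y * (1 / 32) ≤ Y * ((2 / Y) * ∑ i ∈ range (m + 1), ((Sn i).card : ℝ)) :=
        mul_le_mul_of_nonneg_left h1 hYpos.le
      have h3 : Y * ((2 / Y) * ∑ i ∈ range (m + 1), ((Sn i).card : ℝ)) =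
          2 * ∑ i ∈ range (m + 1), ((Sn i).card : ℝ) := mul_aux hYpos _
      linarith
    · intro i _ j _ hij
      rw [Function.onFun, Finset.disjoint_left]
      intro w hw hw'
      have h1 := hlenS i w hw
      have h2 := hlenS j w hw'
      omega


/-- the uniform counting lemma with a two sided window -/
theorem count2 (quenched : QStmt) {N0 N : ℕ} (hN : N0 ≤ N) :
    ∃ K : ℝ, 1 ≤ K ∧ ∀ Y : ℝ, K ≤ Y → ∀ x : ℤ,
      (∀ A n : ℕ, N ≤ n → 3 * n ≤ A → (1 / 4 : ℝ) ≤ U N0 A n x (fun _ => 1)) →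
      ∃ S : Finset (List ℕ),
      (∀ w ∈ S, (∀ e ∈ w, 1 ≤ e) ∧ (3 : ℤ) ^ w.length ∣ 2 ^ w.sum * x - Wo w ∧
        Y * 3 ^ w.length ≤ 2 * (2 : ℝ) ^ w.sum ∧
        (2 : ℝ) ^ w.sum ≤ Y * 3 ^ w.length ∧ (Wo w : ℝ) ≤ 5 * 2 ^ N0 * 2 ^ w.sum ∧
        (w.sum : ℝ) ≤ 35 * Real.log Y) ∧
        Y / 64 ≤ S.card := by
  obtain ⟨K, hK1, hK⟩ := count_window2 quenched hN
  refine ⟨K, hK1, fun Y hY x h => ?_⟩
  obtain ⟨A, S, hS, hc⟩ := hK Y hY x h
  refine ⟨S, fun w hw => ?_, hc⟩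
  obtain ⟨h1, h2', h2, h3, h4⟩ := hS w hw
  obtain ⟨h5, h6, h7⟩ := mem_VW.1 h1
  have h8 : ∀ e ∈ w, 1 ≤ e := fun e he => ((mem_FW.1 h5).2 e he).1
  have hp : (0 : ℝ) < 3 ^ w.length := by positivity
  have h2'' : Y * 3 ^ w.length ≤ 2 * (2 : ℝ) ^ w.sum := by
    rw [le_div_iff₀ hp] at h2'
    linarith
  refine ⟨h8, h7, h2'', (div_le_iff₀ hp).1 h2, Wo_nice_le h8 h6, ?_⟩
  have h9 := (h6 w.length h3 le_rfl).2
  rw [List.take_length] at h9
  have h10 : (20 : ℝ) * w.sum ≤ 41 * w.length := by exact_mod_cast h9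
  have h11 : 0 ≤ Real.log Y := Real.log_nonneg (hK1.trans hY)
  linarith

open Pool.Agent.H412R2 in
/-- every class mod `3^N` prime to 3 is hit by words whose number of letters is bounded
independently of the root -/
theorem hit2 (N : ℕ) (r : ℤ) (hr : ¬ (3 : ℤ) ∣ r) :
    ∃ E n₁ : ℕ, ∀ a : ℤ, ¬ (3 : ℤ) ∣ a → ∃ (n s : ℕ) (z : ℤ), n ≤ n₁ ∧ z ∈ tr 3 E n s a ∧
      ((3 : ℤ) ^ N ∣ z - r ∨ (3 : ℤ) ^ N ∣ z - 2 * r) := by
  classical
  set T := max 20 N with hT
  have hT20 : 20 ≤ T := le_max_left _ _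
  have hNT : N ≤ T := le_max_right _ _
  have hc := c2_gt
  have hη : (0 : ℝ) ≤ c2 / 4 := by linarith
  set κ := ker 0 T hη hT20 with hκ
  set ε : ℝ := 1 / (2 * 3 ^ T) with hε
  have hε0 : 0 < ε := by positivity
  set Pr : ℤ → Prop := fun x => (3 : ℤ) ^ N ∣ x - r ∨ (3 : ℤ) ^ N ∣ x - 2 * r with hPr
  set g : ℤ → ℝ := fun x => (if Pr x then 1 else 0) - ε with hg
  have hPs : ∀ x y : ℤ, Pr (x + (3 : ℤ) ^ (T + 1) * y) ↔ Pr x := by
    intro x y
    have hd : (3 : ℤ) ^ N ∣ (3 : ℤ) ^ (T + 1) * y :=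
      Dvd.dvd.mul_right (pow_dvd_pow 3 (by omega)) y
    have e1 : x + (3 : ℤ) ^ (T + 1) * y - r = (x - r) + (3 : ℤ) ^ (T + 1) * y := by ring
    have e2 : x + (3 : ℤ) ^ (T + 1) * y - 2 * r = (x - 2 * r) + (3 : ℤ) ^ (T + 1) * y := by ring
    simp only [hPr]
    rw [e1, e2, dvd_add_left hd, dvd_add_left hd]
  have hgper : ∀ x y : ℤ, ¬ ((3 : ℕ) : ℤ) ∣ x → g (x + ((3 : ℕ) : ℤ) ^ (T + 1) * y) = g x := by
    intro x y _
    simp only [hg]
    push_cast
    rw [if_congr (hPs x y) rfl rfl]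
  have hpos : ∀ r0 ∈ Finset.Ico 1 3,
      0 < ∑ x ∈ (Finset.range (3 ^ (T + 1))).filter (fun x => x % 3 = r0), g (x : ℤ) := by
    intro r0 hr0
    have hr0' := Finset.mem_Ico.1 hr0
    set C := (Finset.range (3 ^ (T + 1))).filter (fun x => x % 3 = r0) with hC
    have hCc : (C.card : ℝ) = 3 ^ T := by
      have := class_card T r0 hr0
      rw [hC, this]; push_cast; ring
    obtain ⟨u, hu, hu3⟩ : ∃ u : ℤ, (u = r ∨ u = 2 * r) ∧ u % 3 = (r0 : ℤ) := by
      have h1 : r % 3 = 1 ∨ r % 3 = 2 := by omega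
      by_cases h2 : r % 3 = (r0 : ℤ)
      · exact ⟨r, Or.inl rfl, h2⟩
      · exact ⟨2 * r, Or.inr rfl, by omega⟩
    have hM : (0 : ℤ) < 3 ^ (T + 1) := by positivity
    set x0 := (u % 3 ^ (T + 1)).toNat with hx0
    have hx0c : ((x0 : ℕ) : ℤ) = u % 3 ^ (T + 1) := Int.toNat_of_nonneg (Int.emod_nonneg _ hM.ne')
    have hx0l : x0 < 3 ^ (T + 1) := by
      have := Int.emod_lt_of_pos u hM
      rw [← hx0c] at this
      exact_mod_cast this
    have hx0d : ((x0 : ℕ) : ℤ) = u + 3 ^ (T + 1) * (-(u / 3 ^ (T + 1))) := by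
      rw [hx0c, Int.emod_def]; ring
    have hx0m : x0 % 3 = r0 := by
      have h3 : ((x0 : ℕ) : ℤ) % 3 = u % 3 := by
        rw [hx0c]
        exact Int.emod_emod_of_dvd u (dvd_pow_self 3 (by omega))
      omega
    have hmem : x0 ∈ C := by
      rw [hC, Finset.mem_filter, Finset.mem_range]
      exact ⟨hx0l, hx0m⟩
    have hPx : Pr (x0 : ℤ) := by
      rw [hx0d, hPs]
      simp only [hPr]
      rcases hu with h | h
      · left; rw [h]; simp
      · right; rw [h]; simp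
    have hlow : (1 : ℝ) ≤ ∑ x ∈ C, (if Pr (x : ℤ) then (1 : ℝ) else 0) := by
      have := Finset.single_le_sum (f := fun x : ℕ => (if Pr (x : ℤ) then (1 : ℝ) else 0))
        (fun x _ => by split_ifs <;> norm_num) hmem
      simpa [hPx] using this
    have hsum : ∑ x ∈ C, g (x : ℤ) = (∑ x ∈ C, (if Pr (x : ℤ) then (1 : ℝ) else 0)) - 1 / 2 := by
      simp only [hg]
      rw [Finset.sum_sub_distrib, Finset.sum_const, nsmul_eq_mul, hCc, hε]
      congr 1
      field_simp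
    rw [hsum]
    linarith
  obtain ⟨n, _, hn⟩ := positive κ Nat.prime_three (by norm_num) (by omega) g hgper hpos
  refine ⟨6 * T, T * n, fun a ha => ?_⟩
  have ha' : ¬ ((3 : ℕ) : ℤ) ∣ a := by exact_mod_cast ha
  obtain ⟨i, hin, hi⟩ := Finset.exists_lt_of_sum_lt (f := fun _ => (0 : ℝ))
    (by simpa using hn a ha')
  obtain ⟨s, z, hp, hz⟩ := path_of_pos κ g i a hi
  refine ⟨T * i, s, z, ?_, path_tr hp, ?_⟩
  · exact Nat.mul_le_mul_left T (Finset.mem_range.1 hin).le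
  · by_contra hc
    simp only [hg] at hz
    rw [if_neg hc] at hz
    linarith

end Pool.Agent.W38.UPD
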