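import Pool.Agent.W38.UPDa

/-! Uniform positive density of predecessor sets of the `3x+1` map. -/

set_option autoImplicit false

namespace Pool.Agent.W38.UPD

open Finset Pool.Agent.H320R2.PD Pool.Agent.H320R2.PD.Cnt Pool.Agent.H366R2.PDK
  Pool.Agent.H366R2.KGen

open Pool.Agent.H412R2 in
theorem tr_facts {E n : ℕ} : ∀ {s : ℕ} {x z : ℤ}, z ∈ tr 3 E n s x →
    (TK 1)^[s] z = x ∧ s ≤ E * n ∧ (0 < x → 0 < z) := by
  induction n with
  | zero =>
    intro s x z hz
    rw [mem_tr_zero] at hz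
    obtain ⟨rfl, rfl⟩ := hz
    simp
  | succ n ih =>
    intro s x z hz
    obtain ⟨e, b, he, heE, hes, hb, hz'⟩ := (mem_tr_succ (by norm_num)).1 hz
    push_cast at hb
    obtain ⟨h1, h2, h3⟩ := ih hz'
    obtain ⟨d, rfl⟩ : ∃ d, s = e + d := ⟨s - e, by omega⟩
    have e1 : e + d - e = d := by omega
    rw [e1] at h1 h2
    refine ⟨?_, ?_, fun hx => h3 ?_⟩
    · rw [Function.iterate_add_apply, h1]
      exact TK_letter (by norm_num) he hb
    · rw [Nat.mul_succ]; omega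
    · have h4 : (2 : ℤ) ≤ 2 ^ e := by
        calc (2 : ℤ) = 2 ^ 1 := by norm_num
          _ ≤ 2 ^ e := pow_le_pow_right₀ (by norm_num) he
      have h5 : (2 : ℤ) ≤ 2 ^ e * x := by nlinarith
      omega

theorem TK_pos {z : ℤ} (hz : 0 < z) : 0 < TK 1 z ∧ TK 1 z ≤ 2 * z := by
  unfold TK
  split_ifs <;> omega

theorem iter_pos (j : ℕ) : ∀ {z : ℤ}, 0 < z → 0 < (TK 1)^[j] z ∧ (TK 1)^[j] z ≤ 2 ^ j * z := by
  induction j with
  | zero => intro z hz; simp [hz]
  | succ j ih =>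
    intro z hz
    rw [Function.iterate_succ_apply]
    obtain ⟨h1, h2⟩ := TK_pos hz
    obtain ⟨h3, h4⟩ := ih h1
    refine ⟨h3, h4.trans ?_⟩
    rw [pow_succ]
    have : (0 : ℤ) < 2 ^ j := by positivity
    nlinarith

/-- two periodic points with the same image are equal -/
theorem per_inj {u v : ℤ} {p q : ℕ} (hp : 1 ≤ p) (hq : 1 ≤ q) (hu : (TK 1)^[p] u = u)
    (hv : (TK 1)^[q] v = v) (h : TK 1 u = TK 1 v) : u = v := by
  have h1 := iter_periodicK hu q
  have h2 := iter_periodicK hv p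
  rw [mul_comm q p] at h2
  obtain ⟨m, hm⟩ : ∃ m, p * q = m + 1 := ⟨p * q - 1, by
    have : 1 ≤ p * q := Nat.one_le_iff_ne_zero.2 (by positivity)
    omega⟩
  rw [hm, Function.iterate_succ_apply] at h1 h2
  rw [← h1, ← h2, h]

/-- an iterate of a periodic point is periodic, contrapositive -/
theorem nonper_of {z a : ℤ} {i : ℕ} (h : (TK 1)^[i] z = a)
    (ha : ∀ j, 1 ≤ j → (TK 1)^[j] a ≠ a) : ∀ j, 1 ≤ j → (TK 1)^[j] z ≠ z := by
  intro j hj hz
  apply ha j hj
  rw [← h, ← Function.iterate_add_apply, add_comm, Function.iterate_add_apply, hz]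

/-- a non-periodic point close above `a` -/
theorem exists_nonper {a : ℤ} (ha0 : 0 < a) (ha : ¬ (3 : ℤ) ∣ a) : ∃ (z : ℤ) (i : ℕ), 0 < z ∧
    ¬ (3 : ℤ) ∣ z ∧ z ≤ 16 * a ∧ i ≤ 4 ∧ (TK 1)^[i] z = a ∧ ∀ j, 1 ≤ j → (TK 1)^[j] z ≠ z := by
  by_cases hall : ∃ i, i ≤ 4 ∧ ∀ j, 1 ≤ j → (TK 1)^[j] (2 ^ i * a) ≠ 2 ^ i * a
  · obtain ⟨i, hi, hj⟩ := hall
    refine ⟨2 ^ i * a, i, by positivity, ?_, ?_, hi, TK_halves 1 i a, hj⟩
    · intro h
      have hc : IsCoprime (3 : ℤ) (2 ^ i) := IsCoprime.pow_right (by norm_num)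
      exact ha (hc.dvd_of_dvd_mul_left h)
    · have : (2 : ℤ) ^ i ≤ 2 ^ 4 := pow_le_pow_right₀ (by norm_num) hi
      nlinarith
  · push Not at hall
    -- choose `i ≤ 3` with `2^i a ≡ 2, 8 mod 9`
    obtain ⟨i, hi, h9⟩ : ∃ i, i ≤ 3 ∧ ((2 : ℤ) ^ i * a % 9 = 2 ∨ (2 : ℤ) ^ i * a % 9 = 8) := by
      have h : a % 9 = 1 ∨ a % 9 = 2 ∨ a % 9 = 4 ∨ a % 9 = 5 ∨ a % 9 = 7 ∨ a % 9 = 8 := by omega
      rcases h with h | h | h | h | h | h
      · exact ⟨1, by norm_num, by omega⟩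
      · exact ⟨0, by norm_num, by omega⟩
      · exact ⟨1, by norm_num, by omega⟩
      · exact ⟨2, by norm_num, by omega⟩
      · exact ⟨3, by norm_num, by omega⟩
      · exact ⟨0, by norm_num, by omega⟩
    set y : ℤ := 2 ^ i * a with hy
    have hy0 : 0 < y := by positivity
    obtain ⟨p, hp, hper⟩ := hall (i + 1) (by omega)
    have hy2 : (2 : ℤ) ^ (i + 1) * a = 2 * y := by rw [hy]; ring
    rw [hy2] at hper
    obtain ⟨b, hb⟩ : ∃ b, 3 * b = 2 * y - 1 := ⟨(2 * y - 1) / 3, by omega⟩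
    have hTb : TK 1 b = y := by
      unfold TK
      rw [if_neg (by omega)]
      omega
    have hT2 : TK 1 (2 * y) = y := by
      unfold TK
      rw [if_pos (by omega)]
      omega
    have hyle : y ≤ 8 * a := by
      have : (2 : ℤ) ^ i ≤ 2 ^ 3 := pow_le_pow_right₀ (by norm_num) hi
      rw [hy]
      nlinarith
    refine ⟨b, i + 1, by omega, by omega, by omega, by omega, ?_, ?_⟩
    · rw [Function.iterate_succ_apply, hTb, hy]
      exact TK_halves 1 i a
    · intro j hj hbj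
      have h1 := per_inj hj hp hbj hper (by rw [hTb, hT2])
      omega

/-- the root can be moved into the good class, at bounded cost -/
theorem move (N : ℕ) (r : ℤ) (hr : ¬ (3 : ℤ) ∣ r) (L : ℕ) :
    ∃ J : ℕ, ∀ a : ℤ, 0 < a → ¬ (3 : ℤ) ∣ a → ∃ (b : ℤ) (j : ℕ), j ≤ J ∧ (2 : ℤ) ^ L ≤ b ∧
      b ≤ 2 ^ J * a ∧ a ≤ 2 ^ J * b ∧ (3 : ℤ) ^ N ∣ b - r ∧ (TK 1)^[j] b = a ∧
      ∀ i, 1 ≤ i → (TK 1)^[i] b ≠ b := by
  obtain ⟨E, n₁, hn₁⟩ := hit2 N r hr
  set φ := Nat.totient (3 ^ N) with hφ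
  have hφ0 : 0 < φ := Nat.totient_pos.2 (by positivity)
  have h2φ := two_pow_tot N
  rw [← hφ] at h2φ
  set I : ℕ := (φ - 1) + φ * L with hI
  refine ⟨4 + E * n₁ + I, fun a ha0 ha => ?_⟩
  obtain ⟨z, i, hz0, hz3, hz16, hi4, hzi, hznp⟩ := exists_nonper ha0 ha
  obtain ⟨n, s, x, hn, hx, hcl⟩ := hn₁ z hz3
  obtain ⟨hxs, hsE, hxpos⟩ := tr_facts hx
  have hx0 := hxpos hz0
  have hxle : x ≤ 2 ^ s * z := by
    have h1 := Pool.Agent.H412R2.tr_off_nonneg (by norm_num) hx
    have h2 : (1 : ℤ) ≤ ((3 : ℕ) : ℤ) ^ n := one_le_pow₀ (by norm_num)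
    nlinarith
  have hs : s ≤ E * n₁ := hsE.trans (Nat.mul_le_mul_left _ hn)
  have hone : (3 : ℤ) ^ N ∣ 2 ^ (φ * L) - 1 := by
    have h3 : ((2 : ℤ) ^ φ - 1) ∣ ((2 ^ φ) ^ L - 1 ^ L) := sub_dvd_pow_sub_pow _ _ _
    rw [one_pow, ← pow_mul] at h3
    exact h2φ.trans h3
  -- the exponent
  obtain ⟨t, htI, htL, htcl⟩ : ∃ t, t ≤ I ∧ L ≤ t ∧ (3 : ℤ) ^ N ∣ 2 ^ t * x - r := by
    have hL : L ≤ φ * L := Nat.le_mul_of_pos_left _ hφ0
    rcases hcl with h | h
    · refine ⟨φ * L, by omega, hL, ?_⟩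
      have e : (2 : ℤ) ^ (φ * L) * x - r = (2 ^ (φ * L) - 1) * x + (x - r) := by ring
      rw [e]
      exact dvd_add (Dvd.dvd.mul_right hone _) h
    · refine ⟨(φ - 1) + φ * L, le_rfl, by omega, ?_⟩
      obtain ⟨m', hm'⟩ : ∃ m', φ = m' + 1 := ⟨φ - 1, by omega⟩
      have hm'' : φ - 1 = m' := by omega
      rw [hm'', pow_add]
      have e : (2 : ℤ) ^ m' * 2 ^ (φ * L) * x - r = 2 ^ m' * ((2 ^ (φ * L) - 1) * x) +
          2 ^ m' * (x - 2 * r) + (2 ^ φ - 1) * r := by rw [hm', pow_succ 2 m']; ring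
      rw [e]
      exact dvd_add (dvd_add (Dvd.dvd.mul_left (Dvd.dvd.mul_right hone _) _)
        (Dvd.dvd.mul_left h _)) (Dvd.dvd.mul_right h2φ _)
  have hbx : (TK 1)^[t] (2 ^ t * x) = x := TK_halves 1 t x
  have hb : (TK 1)^[i + (s + t)] (2 ^ t * x) = a := by
    rw [Function.iterate_add_apply, Function.iterate_add_apply, hbx, hxs, hzi]
  have hj : i + (s + t) ≤ 4 + E * n₁ + I := by omega
  refine ⟨2 ^ t * x, i + (s + t), hj, ?_, ?_, ?_, htcl, hb, ?_⟩
  · have h1 : (2 : ℤ) ^ L ≤ 2 ^ t := pow_le_pow_right₀ (by norm_num) htL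
    have h2 : (0 : ℤ) < 2 ^ t := by positivity
    nlinarith
  · have h1 : (2 : ℤ) ^ (4 + E * n₁ + I) = 2 ^ 4 * 2 ^ (E * n₁) * 2 ^ I := by
      rw [pow_add, pow_add]
    have h2 : (2 : ℤ) ^ t ≤ 2 ^ I := pow_le_pow_right₀ (by norm_num) htI
    have h3 : (2 : ℤ) ^ s ≤ 2 ^ (E * n₁) := pow_le_pow_right₀ (by norm_num) hs
    rw [h1]
    calc (2 : ℤ) ^ t * x ≤ 2 ^ I * (2 ^ s * z) := by gcongr
      _ ≤ 2 ^ I * (2 ^ (E * n₁) * (16 * a)) := by gcongr
      _ = _ := by ring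
  · have h1 := (iter_pos (i + (s + t)) (z := 2 ^ t * x) (by positivity)).2
    rw [hb] at h1
    refine h1.trans ?_
    have h2 : (2 : ℤ) ^ (i + (s + t)) ≤ 2 ^ (4 + E * n₁ + I) := pow_le_pow_right₀ (by norm_num) hj
    gcongr
  · apply nonper_of (a := z) (i := s + t) _ hznp
    rw [Function.iterate_add_apply, hbx, hxs]

/-- endpoints of words from a positive root are positive -/
theorem endpoint_pos {x : ℤ} {w : List ℕ} (hw : ∀ e ∈ w, 1 ≤ e) (hx : 0 < x)
    (h : (3 : ℤ) ^ w.length ∣ 2 ^ w.sum * x - 1 * Wo w) :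
    0 < (2 ^ w.sum * x - 1 * Wo w) / 3 ^ w.length := by
  induction w generalizing x with
  | nil => simpa [Wo] using hx
  | cons e w ih =>
    obtain ⟨b, hb, hd, hq⟩ := word_consK h
    rw [hq]
    apply ih (fun e he => hw e (List.mem_cons_of_mem _ he)) _ hd
    have he : 1 ≤ e := hw e List.mem_cons_self
    have h4 : (2 : ℤ) ≤ 2 ^ e := by
      calc (2 : ℤ) = 2 ^ 1 := by norm_num
        _ ≤ 2 ^ e := pow_le_pow_right₀ (by norm_num) he
    nlinarith

/-- the main theorem -/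
theorem main : ∃ c C : ℝ, 0 < c ∧ 0 < C ∧ ∀ a : ℤ, 0 < a → ¬ (3 : ℤ) ∣ a → ∀ X : ℝ, (a : ℝ) ≤ X →
    ∃ S : Finset ℤ, (∀ z ∈ S, X / 2 < (z : ℝ) ∧ (z : ℝ) ≤ X ∧
      ∃ j : ℕ, (j : ℝ) ≤ C * (1 + Real.log (X / a)) ∧ (TK 1)^[j] z = a) ∧ c * X / a ≤ S.card := by
  classical
  have quenched : QStmt := fun N0 => quenched_of decay N0
  obtain ⟨N0, N, r, hN0, hN1, hr, hU⟩ := good_class_of fun N0 => quenched_of decay N0
  obtain ⟨K, hK1, hK⟩ := count2 quenched hN0
  obtain ⟨J, hJ⟩ := move N r hr (N0 + 4)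
  have hJ0 : (0 : ℝ) < 2 ^ J := by positivity
  have hJ1 : (1 : ℝ) ≤ 2 ^ J := one_le_pow₀ (by norm_num)
  refine ⟨1 / (192 * K * 2 ^ J), 36 * J + 37, by positivity, by positivity, ?_⟩
  intro a ha0 ha X hX
  have haR : (1 : ℝ) ≤ a := by exact_mod_cast ha0
  have haR0 : (0 : ℝ) < a := by linarith
  have hX0 : 0 < X := by linarith
  have hXa : 1 ≤ X / a := by rw [le_div_iff₀ haR0]; linarith
  have hlog : 0 ≤ Real.log (X / a) := Real.log_nonneg hXa
  have hJR : (0 : ℝ) ≤ J := by positivity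
  obtain ⟨b, j, hjJ, hbL, hba, hab, hbr, hbj, hbnp⟩ := hJ a ha0 ha
  have hb0 : 0 < b := lt_of_lt_of_le (by positivity) hbL
  have hbR0 : (0 : ℝ) < b := by exact_mod_cast hb0
  have hbaR : (b : ℝ) ≤ 2 ^ J * a := by exact_mod_cast hba
  have habR : (a : ℝ) ≤ 2 ^ J * b := by exact_mod_cast hab
  by_cases hsmall : X < K * b
  · -- a single power of two times `a`
    obtain ⟨i, hi1, hi2⟩ : ∃ i : ℕ, X / 2 < 2 ^ i * (a : ℝ) ∧ 2 ^ i * (a : ℝ) ≤ X := by
      obtain ⟨n, h1, h2⟩ := exists_nat_pow_near hXa (by norm_num : (1 : ℝ) < 2)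
      refine ⟨n, ?_, ?_⟩
      · rw [div_lt_iff₀ haR0, pow_succ] at h2
        linarith
      · rw [le_div_iff₀ haR0] at h1
        exact h1
    refine ⟨{2 ^ i * a}, ?_, ?_⟩
    · intro z hz
      rw [Finset.mem_singleton] at hz
      subst hz
      refine ⟨by exact_mod_cast hi1, by exact_mod_cast hi2, i, ?_, TK_halves 1 i a⟩
      have h1 : (2 : ℝ) ^ i ≤ X / a := by rw [le_div_iff₀ haR0]; exact hi2
      have h2 := Real.log_le_log (by positivity) h1
      rw [Real.log_pow] at h2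
      have h3 := Real.log_two_gt_d9
      have hi0 : (0 : ℝ) ≤ i := by positivity
      have h4 : (i : ℝ) ≤ 2 * Real.log (X / a) := by nlinarith
      nlinarith [mul_nonneg hJR hlog]
    · rw [Finset.card_singleton]
      have h1 : X ≤ K * (2 ^ J * a) := by
        have : K * (b : ℝ) ≤ K * (2 ^ J * a) := mul_le_mul_of_nonneg_left hbaR (by linarith)
        linarith
      rw [div_mul_eq_mul_div, one_mul, div_div, div_le_iff₀ (by positivity)]
      push_cast
      have : 0 ≤ K * (2 ^ J * (a : ℝ)) := by positivity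
      nlinarith
  · push Not at hsmall
    set Y : ℝ := X / b with hY
    have hKY : K ≤ Y := by rw [hY, le_div_iff₀ hbR0]; exact hsmall
    have hY1 : 1 ≤ Y := hK1.trans hKY
    have hY0 : 0 < Y := by linarith
    have hYb : Y * b = X := by rw [hY]; field_simp
    obtain ⟨S, hS, hc⟩ := hK Y hKY b (hU b hbr)
    set f : List ℕ → ℤ := fun w => (2 ^ w.sum * b - 1 * Wo w) / 3 ^ w.length with hf
    have hval : ∀ w ∈ S, (3 : ℤ) ^ w.length ∣ 2 ^ w.sum * b - 1 * Wo w := by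
      intro w hw
      have := (hS w hw).2.1
      rwa [one_mul]
    have hinj : ∀ w ∈ S, ∀ w' ∈ S, f w = f w' → w = w' := fun w hw w' hw' he =>
      endpoint_injK (by norm_num) one_ne_zero hbnp (hS w hw).1 (hS w' hw').1 (hval w hw)
        (hval w' hw') he
    have hreach : ∀ w ∈ S, (TK 1)^[w.sum] (f w) = b := fun w hw =>
      endpoint_reachK (by norm_num) (hS w hw).1 (hval w hw)
    have hsize : ∀ w ∈ S, X / 4 ≤ (f w : ℝ) ∧ (f w : ℝ) ≤ X := by
      intro w hw
      obtain ⟨_, _, h3, h4, h5, _⟩ := hS w hw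
      have h1 : (3 : ℤ) ^ w.length * f w = 2 ^ w.sum * b - 1 * Wo w :=
        Int.mul_ediv_cancel' (hval w hw)
      have h2 : (3 : ℝ) ^ w.length * (f w : ℝ) = 2 ^ w.sum * b - 1 * Wo w := by exact_mod_cast h1
      have h3p : (0 : ℝ) < 3 ^ w.length := by positivity
      have h2p : (0 : ℝ) < 2 ^ w.sum := by positivity
      have hW0 : (0 : ℝ) ≤ Wo w := by positivity
      have hbL' : (2 : ℝ) ^ (N0 + 4) ≤ b := by exact_mod_cast hbL
      rw [pow_add] at hbL'
      have hWb : (Wo w : ℝ) ≤ 2 ^ w.sum * b / 2 := by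
        have : 5 * (2 : ℝ) ^ N0 * 2 ^ w.sum ≤ 2 ^ w.sum * b / 2 := by
          have h6 : 5 * (2 : ℝ) ^ N0 ≤ b / 2 := by
            have : (0 : ℝ) < 2 ^ N0 := by positivity
            linarith
          nlinarith
        linarith
      constructor
      · have h6 : (3 : ℝ) ^ w.length * (X / 4) ≤ 3 ^ w.length * (f w : ℝ) := by
          rw [h2, ← hYb]
          have h7 : Y * 3 ^ w.length * b ≤ 2 * (2 : ℝ) ^ w.sum * b :=
            mul_le_mul_of_nonneg_right h3 hbR0.le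
          nlinarith
        exact le_of_mul_le_mul_left h6 h3p
      · have h6 : (3 : ℝ) ^ w.length * (f w : ℝ) ≤ 3 ^ w.length * X := by
          rw [h2, ← hYb]
          have h7 : (2 : ℝ) ^ w.sum * b ≤ Y * 3 ^ w.length * b :=
            mul_le_mul_of_nonneg_right h4 hbR0.le
          nlinarith
        exact le_of_mul_le_mul_left h6 h3p
    -- the three classes
    set P : ℕ → List ℕ → Prop := fun i w => X / 2 < 2 ^ i * (f w : ℝ) ∧ 2 ^ i * (f w : ℝ) ≤ X with hP
    have hcov : ∀ w ∈ S, ∃ i ∈ Finset.range 3, P i w := by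
      intro w hw
      obtain ⟨h1, h2⟩ := hsize w hw
      by_cases h3 : X / 2 < (f w : ℝ)
      · exact ⟨0, by simp, by simp only [hP, pow_zero, one_mul]; exact ⟨h3, h2⟩⟩
      · push Not at h3
        by_cases h4 : X / 4 < (f w : ℝ)
        · refine ⟨1, by simp, ?_⟩
          simp only [hP, pow_one]
          constructor <;> linarith
        · push Not at h4
          refine ⟨2, by simp, ?_⟩
          simp only [hP]
          constructor <;> norm_num <;> linarith
    obtain ⟨i, hi, hcard⟩ : ∃ i ∈ Finset.range 3, (S.card : ℝ) / 3 ≤ ((S.filter (P i)).card : ℝ) := by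
      by_contra hcon
      push Not at hcon
      have h1 : S ⊆ (Finset.range 3).biUnion fun i => S.filter (P i) := by
        intro w hw
        obtain ⟨i, hi, h⟩ := hcov w hw
        exact Finset.mem_biUnion.2 ⟨i, hi, Finset.mem_filter.2 ⟨hw, h⟩⟩
      have h2 := (Finset.card_le_card h1).trans Finset.card_biUnion_le
      have h3 : (S.card : ℝ) ≤ ∑ i ∈ Finset.range 3, ((S.filter (P i)).card : ℝ) := by
        exact_mod_cast h2
      rw [Finset.sum_range_succ, Finset.sum_range_succ, Finset.sum_range_succ,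
        Finset.sum_range_zero] at h3
      have h4 := hcon 0 (by simp)
      have h5 := hcon 1 (by simp)
      have h6 := hcon 2 (by simp)
      linarith
    have hi2 : i ≤ 2 := by
      have := Finset.mem_range.1 hi
      omega
    refine ⟨(S.filter (P i)).image (fun w => 2 ^ i * f w), ?_, ?_⟩
    · intro z hz
      obtain ⟨w, hw, rfl⟩ := Finset.mem_image.1 hz
      obtain ⟨hwS, hwP⟩ := Finset.mem_filter.1 hw
      refine ⟨by exact_mod_cast hwP.1, by exact_mod_cast hwP.2, j + (w.sum + i), ?_, ?_⟩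
      · have h6 := (hS w hwS).2.2.2.2.2
        have h7 : Real.log Y ≤ J + Real.log (X / a) := by
          have h8 : Y ≤ 2 ^ J * (X / a) := by
            rw [hY, div_le_iff₀ hbR0]
            have h9 : X = X / a * a := by field_simp
            have h10 : X / a * a ≤ X / a * (2 ^ J * b) :=
              mul_le_mul_of_nonneg_left habR (by linarith)
            calc X = X / a * a := h9
              _ ≤ X / a * (2 ^ J * b) := h10
              _ = _ := by ring
          have h9 := Real.log_le_log hY0 h8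
          rw [Real.log_mul (by positivity) (by positivity), Real.log_pow] at h9
          have h10 : Real.log 2 ≤ 1 := by
            have := Real.log_two_lt_d9
            linarith
          nlinarith
        have h8 : (j : ℝ) ≤ J := by exact_mod_cast hjJ
        have h9 : (i : ℝ) ≤ 2 := by exact_mod_cast hi2
        rw [Nat.cast_add, Nat.cast_add]
        nlinarith [mul_nonneg hJR hlog]
      · rw [Function.iterate_add_apply, Function.iterate_add_apply, TK_halves, hreach w hwS, hbj]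
    · rw [Finset.card_image_of_injOn]
      · refine le_trans ?_ hcard
        have h1 : Y / 192 ≤ (S.card : ℝ) / 3 := by linarith
        refine le_trans ?_ h1
        rw [hY, div_mul_eq_mul_div, one_mul, div_div, div_div]
        apply div_le_div_of_nonneg_left hX0.le (by positivity)
        have h2 : (1 : ℝ) * (2 ^ J * a) ≤ K * (2 ^ J * a) :=
          mul_le_mul_of_nonneg_right hK1 (by positivity)
        nlinarith
      · intro w hw w' hw' he
        have hw1 := (Finset.mem_filter.1 (Finset.mem_coe.1 hw)).1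
        have hw2 := (Finset.mem_filter.1 (Finset.mem_coe.1 hw')).1
        apply hinj w hw1 w' hw2
        have h1 : (2 : ℤ) ^ i * f w = 2 ^ i * f w' := he
        exact mul_left_cancel₀ (by positivity) h1

end Pool.Agent.W38.UPD
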